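import Pool.Agent.H83.CP.CN

/-!
# CH: chains

`mem_ch`: `sec α x = a` iff `a π / 4 ≤ α x < (a + 1) π / 4` (`Nat.floor_eq_iff`, `α x ≥ 0`).
`ch_inj`: if `α x = α y`, `x ≠ y` then `0 < pr (α x) (x - y)` and `0 < pr (α x) (y - x)`, contradiction.
`ch_dir`: `cone`, and `‖⟨-(r sin β), r cos β⟩‖ = r`.
`ch_mono`: `y - x = r i e(β)`, `z - y = r' i e(β')` with `β, β'` in an interval of length `π / 4`, so the inner product of `y - x` and `z - y`
is `r r' cos (β' - β) > 0` and `|z - x|² > |y - x|², |z - y|²`.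
`ch_mono4`: two steps with `ch_mono` (cases of equality).
`ch_ax`: `ax θ (y - x) = r cos (β - θ)`, `|β - θ| ≤ π / 4`, `cos (π / 4) ≥ 1 / 2`.
`ax_abs`: Cauchy-Schwarz.
`ch_orient`: `orient` with the angles `α x, α y, α z` if `α y < α z`, and `α x, α y, α z + 2 π` if `α z < α x`.
-/

set_option autoImplicit false

open Real

namespace Pool.Agent.H83.CP

theorem mem_ch {V : Finset ℂ} {α : ℂ → ℝ} (h : Nrm V α) {a : ℕ} {x : ℂ} :
    x ∈ ch V α a ↔ x ∈ V ∧ (a : ℝ) * (π / 4) ≤ α x ∧ α x < ((a : ℝ) + 1) * (π / 4) := by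
  have hpi : 0 < π / 4 := by positivity
  unfold ch
  rw [Finset.mem_filter]
  unfold sec
  constructor
  · rintro ⟨hx, h1⟩
    have h0 : 0 ≤ α x / (π / 4) := div_nonneg (h.rng x hx).1 hpi.le
    rw [Nat.floor_eq_iff h0, le_div_iff₀ hpi, div_lt_iff₀ hpi] at h1
    exact ⟨hx, h1⟩
  · rintro ⟨hx, h1⟩
    have h0 : 0 ≤ α x / (π / 4) := div_nonneg (h.rng x hx).1 hpi.le
    refine ⟨hx, ?_⟩
    rw [Nat.floor_eq_iff h0, le_div_iff₀ hpi, div_lt_iff₀ hpi]
    exact h1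

theorem sec_lt {V : Finset ℂ} {α : ℂ → ℝ} (h : Nrm V α) {x : ℂ} (hx : x ∈ V) : sec α x < 8 := by
  have hpi : 0 < π / 4 := by positivity
  have h0 : 0 ≤ α x / (π / 4) := div_nonneg (h.rng x hx).1 hpi.le
  unfold sec
  rw [Nat.floor_lt h0, div_lt_iff₀ hpi]
  have := (h.rng x hx).2
  push_cast
  linarith

theorem ch_inj {V : Finset ℂ} {α : ℂ → ℝ} (h : Nrm V α) {x y : ℂ} (hx : x ∈ V) (hy : y ∈ V)
    (he : α x = α y) : x = y := by
  by_contra hne
  have h1 := h.ext x hx y hy (fun h => hne h.symm)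
  have h2 := h.ext y hy x hx hne
  rw [← he] at h2
  unfold pr at h1 h2
  simp only [Complex.sub_re, Complex.sub_im] at h1 h2
  linarith

theorem CH_norm {r β : ℝ} (hr : 0 < r) : ‖(⟨-(r * sin β), r * cos β⟩ : ℂ)‖ = r := by
  have h1 : ‖(⟨-(r * sin β), r * cos β⟩ : ℂ)‖ ^ 2 = r ^ 2 := by
    rw [Complex.sq_norm, Complex.normSq_apply]
    have := sin_sq_add_cos_sq β
    linear_combination r ^ 2 * this
  exact (sq_eq_sq₀ (norm_nonneg _) hr.le).mp h1

theorem ch_dir {V : Finset ℂ} {α : ℂ → ℝ} (h : Nrm V α) {x y : ℂ} (hx : x ∈ V)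
    (hy : y ∈ V) (hlt : α x < α y) (hpi : α y < α x + π) :
    ∃ β r : ℝ, α x < β ∧ β < α y ∧ 0 < r ∧ y - x = ⟨-(r * sin β), r * cos β⟩ ∧ dist x y = r := by
  have hne : y ≠ x := by
    rintro rfl
    exact lt_irrefl _ hlt
  obtain ⟨β, r, h1, h2, h3, h4⟩ := cone hlt hpi (h.ext x hx y hy hne) (h.ext y hy x hx hne.symm)
  refine ⟨β, r, h1, h2, h3, h4, ?_⟩
  rw [dist_comm, dist_eq_norm, h4, CH_norm h3]

theorem ch_mono {V : Finset ℂ} {α : ℂ → ℝ} (h : Nrm V α) {a : ℕ} {x y z : ℂ} (hx : x ∈ ch V α a)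
    (hy : y ∈ ch V α a) (hz : z ∈ ch V α a) (h1 : α x < α y) (h2 : α y < α z) :
    dist x y < dist x z ∧ dist y z < dist x z := by
  rw [mem_ch h] at hx hy hz
  have hp : 0 < π := pi_pos
  obtain ⟨β, r, b1, b2, b3, b4, b5⟩ := ch_dir h hx.1 hy.1 h1 (by linarith [hx.2.1, hy.2.2])
  obtain ⟨β', r', c1, c2, c3, c4, c5⟩ := ch_dir h hy.1 hz.1 h2 (by linarith [hy.2.1, hz.2.2])
  have hc : 0 < cos (β' - β) := by
    apply cos_pos_of_mem_Ioo
    constructor
    · linarith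
    · linarith [hx.2.1, hz.2.2]
  have hd : dist x z ^ 2 = r ^ 2 + r' ^ 2 + 2 * r * r' * cos (β' - β) := by
    rw [dist_comm, dist_eq_norm, show z - x = (y - x) + (z - y) by ring, b4, c4, Complex.sq_norm,
      Complex.normSq_apply]
    simp only [Complex.add_re, Complex.add_im]
    rw [cos_sub]
    have e1 := sin_sq_add_cos_sq β
    have e2 := sin_sq_add_cos_sq β'
    linear_combination r ^ 2 * e1 + r' ^ 2 * e2
  have hpos : 0 < 2 * r * r' * cos (β' - β) := by positivity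
  rw [b5, c5]
  have hr2 : 0 < r ^ 2 := by positivity
  have hr2' : 0 < r' ^ 2 := by positivity
  constructor
  · apply lt_of_pow_lt_pow_left₀ 2 dist_nonneg
    rw [hd]; linarith
  · apply lt_of_pow_lt_pow_left₀ 2 dist_nonneg
    rw [hd]; linarith

theorem ch_mono4 {V : Finset ℂ} {α : ℂ → ℝ} (h : Nrm V α) {a : ℕ} {x y z w : ℂ}
    (hx : x ∈ ch V α a) (hy : y ∈ ch V α a) (hz : z ∈ ch V α a) (hw : w ∈ ch V α a)
    (h1 : α x ≤ α y) (h2 : α y ≤ α z) (h3 : α z ≤ α w) : dist y z ≤ dist x w := by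
  have hx' := (mem_ch h).mp hx
  have hy' := (mem_ch h).mp hy
  have hz' := (mem_ch h).mp hz
  have hw' := (mem_ch h).mp hw
  rcases h2.eq_or_lt with h2 | h2
  · rw [ch_inj h hy'.1 hz'.1 h2, dist_self]
    exact dist_nonneg
  · have e1 : dist y z ≤ dist x z := by
      rcases h1.eq_or_lt with h1 | h1
      · rw [ch_inj h hx'.1 hy'.1 h1]
      · exact (ch_mono h hx hy hz h1 h2).2.le
    have e2 : dist x z ≤ dist x w := by
      rcases h3.eq_or_lt with h3 | h3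
      · rw [ch_inj h hz'.1 hw'.1 h3]
      · exact (ch_mono h hx hz hw (lt_of_le_of_lt h1 h2) h3).1.le
    exact e1.trans e2

theorem ch_ax {V : Finset ℂ} {α : ℂ → ℝ} (h : Nrm V α) {a : ℕ} {x y : ℂ} (hx : x ∈ ch V α a)
    (hy : y ∈ ch V α a) (h1 : α x ≤ α y) {θ : ℝ} (h2 : (a : ℝ) * (π / 4) ≤ θ)
    (h3 : θ ≤ ((a : ℝ) + 1) * (π / 4)) : dist x y ≤ 2 * ax θ (y - x) := by
  rw [mem_ch h] at hx hy
  have hp : 0 < π := pi_pos
  rcases h1.eq_or_lt with h1 | h1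
  · rw [ch_inj h hx.1 hy.1 h1, dist_self, sub_self]
    simp [ax]
  · obtain ⟨β, r, b1, b2, b3, b4, b5⟩ := ch_dir h hx.1 hy.1 h1 (by linarith [hx.2.1, hy.2.2])
    have hax : ax θ (y - x) = r * cos (β - θ) := by
      rw [b4, cos_sub]
      simp only [ax]
      ring
    have hc : 1 / 2 ≤ cos (β - θ) := by
      rw [← cos_abs, ← cos_pi_div_three]
      apply cos_le_cos_of_nonneg_of_le_pi (abs_nonneg _) (by linarith)
      rw [abs_le]
      constructor
      · linarith [hx.2.1, hy.2.2]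
      · linarith [hx.2.1, hy.2.2]
    rw [b5, hax]
    nlinarith

theorem ax_abs (θ : ℝ) (z : ℂ) : |ax θ z| ≤ ‖z‖ := by
  apply abs_le_of_sq_le_sq _ (norm_nonneg z)
  rw [Complex.sq_norm, Complex.normSq_apply]
  unfold ax
  have e1 := sin_sq_add_cos_sq θ
  have e2 : z.re * z.re + z.im * z.im =
      (z.im * cos θ - z.re * sin θ) ^ 2 + (z.re * cos θ + z.im * sin θ) ^ 2 := by
    linear_combination (-(z.re ^ 2 + z.im ^ 2)) * e1
  rw [e2]
  nlinarith [sq_nonneg (z.re * cos θ + z.im * sin θ)]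

theorem ax_sub (θ : ℝ) (z w : ℂ) : ax θ (z - w) = ax θ z - ax θ w := by
  simp only [ax, Complex.sub_re, Complex.sub_im]
  ring

theorem CH_pr (θ : ℝ) (z : ℂ) : pr (θ + 2 * π) z = pr θ z := by
  simp only [pr, cos_add_two_pi, sin_add_two_pi]

theorem ch_orient {V : Finset ℂ} {α : ℂ → ℝ} (h : Nrm V α) {x y z : ℂ} (hx : x ∈ V) (hy : y ∈ V)
    (hz : z ∈ V) (h1 : α x < α y) (h2 : α y < α z ∨ α z < α x) : 0 < crs (y - x) (z - x) := by
  have rx := h.rng x hx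
  have ry := h.rng y hy
  have rz := h.rng z hz
  have hxy : y ≠ x := by rintro rfl; exact lt_irrefl _ h1
  have hxz : z ≠ x := by
    rintro rfl
    rcases h2 with h2 | h2
    · exact lt_irrefl _ (h1.trans h2)
    · exact lt_irrefl _ h2
  have hyz : z ≠ y := by
    rintro rfl
    rcases h2 with h2 | h2
    · exact lt_irrefl _ h2
    · exact lt_irrefl _ (h1.trans h2)
  rcases h2 with h2 | h2
  · exact orient (s := α x) (t := α y) (u := α z) h1 h2 (by linarith) (h.ext x hx y hy hxy)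
      (h.ext x hx z hz hxz) (h.ext y hy x hx hxy.symm) (h.ext y hy z hz hyz)
      (h.ext z hz x hx hxz.symm) (h.ext z hz y hy hyz.symm)
  · refine orient (s := α x) (t := α y) (u := α z + 2 * π) h1 (by linarith) (by linarith)
      (h.ext x hx y hy hxy)
      (h.ext x hx z hz hxz) (h.ext y hy x hx hxy.symm) (h.ext y hy z hz hyz) ?_ ?_
    · rw [CH_pr]; exact h.ext z hz x hx hxz.symm
    · rw [CH_pr]; exact h.ext z hz y hy hyz.symm

end Pool.Agent.H83.CP
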