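import Pool.Agent.H83.CP.CH

/-!
# CI: points of a chain with `c (i + 1) = ζ c i + e` are equally spaced on a circle with a small step

`c i`, `i ≤ n`, increasing in the chain `a`. `ch_dir`: `c (i+1) - c i = r_i i e(β_i)`, `α (c i) < β_i < α (c (i+1))`, so `β_i` is strictly increasing and all
`β_i` are in an interval of length `π / 4`. `c (i+2) - c (i+1) = ζ (c (i+1) - c i)`: taking norms (`‖ζ‖ = 1`) `r_i = r` is constant, and
`e(β_{i+1}) = ζ e(β_i)`, so `exp (i (β_{i+1} - β_i)) = ζ` for all `i`; the numbers `β_{i+1} - β_i` are in `(0, π / 4)`, so they are all equal to one `τ`, and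
`(n - 1) τ = β_{n-1} - β_0 < π / 4`. Then `c j - c i = r i e(β_i) ∑_{l < m} exp (i l τ)`, `m = j - i`, of norm `r |1 - exp (i m τ)| / |1 - exp (i τ)| =
r sin (m τ / 2) / sin (τ / 2)` (`‖1 - exp (i x)‖ = 2 |sin (x / 2)|`, `m τ / 2 < π`). So `ρ = r / (2 sin (τ / 2))`.
(Alternatively: fixed point `o` of `z ↦ ζ z + e`, `c j - c i = (ζ^m - 1) (c i - o)`.)
-/

set_option autoImplicit false

open Real

namespace Pool.Agent.H83.CP

theorem CI_vec (r β : ℝ) : (⟨-(r * sin β), r * cos β⟩ : ℂ) =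
    (r : ℂ) * (Complex.I * Complex.exp (β * Complex.I)) := by
  apply Complex.ext
  · simp [Complex.exp_ofReal_mul_I_re, Complex.exp_ofReal_mul_I_im]
  · simp [Complex.exp_ofReal_mul_I_re, Complex.exp_ofReal_mul_I_im]

theorem CI_norm (r β : ℝ) (hr : 0 < r) :
    ‖(r : ℂ) * (Complex.I * Complex.exp (β * Complex.I))‖ = r := by
  rw [norm_mul, norm_mul, Complex.norm_exp_ofReal_mul_I, Complex.norm_I, Complex.norm_real,
    Real.norm_of_nonneg hr.le]
  ring

theorem CI_step {ζ : ℂ} (hζ : ‖ζ‖ = 1) {r r' β β' : ℝ} (hr : 0 < r) (hr' : 0 < r')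
    (h : (r' : ℂ) * (Complex.I * Complex.exp (β' * Complex.I)) =
      ζ * ((r : ℂ) * (Complex.I * Complex.exp (β * Complex.I)))) :
    r' = r ∧ ζ = Complex.exp (((β' - β : ℝ) : ℂ) * Complex.I) := by
  have h1 : r' = r := by
    have h2 := congrArg norm h
    rw [norm_mul ζ, hζ, CI_norm r' β' hr', CI_norm r β hr, one_mul] at h2
    exact h2
  refine ⟨h1, ?_⟩
  subst h1
  have hr0 : ((r' : ℝ) : ℂ) ≠ 0 := by exact_mod_cast hr'.ne'
  have h3 : Complex.exp (β' * Complex.I) = ζ * Complex.exp (β * Complex.I) := by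
    have h4 : (r' : ℂ) * Complex.I * Complex.exp (β' * Complex.I) =
        (r' : ℂ) * Complex.I * (ζ * Complex.exp (β * Complex.I)) := by
      linear_combination h
    exact mul_left_cancel₀ (mul_ne_zero hr0 Complex.I_ne_zero) h4
  push_cast
  rw [sub_mul, Complex.exp_sub, h3]
  field_simp

theorem circle {V : Finset ℂ} {α : ℂ → ℝ} (h : Nrm V α) {a n : ℕ} (hn : 3 ≤ n) {c : ℕ → ℂ}
    (hc : ∀ i ≤ n, c i ∈ ch V α a) (hi : ∀ i j, i < j → j ≤ n → α (c i) < α (c j)) {ζ e : ℂ}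
    (hζ : ‖ζ‖ = 1) (hr : ∀ i < n, c (i + 1) = ζ * c i + e) :
    ∃ ρ τ : ℝ, 0 < ρ ∧ 0 < τ ∧ ((n : ℝ) - 1) * τ < π / 4 ∧
      ∀ i m, i + m ≤ n → dist (c i) (c (i + m)) = F ρ τ m := by
  have hpi := Real.pi_pos
  have hlo : ∀ i ≤ n, (a : ℝ) * (π / 4) ≤ α (c i) := fun i hin => ((mem_ch h).1 (hc i hin)).2.1
  have hup : ∀ i ≤ n, α (c i) < ((a : ℝ) + 1) * (π / 4) := fun i hin =>
    ((mem_ch h).1 (hc i hin)).2.2
  have hdir : ∀ i, ∃ β r : ℝ, i < n → α (c i) < β ∧ β < α (c (i + 1)) ∧ 0 < r ∧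
      c (i + 1) - c i = (r : ℂ) * (Complex.I * Complex.exp (β * Complex.I)) := by
    intro i
    by_cases hin : i < n
    · obtain ⟨β, r, h1, h2, h3, h4, h5⟩ := ch_dir h ((mem_ch h).1 (hc i hin.le)).1
        ((mem_ch h).1 (hc (i + 1) hin)).1 (hi i (i + 1) (Nat.lt_succ_self i) hin) (by
          have h1 := hlo i hin.le
          have h2 := hup (i + 1) hin
          linarith)
      exact ⟨β, r, fun _ => ⟨h1, h2, h3, by rw [h4, CI_vec]⟩⟩
    · exact ⟨0, 0, fun h => absurd h hin⟩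
  choose β r hβ using hdir
  have hstep : ∀ i, i + 1 < n → c (i + 1 + 1) - c (i + 1) = ζ * (c (i + 1) - c i) := by
    intro i hin
    rw [hr (i + 1) hin, hr i (by omega)]
    ring
  have hkey : ∀ i, i + 1 < n → ζ = Complex.exp (((β (i + 1) - β i : ℝ) : ℂ) * Complex.I) := by
    intro i hin
    have h1 := hβ i (by omega)
    have h2 := hβ (i + 1) hin
    have h3 := hstep i hin
    rw [h2.2.2.2, h1.2.2.2] at h3
    exact (CI_step hζ h1.2.2.1 h2.2.2.1 h3).2
  have hβ0 : ∀ i, i < n → (a : ℝ) * (π / 4) < β i := fun i hin =>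
    lt_of_le_of_lt (hlo i hin.le) (hβ i hin).1
  have hβ1 : ∀ i, i < n → β i < ((a : ℝ) + 1) * (π / 4) := fun i hin =>
    (hβ i hin).2.1.trans (hup (i + 1) hin)
  have hβlt : ∀ i, i + 1 < n → β i < β (i + 1) := fun i hin =>
    (hβ i (by omega)).2.1.trans (hβ (i + 1) hin).1
  set τ : ℝ := β 1 - β 0 with hτ
  have hτ0 : 0 < τ := by
    have := hβlt 0 (by omega)
    simp only [zero_add] at this
    rw [hτ]; linarith
  have hτ1 : τ < π / 4 := by
    have h1 := hβ0 0 (by omega)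
    have h2 := hβ1 1 (by omega)
    rw [hτ]; linarith
  have hζτ : ζ = Complex.exp ((τ : ℂ) * Complex.I) := hkey 0 (by omega)
  have heq : ∀ i, i + 1 < n → β (i + 1) - β i = τ := by
    intro i hin
    have h1 := hkey i hin
    rw [hζτ] at h1
    have h2 := congrArg Complex.re h1
    rw [Complex.exp_ofReal_mul_I_re, Complex.exp_ofReal_mul_I_re] at h2
    have h3 := hβ0 i (by omega)
    have h4 := hβ1 (i + 1) hin
    have h5 := hβlt i hin
    exact (Real.injOn_cos ⟨hτ0.le, by linarith⟩ ⟨by linarith, by linarith⟩ h2).symm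
  have hsum : ∀ i, i < n → β i = β 0 + i * τ := by
    intro i
    induction i with
    | zero => intro _; simp
    | succ k ih =>
      intro hk
      have h1 := heq k hk
      have h2 := ih (by omega)
      push_cast
      linarith
  have hnτ : ((n : ℝ) - 1) * τ < π / 4 := by
    have h1 := hsum (n - 1) (by omega)
    have h2 := hβ0 0 (by omega)
    have h3 := hβ1 (n - 1) (by omega)
    have h4 : ((n - 1 : ℕ) : ℝ) = (n : ℝ) - 1 := by
      rw [Nat.cast_sub (by omega)]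
      simp
    rw [h4] at h1
    linarith
  have hsin : 0 < sin (τ / 2) := Real.sin_pos_of_pos_of_lt_pi (by linarith) (by linarith)
  have hr0 := (hβ 0 (by omega)).2.2.1
  have hw : ∀ i, i < n → c (i + 1) - c i = ζ ^ i * (c 1 - c 0) := by
    intro i
    induction i with
    | zero => intro _; simp
    | succ k ih =>
      intro hk
      rw [hstep k hk, ih (by omega), pow_succ]
      ring
  have hdiff : ∀ i m, i + m ≤ n → (c (i + m) - c i) * (ζ - 1) = ζ ^ i * (ζ ^ m - 1) *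
      (c 1 - c 0) := by
    intro i m
    induction m with
    | zero => intro _; simp
    | succ k ih =>
      intro hk
      have h1 := ih (by omega)
      have h2 := hw (i + k) (by omega)
      rw [show i + (k + 1) = i + k + 1 by ring]
      have h3 : (c (i + k + 1) - c i) * (ζ - 1) =
          (c (i + k) - c i) * (ζ - 1) + (c (i + k + 1) - c (i + k)) * (ζ - 1) := by ring
      rw [h3, h1, h2]
      ring
  have hnorm : ∀ m : ℕ, ‖ζ ^ m - 1‖ = |2 * sin (m * τ / 2)| := by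
    intro m
    have h1 : ζ ^ m = Complex.exp (Complex.I * ((m * τ : ℝ) : ℂ)) := by
      rw [hζτ, ← Complex.exp_nat_mul]
      congr 1
      push_cast
      ring
    rw [h1, Complex.norm_exp_I_mul_ofReal_sub_one, Real.norm_eq_abs]
  refine ⟨r 0 / (2 * sin (τ / 2)), τ, by positivity, hτ0, hnτ, ?_⟩
  intro i m him
  have h1 := congrArg norm (hdiff i m him)
  have h2 := hnorm m
  have h3 := hnorm 1
  have h4 : ‖c 1 - c 0‖ = r 0 := by
    have := (hβ 0 (by omega)).2.2.2
    rw [zero_add] at this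
    rw [this, CI_norm _ _ hr0]
  rw [norm_mul, norm_mul, norm_mul, norm_pow, hζ, one_pow, one_mul, h2, h4] at h1
  rw [pow_one] at h3
  rw [h3] at h1
  have hm0 : 0 ≤ (m : ℝ) * τ / 2 := by positivity
  have hm1 : (m : ℝ) * τ / 2 ≤ π := by
    have h5 : (m : ℝ) ≤ n := by exact_mod_cast (by omega : m ≤ n)
    have h6 : (3 : ℝ) ≤ n := by exact_mod_cast hn
    have h7 : (m : ℝ) * τ ≤ n * τ := mul_le_mul_of_nonneg_right h5 hτ0.le
    have h8 : (n : ℝ) * τ = ((n : ℝ) - 1) * τ + τ := by ring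
    linarith
  have hsm : 0 ≤ sin ((m : ℝ) * τ / 2) := Real.sin_nonneg_of_nonneg_of_le_pi hm0 hm1
  have h9 : |2 * sin (((1 : ℕ) : ℝ) * τ / 2)| = 2 * sin (τ / 2) := by
    rw [Nat.cast_one, one_mul, abs_of_pos (by positivity)]
  have h10 : |2 * sin ((m : ℝ) * τ / 2)| = 2 * sin (m * τ / 2) :=
    abs_of_nonneg (by positivity)
  rw [h9, h10] at h1
  rw [dist_comm, dist_eq_norm]
  have h11 : ‖c (i + m) - c i‖ = 2 * sin ((m : ℝ) * τ / 2) * r 0 / (2 * sin (τ / 2)) := by
    rw [eq_div_iff (by positivity)]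
    exact h1
  rw [h11]
  unfold F
  ring

end Pool.Agent.H83.CP
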