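import Pool.Agent.H83.CP.Defs

/-!
# CLA: two circles

`two_pts`: at most two points have given distances to two different centers (`EuclideanGeometry.eq_of_dist_eq_of_dist_eq_of_finrank_eq_two`,
`Complex.finrank_real_complex_fact`; if the set has 3 elements take three different ones).
`circ_unique`: three different points on the circles of radius `ρ` around `o` and `o'`: `o = o'` (same lemma).
-/

set_option autoImplicit false

open Real

namespace Pool.Agent.H83.CP

theorem two_pts {o s : ℂ} (h : o ≠ s) {ρ x : ℝ} (S : Finset ℂ)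
    (hS : ∀ y ∈ S, dist y o = ρ ∧ dist y s = x) : S.card ≤ 2 := by
  by_contra hc
  obtain ⟨a, ha, b, hb, c, hc, hab, hac, hbc⟩ := Finset.two_lt_card.1 (not_le.1 hc)
  rcases EuclideanGeometry.eq_of_dist_eq_of_dist_eq_of_finrank_eq_two
    Complex.finrank_real_complex h hab (hS a ha).1 (hS b hb).1 (hS c hc).1 (hS a ha).2 (hS b hb).2
    (hS c hc).2 with h1 | h1
  · exact hac h1.symm
  · exact hbc h1.symm

theorem circ_unique {ρ : ℝ} {o o' y1 y2 y3 : ℂ} (h12 : y1 ≠ y2) (h23 : y2 ≠ y3) (h13 : y1 ≠ y3)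
    (h1 : dist y1 o = ρ) (h2 : dist y2 o = ρ) (h3 : dist y3 o = ρ)
    (h1' : dist y1 o' = ρ) (h2' : dist y2 o' = ρ) (h3' : dist y3 o' = ρ) : o = o' := by
  by_contra h
  rcases EuclideanGeometry.eq_of_dist_eq_of_dist_eq_of_finrank_eq_two
    Complex.finrank_real_complex h h12 h1 h2 h3 h1' h2' h3' with h4 | h4
  · exact h13 h4.symm
  · exact h23 h4.symm

end Pool.Agent.H83.CP
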