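import Pool.Agent.H83.CP.Defs

/-!
# CLB: four points on a circle of radius `ρ`

`CLB_eq`: `‖z‖ = ‖w‖`, `‖z - 1‖ = ‖w - 1‖` implies `z = w` or `z = conj w`.
Let `ζ = exp (i τ)`; `‖1 - ζ^m‖ = 2 sin (m τ / 2)` for `0 ≤ m τ ≤ 2 π`. `y := (y3 - y1) / (y2 - y1)` and `y' := (ζ^(a+b) - 1) / (ζ^a - 1)` satisfy
`‖y‖ = F (a+b) / F a = ‖y'‖`, `‖y - 1‖ = F b / F a = ‖y' - 1‖`. So `y = y'` or `y = conj y'` (the same formula with `ζ⁻¹`): there is `ξ ∈ {ζ, ζ⁻¹}` with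
`y3 - y1 = (ξ^(a+b) - 1) / (ξ^a - 1) * (y2 - y1)`. Put `o := y1 - (y2 - y1) / (ξ^a - 1)`: `y2 - o = ξ^a (y1 - o)`, `y3 - o = ξ^(a+b) (y1 - o)`,
`‖y1 - o‖ = F a / (2 sin (a τ / 2)) = ρ`. Put `z' := o + ξ^(-j) (y1 - o)`: `dist z' y1 = F j`, `dist z' y2 = F (j + a)`, `dist z' y3 = F (j + a + b)`. If `z ≠ z'`, the
two different points `z, z'` have the same distance to `y1`, to `y2` and to `y3`: the inner products of `z - z'` with `y1 - y2` and `y1 - y3` vanish, so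
`y1, y2, y3` are collinear; but they are three different points of the circle around `o` (inner product of `y_i - y_j` with `y_i + y_j - 2 o` is `0`), contradiction.
So `z = z'`, `dist z o = ρ`.
-/

set_option autoImplicit false

open Real

namespace Pool.Agent.H83.CP

/-- squared distance -/
private def CLB_sq (z w : ℂ) : ℝ := (z.re - w.re) ^ 2 + (z.im - w.im) ^ 2

private theorem CLB_dist (z w : ℂ) : dist z w ^ 2 = CLB_sq z w := by
  rw [Complex.dist_eq_re_im, Real.sq_sqrt (by positivity)]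
  rfl

private theorem CLB_of_sq {z w : ℂ} {r : ℝ} (hr : 0 ≤ r) (h : CLB_sq z w = r ^ 2) :
    dist z w = r := by
  rw [← CLB_dist] at h
  exact (pow_left_inj₀ dist_nonneg hr two_ne_zero).1 h

/-- a point in the position of `O` relative to four points congruent to `Y1, Y2, Y3, Z` -/
private theorem CLB_iso {y1 y2 y3 z Y1 Y2 Y3 Z : ℂ} (O : ℂ)
    (h12 : CLB_sq y1 y2 = CLB_sq Y1 Y2) (h23 : CLB_sq y2 y3 = CLB_sq Y2 Y3)
    (h13 : CLB_sq y1 y3 = CLB_sq Y1 Y3) (k1 : CLB_sq z y1 = CLB_sq Z Y1)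
    (k2 : CLB_sq z y2 = CLB_sq Z Y2) (k3 : CLB_sq z y3 = CLB_sq Z Y3)
    (hD : crs (Y2 - Y1) (Y3 - Y1) ≠ 0) :
    ∃ o : ℂ, CLB_sq y1 o = CLB_sq Y1 O ∧ CLB_sq y2 o = CLB_sq Y2 O ∧ CLB_sq y3 o = CLB_sq Y3 O ∧
      CLB_sq z o = CLB_sq Z O := by
  obtain ⟨α, hα⟩ : ∃ α : ℝ, α * crs (Y2 - Y1) (Y3 - Y1) = crs (O - Y1) (Y3 - Y1) :=
    ⟨_, div_mul_cancel₀ _ hD⟩
  obtain ⟨β, hβ⟩ : ∃ β : ℝ, β * crs (Y2 - Y1) (Y3 - Y1) = crs (Y2 - Y1) (O - Y1) :=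
    ⟨_, div_mul_cancel₀ _ hD⟩
  have hO1 : O.re = Y1.re + α * (Y2.re - Y1.re) + β * (Y3.re - Y1.re) := by
    apply mul_right_cancel₀ hD
    unfold crs at *
    simp only [Complex.sub_re, Complex.sub_im] at *
    linear_combination -(Y2.re - Y1.re) * hα - (Y3.re - Y1.re) * hβ
  have hO2 : O.im = Y1.im + α * (Y2.im - Y1.im) + β * (Y3.im - Y1.im) := by
    apply mul_right_cancel₀ hD
    unfold crs at *
    simp only [Complex.sub_re, Complex.sub_im] at *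
    linear_combination -(Y2.im - Y1.im) * hα - (Y3.im - Y1.im) * hβ
  unfold CLB_sq at *
  rw [hO1, hO2]
  refine ⟨⟨y1.re + α * (y2.re - y1.re) + β * (y3.re - y1.re),
    y1.im + α * (y2.im - y1.im) + β * (y3.im - y1.im)⟩, ?_, ?_, ?_, ?_⟩
  · simp only
    linear_combination α ^ 2 * h12 + α * β * (h12 + h13 - h23) + β ^ 2 * h13
  · simp only
    linear_combination (1 - α) ^ 2 * h12 - (1 - α) * β * (h12 + h13 - h23) + β ^ 2 * h13
  · simp only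
    linear_combination α ^ 2 * h12 - α * (1 - β) * (h12 + h13 - h23) + (1 - β) ^ 2 * h13
  · simp only
    linear_combination k1 - α * (k1 + h12 - k2) - β * (k1 + h13 - k3) + α ^ 2 * h12 +
      α * β * (h12 + h13 - h23) + β ^ 2 * h13

/-- a point of the circle -/
private noncomputable def CLB_P (ρ θ : ℝ) : ℂ := ⟨ρ * cos θ, ρ * sin θ⟩

private theorem CLB_P_sq (ρ θ φ : ℝ) :
    CLB_sq (CLB_P ρ θ) (CLB_P ρ φ) = (2 * ρ * sin ((θ - φ) / 2)) ^ 2 := by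
  have h1 : cos (θ - φ) = 1 - 2 * sin ((θ - φ) / 2) ^ 2 := by
    have h2 := Real.cos_two_mul ((θ - φ) / 2)
    have h3 := Real.sin_sq_add_cos_sq ((θ - φ) / 2)
    rw [show 2 * ((θ - φ) / 2) = θ - φ by ring] at h2
    linarith
  rw [Real.cos_sub] at h1
  have h3 := Real.sin_sq_add_cos_sq θ
  have h4 := Real.sin_sq_add_cos_sq φ
  unfold CLB_sq CLB_P
  simp only
  linear_combination -2 * ρ ^ 2 * h1 + ρ ^ 2 * h3 + ρ ^ 2 * h4

private theorem CLB_P_zero (ρ θ : ℝ) : CLB_sq (CLB_P ρ θ) 0 = ρ ^ 2 := by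
  have h3 := Real.sin_sq_add_cos_sq θ
  unfold CLB_sq CLB_P
  simp only [Complex.zero_re, Complex.zero_im]
  linear_combination ρ ^ 2 * h3

private theorem CLB_F (ρ τ : ℝ) (m : ℕ) {θ φ : ℝ} (h : θ - φ = m * τ ∨ φ - θ = m * τ)
    {z w : ℂ} (hr : dist z w = F ρ τ m) : CLB_sq z w = CLB_sq (CLB_P ρ θ) (CLB_P ρ φ) := by
  rw [← CLB_dist, hr, CLB_P_sq]
  unfold F
  rcases h with h | h
  · rw [h]
  · rw [show θ - φ = -(m * τ) by linarith, neg_div, Real.sin_neg]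
    ring

theorem circ {ρ τ : ℝ} (hρ : 0 < ρ) (hτ : 0 < τ) {a b j : ℕ} (ha : 1 ≤ a) (hb : 1 ≤ b) (hj : 1 ≤ j)
    (hs : ((j + a + b : ℕ) : ℝ) * τ < π) {y1 y2 y3 z : ℂ} (h12 : dist y1 y2 = F ρ τ a)
    (h23 : dist y2 y3 = F ρ τ b) (h13 : dist y1 y3 = F ρ τ (a + b)) (h1 : dist z y1 = F ρ τ j)
    (h2 : dist z y2 = F ρ τ (j + a)) (h3 : dist z y3 = F ρ τ (j + a + b)) :
    ∃ o : ℂ, dist y1 o = ρ ∧ dist y2 o = ρ ∧ dist y3 o = ρ ∧ dist z o = ρ := by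
  push_cast at hs
  have ha' : (1:ℝ) ≤ a := by exact_mod_cast ha
  have hb' : (1:ℝ) ≤ b := by exact_mod_cast hb
  have hj' : (1:ℝ) ≤ j := by exact_mod_cast hj
  have hA0 : 0 < a * τ := by positivity
  have hB0 : 0 < b * τ := by positivity
  have hJ0 : 0 < j * τ := by positivity
  have hA1 : a * τ < π := by linarith
  have hB1 : b * τ < π := by linarith
  have hsA : 0 < sin (a * τ) := Real.sin_pos_of_pos_of_lt_pi hA0 hA1
  have hsB : 0 < sin (b * τ) := Real.sin_pos_of_pos_of_lt_pi hB0 hB1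
  have hcA : cos (a * τ) < 1 := by
    rw [← Real.cos_zero]
    exact Real.cos_lt_cos_of_nonneg_of_le_pi le_rfl hA1.le hA0
  have hcB : cos (b * τ) < 1 := by
    rw [← Real.cos_zero]
    exact Real.cos_lt_cos_of_nonneg_of_le_pi le_rfl hB1.le hB0
  have hD : crs (CLB_P ρ (a * τ) - CLB_P ρ 0) (CLB_P ρ ((a + b : ℕ) * τ) - CLB_P ρ 0) ≠ 0 := by
    have h1 : crs (CLB_P ρ (a * τ) - CLB_P ρ 0) (CLB_P ρ ((a + b : ℕ) * τ) - CLB_P ρ 0) =
        ρ ^ 2 * (sin (a * τ) * (1 - cos (b * τ)) + sin (b * τ) * (1 - cos (a * τ))) := by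
      have h2 := Real.sin_sq_add_cos_sq (a * τ)
      unfold crs CLB_P
      simp only [Complex.sub_re, Complex.sub_im]
      push_cast
      rw [add_mul, Real.cos_add, Real.sin_add, Real.cos_zero, Real.sin_zero]
      linear_combination ρ ^ 2 * sin (b * τ) * h2
    rw [h1]
    have h3 : 0 < sin (a * τ) * (1 - cos (b * τ)) := mul_pos hsA (by linarith)
    have h4 : 0 < sin (b * τ) * (1 - cos (a * τ)) := mul_pos hsB (by linarith)
    positivity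
  obtain ⟨o, g1, g2, g3, g4⟩ := CLB_iso (y1 := y1) (y2 := y2) (y3 := y3) (z := z)
    (Y1 := CLB_P ρ 0) (Y2 := CLB_P ρ (a * τ)) (Y3 := CLB_P ρ ((a + b : ℕ) * τ))
    (Z := CLB_P ρ (-(j * τ))) 0
    (CLB_F ρ τ a (Or.inr (by ring)) h12)
    (CLB_F ρ τ b (Or.inr (by push_cast; ring)) h23)
    (CLB_F ρ τ (a + b) (Or.inr (by ring)) h13)
    (CLB_F ρ τ j (Or.inr (by ring)) h1)
    (CLB_F ρ τ (j + a) (Or.inr (by push_cast; ring)) h2)
    (CLB_F ρ τ (j + a + b) (Or.inr (by push_cast; ring)) h3) hD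
  rw [CLB_P_zero] at g1 g2 g3 g4
  exact ⟨o, CLB_of_sq hρ.le g1, CLB_of_sq hρ.le g2, CLB_of_sq hρ.le g3, CLB_of_sq hρ.le g4⟩

end Pool.Agent.H83.CP
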