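import Pool.Agent.H83.CP.Defs

/-!
# CN: cone lemma and orientation

**`cone`.** `f θ := pr θ (y - x)` is continuous, `f s < 0 < f t`, so `f β = 0` for some `β ∈ (s, t)`. Put `r := ax β (y - x)`; from
`re cos β + im sin β = 0` one gets `re = - r sin β`, `im = r cos β` (`sin² + cos² = 1`). `f t = r sin (t - β) > 0` and
`0 < t - β < π`, so `r > 0`.

**`orient`.** First the case `t < s + π`, `u < t + π`: `y - x = r i e(β)`, `z - y = r' i e(β')`, `s < β < t < β' < u`, and the cross
product of `y - x` and `z - x` is that of `y - x`, `z - y`, i.e. `r r' sin (β' - β)`. If `β' - β < π` it is positive. Otherwise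
`u - s > π`, so `s + 2 π < u + π` and by `cone` (for `z, x`, angles `u < s + 2 π`; `pr (s + 2 π) = pr s`) `x - z = r'' i e(β'')` with
`u < β'' < s + 2 π`. The three vectors add up to zero; the component `sin (· - β)` of the sum is
`r' sin (β' - β) + r'' sin (β'' - β)`, where `π ≤ β' - β < 2 π` and `π < β'' - β < 2 π`: negative, contradiction.
In general at most one of the gaps `t - s`, `u - t`, `s + 2 π - u` is `≥ π`; apply the first case to `(y, z, x)` with angles
`(t, u, s + 2 π)` if `t - s ≥ π`, to `(z, x, y)` with angles `(u - 2 π, s, t)` if `u - t ≥ π`; the cross product is invariant under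
cyclic permutation of the three points.
-/

set_option autoImplicit false

open Real

namespace Pool.Agent.H83.CP

theorem CN_pr_neg (θ : ℝ) (x y : ℂ) : pr θ (x - y) = -pr θ (y - x) := by
  unfold pr
  simp only [Complex.sub_re, Complex.sub_im]
  ring

theorem CN_pr_per (θ : ℝ) (z : ℂ) : pr (θ + 2 * π) z = pr θ z := by
  unfold pr
  rw [Real.cos_add_two_pi, Real.sin_add_two_pi]

theorem cone {x y : ℂ} {s t : ℝ} (hst : s < t) (ht : t < s + π) (h1 : 0 < pr s (x - y))
    (h2 : 0 < pr t (y - x)) :
    ∃ β r : ℝ, s < β ∧ β < t ∧ 0 < r ∧ y - x = ⟨-(r * sin β), r * cos β⟩ := by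
  have hcont : Continuous (fun θ : ℝ => pr θ (y - x)) := by
    unfold pr
    fun_prop
  have hs : pr s (y - x) < 0 := by
    rw [CN_pr_neg] at h1
    linarith
  obtain ⟨β, ⟨hβ1, hβ2⟩, hβ⟩ := intermediate_value_Ioo hst.le hcont.continuousOn ⟨hs, h2⟩
  have hβ0 : (y - x).re * cos β + (y - x).im * sin β = 0 := hβ
  have hsc := Real.sin_sq_add_cos_sq β
  set r : ℝ := (y - x).im * cos β - (y - x).re * sin β with hr
  have hre : (y - x).re = -(r * sin β) := by
    rw [hr]
    linear_combination (-(y - x).re) * hsc + cos β * hβ0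
  have him : (y - x).im = r * cos β := by
    rw [hr]
    linear_combination (-(y - x).im) * hsc + sin β * hβ0
  refine ⟨β, r, hβ1, hβ2, ?_, ?_⟩
  · have h3 : pr t (y - x) = r * sin (t - β) := by
      unfold pr
      rw [hre, him, Real.sin_sub]
      ring
    rw [h3] at h2
    have h4 : 0 < sin (t - β) := Real.sin_pos_of_pos_of_lt_pi (by linarith) (by linarith)
    exact (mul_pos_iff_of_pos_right h4).1 h2
  · exact Complex.ext hre him

theorem CN_or1 {x y z : ℂ} {s t u : ℝ} (hst : s < t) (htu : t < u) (hus : u < s + 2 * π)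
    (h1 : t < s + π) (h2 : u < t + π)
    (hxy : 0 < pr s (x - y)) (hxz : 0 < pr s (x - z)) (hyx : 0 < pr t (y - x))
    (hyz : 0 < pr t (y - z)) (hzx : 0 < pr u (z - x)) (hzy : 0 < pr u (z - y)) :
    0 < crs (y - x) (z - x) := by
  obtain ⟨β, r, hβ1, hβ2, hr, hv⟩ := cone hst h1 hxy hyx
  obtain ⟨β', r', hβ1', hβ2', hr', hv'⟩ := cone htu h2 hyz hzy
  have hcrs : crs (y - x) (z - x) = r * r' * sin (β' - β) := by
    have e1 : z - x = (z - y) + (y - x) := by ring
    rw [e1, hv, hv']
    unfold crs
    simp only [Complex.add_re, Complex.add_im]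
    rw [Real.sin_sub]
    ring
  rw [hcrs]
  by_cases hc : β' - β < π
  · have : 0 < sin (β' - β) := Real.sin_pos_of_pos_of_lt_pi (by linarith) hc
    positivity
  · exfalso
    rw [not_lt] at hc
    obtain ⟨β'', r'', hβ1'', hβ2'', hr'', hv''⟩ := cone (x := z) (y := x) hus (by linarith) hzx
      (by rw [CN_pr_per]; exact hxz)
    have hre : r * sin β + r' * sin β' + r'' * sin β'' = 0 := by
      have a1 := congrArg Complex.re hv
      have a2 := congrArg Complex.re hv'
      have a3 := congrArg Complex.re hv''
      simp only [Complex.sub_re] at a1 a2 a3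
      linarith
    have him : r * cos β + r' * cos β' + r'' * cos β'' = 0 := by
      have a1 := congrArg Complex.im hv
      have a2 := congrArg Complex.im hv'
      have a3 := congrArg Complex.im hv''
      simp only [Complex.sub_im] at a1 a2 a3
      linarith
    have hz : r' * sin (β' - β) + r'' * sin (β'' - β) = 0 := by
      rw [Real.sin_sub, Real.sin_sub]
      linear_combination cos β * hre - sin β * him
    have s1 : sin (β' - β) ≤ 0 := by
      have : 0 ≤ sin (β' - β - π) :=
        Real.sin_nonneg_of_nonneg_of_le_pi (by linarith) (by linarith)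
      rw [Real.sin_sub_pi] at this
      linarith
    have s2 : sin (β'' - β) < 0 := by
      have : 0 < sin (β'' - β - π) :=
        Real.sin_pos_of_pos_of_lt_pi (by linarith) (by linarith)
      rw [Real.sin_sub_pi] at this
      linarith
    have p1 : r' * sin (β' - β) ≤ 0 := mul_nonpos_of_nonneg_of_nonpos hr'.le s1
    have p2 : r'' * sin (β'' - β) < 0 := mul_neg_of_pos_of_neg hr'' s2
    linarith

theorem orient {x y z : ℂ} {s t u : ℝ} (hst : s < t) (htu : t < u) (hus : u < s + 2 * π)
    (hxy : 0 < pr s (x - y)) (hxz : 0 < pr s (x - z)) (hyx : 0 < pr t (y - x))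
    (hyz : 0 < pr t (y - z)) (hzx : 0 < pr u (z - x)) (hzy : 0 < pr u (z - y)) :
    0 < crs (y - x) (z - x) := by
  by_cases h1 : t < s + π
  · by_cases h2 : u < t + π
    · exact CN_or1 hst htu hus h1 h2 hxy hxz hyx hyz hzx hzy
    · rw [not_lt] at h2
      have h3 := CN_or1 (x := z) (y := x) (z := y) (s := u) (t := s + 2 * π) (u := t + 2 * π)
        hus (by linarith) (by linarith) (by linarith) (by linarith) hzx hzy
        (by rw [CN_pr_per]; exact hxz) (by rw [CN_pr_per]; exact hxy)
        (by rw [CN_pr_per]; exact hyz) (by rw [CN_pr_per]; exact hyx)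
      have h4 : crs (y - x) (z - x) = crs (x - z) (y - z) := by
        unfold crs
        simp only [Complex.sub_re, Complex.sub_im]
        ring
      rw [h4]
      exact h3
  · rw [not_lt] at h1
    have h3 := CN_or1 (x := y) (y := z) (z := x) (s := t) (t := u) (u := s + 2 * π)
      htu hus (by linarith) (by linarith) (by linarith) hyz hyx hzy hzx
      (by rw [CN_pr_per]; exact hxy) (by rw [CN_pr_per]; exact hxz)
    have h4 : crs (y - x) (z - x) = crs (z - y) (x - y) := by
      unfold crs
      simp only [Complex.sub_re, Complex.sub_im]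
      ring
    rw [h4]
    exact h3

end Pool.Agent.H83.CP
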