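import Pool.Agent.H83.CP.DB

/-!
# CO: corner pairs are bounded in number

Let `b ≡ a + 1` or `a + 2` mod 8, put `u := α y` or `α y + 2 π` for `y ∈ ch b` so that `α x < u < α x + 3 π / 4` for all `x ∈ ch a` (`a < b` or
`b < a`; `pr` and `sin, cos` have period `2 π`).
Key: `x', x ∈ ch a`, `α x' < α x`, `y' ∈ ch b`, `dist x' y' ≤ r` ⟹ `dist x x' ≤ 2 r`. Proof: `cone` for `x, y'` (angles `α x < u < α x + π`):
`y' - x = r₂ i e(β₂)`, `α x < β₂ < u`, and `ch_dir` for `x', x`: `x - x' = r₁ i e(β₁)`, `α x' < β₁ < α x`. `0 < β₂ - β₁ < 3 π / 4`, so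
`cos (β₂ - β₁) ≥ - √2 / 2` and `|y' - x'|² = r₁² + r₂² + 2 r₁ r₂ cos (β₂ - β₁) ≥ r₁² + r₂² - √2 r₁ r₂ ≥ r₁² / 2`. Hence `r₁² ≤ 2 r²`.
Count: all first components of the pairs in the set are within `2 r` of each other: at most `B k 2` of them (`disc_V`, `L = 2`); for every first
component at most `B k 1` second components (`Finset.card_le_mul_card_image` with `Prod.fst`).
-/

set_option autoImplicit false

open Real

namespace Pool.Agent.H83.CP

theorem CO_pr (θ : ℝ) (z : ℂ) : pr (θ + 2 * π) z = pr θ z := by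
  unfold pr
  rw [Real.cos_add_two_pi, Real.sin_add_two_pi]

/-- the angles of the two chains -/
theorem CO_ang {V : Finset ℂ} {α : ℂ → ℝ} (h : Nrm V α) {a b : ℕ} (ha : a < 8) (hb : b < 8)
    (hab : (b + 8 - a) % 8 = 1 ∨ (b + 8 - a) % 8 = 2) :
    ∃ c : ℝ, (∀ (y z : ℂ), pr (α y + c) z = pr (α y) z) ∧
      ∀ x ∈ ch V α a, ∀ y ∈ ch V α b, α x < α y + c ∧ α y + c < α x + 3 * (π / 4) := by
  have hpi := Real.pi_pos
  rcases lt_or_ge a b with hlt | hge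
  · refine ⟨0, fun y z => by rw [add_zero], fun x hx y hy => ?_⟩
    obtain ⟨-, h1, h2⟩ := (mem_ch h).1 hx
    obtain ⟨-, h3, h4⟩ := (mem_ch h).1 hy
    have h5 : ((a : ℝ) + 1) ≤ b := by exact_mod_cast hlt
    have h6 : (b : ℝ) ≤ a + 2 := by
      have : b ≤ a + 2 := by omega
      exact_mod_cast this
    constructor
    · nlinarith
    · nlinarith
  · refine ⟨2 * π, fun y z => CO_pr _ z, fun x hx y hy => ?_⟩
    obtain ⟨-, h1, h2⟩ := (mem_ch h).1 hx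
    obtain ⟨-, h3, h4⟩ := (mem_ch h).1 hy
    have h5 : ((a : ℝ) + 1) ≤ b + 8 := by
      have : a + 1 ≤ b + 8 := by omega
      exact_mod_cast this
    have h6 : (b : ℝ) + 8 ≤ a + 2 := by
      have : b + 8 ≤ a + 2 := by omega
      exact_mod_cast this
    constructor
    · nlinarith
    · nlinarith

theorem CO_ne {V : Finset ℂ} {α : ℂ → ℝ} {a b : ℕ} (hab : a ≠ b) {x y : ℂ} (hx : x ∈ ch V α a)
    (hy : y ∈ ch V α b) : x ≠ y := by
  rintro rfl
  unfold ch at hx hy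
  exact hab ((Finset.mem_filter.1 hx).2.symm.trans (Finset.mem_filter.1 hy).2)

theorem CO_norm (r₁ r₂ β₁ β₂ : ℝ) {z w : ℂ} (hz : z = ⟨-(r₁ * sin β₁), r₁ * cos β₁⟩)
    (hw : w = ⟨-(r₂ * sin β₂), r₂ * cos β₂⟩) :
    ‖z + w‖ ^ 2 = r₁ ^ 2 + r₂ ^ 2 + 2 * r₁ * r₂ * cos (β₂ - β₁) := by
  rw [← Complex.normSq_eq_norm_sq, Complex.normSq_apply, Complex.add_re, Complex.add_im, hz, hw,
    Real.cos_sub]
  have e1 := Real.sin_sq_add_cos_sq β₁
  have e2 := Real.sin_sq_add_cos_sq β₂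
  simp only
  linear_combination r₁ ^ 2 * e1 + r₂ ^ 2 * e2

theorem CO_key {V : Finset ℂ} {α : ℂ → ℝ} (h : Nrm V α) {r : ℝ} (hr : 0 < r) {a b : ℕ}
    (hab : a ≠ b) {c : ℝ} (hc : ∀ (y z : ℂ), pr (α y + c) z = pr (α y) z)
    (hang : ∀ x ∈ ch V α a, ∀ y ∈ ch V α b, α x < α y + c ∧ α y + c < α x + 3 * (π / 4))
    {x x' y' : ℂ} (hx : x ∈ ch V α a) (hx' : x' ∈ ch V α a) (hy : y' ∈ ch V α b)
    (hlt : α x' < α x) (hd : dist x' y' ≤ r) : dist x' x ≤ 2 * r := by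
  have hpi := Real.pi_pos
  have hne := CO_ne hab hx hy
  obtain ⟨a1, a2⟩ := hang x hx y' hy
  obtain ⟨-, a4⟩ := hang x' hx' y' hy
  obtain ⟨β₂, r₂, b1, b2, b3, b4⟩ := cone (x := x) (y := y') a1 (by linarith)
    (h.ext x (DB_mem hx) y' (DB_mem hy) hne.symm)
    (by rw [hc]; exact h.ext y' (DB_mem hy) x (DB_mem hx) hne)
  obtain ⟨β₁, r₁, c1, c2, c3, c4, c5⟩ := ch_dir h (DB_mem hx') (DB_mem hx) hlt (by
    obtain ⟨-, d1, d2⟩ := (mem_ch h).1 hx
    obtain ⟨-, d3, d4⟩ := (mem_ch h).1 hx'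
    linarith)
  have e1 : ‖y' - x'‖ ^ 2 = r₁ ^ 2 + r₂ ^ 2 + 2 * r₁ * r₂ * cos (β₂ - β₁) := by
    rw [← CO_norm r₁ r₂ β₁ β₂ c4 b4]
    congr 2
    ring
  have e2 : -(√2 / 2) ≤ cos (β₂ - β₁) := by
    have f1 : cos (3 * (π / 4)) ≤ cos (β₂ - β₁) :=
      Real.cos_le_cos_of_nonneg_of_le_pi (by linarith) (by linarith) (by linarith)
    have f2 : cos (3 * (π / 4)) = -(√2 / 2) := by
      rw [show 3 * (π / 4) = π - π / 4 by ring, Real.cos_pi_sub, Real.cos_pi_div_four]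
    rwa [f2] at f1
  have e3 : ‖y' - x'‖ ≤ r := by
    rw [← dist_eq_norm, dist_comm]
    exact hd
  have e4 : ‖y' - x'‖ ^ 2 ≤ r ^ 2 := pow_le_pow_left₀ (norm_nonneg _) e3 2
  have e5 : 2 * r₁ * r₂ * -(√2 / 2) ≤ 2 * r₁ * r₂ * cos (β₂ - β₁) :=
    mul_le_mul_of_nonneg_left e2 (by positivity)
  have e6 : √2 ^ 2 = 2 := Real.sq_sqrt (by norm_num)
  have e7 : r₁ ^ 2 / 2 ≤ r ^ 2 := by
    have g1 := sq_nonneg (r₂ - r₁ * (√2 / 2))
    have g2 : (r₂ - r₁ * (√2 / 2)) ^ 2 = r₂ ^ 2 + 2 * r₁ * r₂ * -(√2 / 2) + r₁ ^ 2 / 2 := by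
      linear_combination r₁ ^ 2 / 4 * e6
    linarith
  rw [c5]
  nlinarith

theorem corner {A V : Finset ℂ} {α : ℂ → ℝ} (h : Nrm V α) (hVA : V ⊆ A) {r : ℝ} (hr : 0 < r)
    {a b : ℕ} (ha : a < 8) (hb : b < 8) (hab : (b + 8 - a) % 8 = 1 ∨ (b + 8 - a) % 8 = 2) :
    (((ch V α a) ×ˢ (ch V α b)).filter (fun p => dist p.1 p.2 ≤ r)).card ≤
      B (dle A r).card 2 * B (dle A r).card 1 := by
  obtain ⟨c, hc, hang⟩ := CO_ang h ha hb hab
  have hne : a ≠ b := by omega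
  set S := ((ch V α a) ×ˢ (ch V α b)).filter (fun p => dist p.1 p.2 ≤ r) with hS
  have hmem : ∀ p ∈ S, p.1 ∈ ch V α a ∧ p.2 ∈ ch V α b ∧ dist p.1 p.2 ≤ r := by
    intro p hp
    rw [hS, Finset.mem_filter, Finset.mem_product] at hp
    exact ⟨hp.1.1, hp.1.2, hp.2⟩
  have hclose : ∀ p ∈ S, ∀ q ∈ S, dist p.1 q.1 ≤ 2 * r := by
    intro p hp q hq
    obtain ⟨p1, p2, p3⟩ := hmem p hp
    obtain ⟨q1, q2, q3⟩ := hmem q hq
    rcases lt_trichotomy (α p.1) (α q.1) with h1 | h1 | h1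
    · exact CO_key h hr hne hc hang q1 p1 p2 h1 p3
    · rw [ch_inj h (DB_mem p1) (DB_mem q1) h1, dist_self]
      positivity
    · rw [dist_comm]
      exact CO_key h hr hne hc hang p1 q1 q2 h1 q3
  have himg : (S.image Prod.fst).card ≤ B (dle A r).card 2 := by
    rcases S.eq_empty_or_nonempty with h0 | ⟨p0, hp0⟩
    · rw [h0, Finset.image_empty, Finset.card_empty]
      exact Nat.zero_le _
    · refine le_trans (Finset.card_le_card ?_) (disc_V h hVA hr 2 p0.1)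
      intro x hx
      rw [Finset.mem_image] at hx
      obtain ⟨p, hp, rfl⟩ := hx
      rw [Finset.mem_filter]
      refine ⟨DB_mem (hmem p hp).1, ?_⟩
      have := hclose p hp p0 hp0
      push_cast
      exact this
  have hfib : ∀ x ∈ S.image Prod.fst, (S.filter (fun p => p.1 = x)).card ≤
      B (dle A r).card 1 := by
    intro x _
    refine le_trans ?_ (disc_V h hVA hr 1 x)
    refine Finset.card_le_card_of_injOn Prod.snd ?_ ?_
    · intro p hp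
      have hp' := Finset.mem_filter.1 (Finset.mem_coe.1 hp)
      obtain ⟨-, p2, p3⟩ := hmem p hp'.1
      refine Finset.mem_coe.2 (Finset.mem_filter.2 ⟨DB_mem p2, ?_⟩)
      rw [← hp'.2, dist_comm]
      push_cast
      rw [one_mul]
      exact p3
    · intro p hp q hq he
      have hp' := Finset.mem_filter.1 (Finset.mem_coe.1 hp)
      have hq' := Finset.mem_filter.1 (Finset.mem_coe.1 hq)
      exact Prod.ext (hp'.2.trans hq'.2.symm) he
  calc S.card ≤ B (dle A r).card 1 * (S.image Prod.fst).card :=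
        Finset.card_le_mul_card_image S _ hfib
    _ ≤ B (dle A r).card 1 * B (dle A r).card 2 := Nat.mul_le_mul_left _ himg
    _ = B (dle A r).card 2 * B (dle A r).card 1 := mul_comm _ _

end Pool.Agent.H83.CP
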