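import Pool.Agent.H83.CP.DEQ

/-!
# DEN: dense cross pairs are bounded in number

A pair `(x, y)` in the set has `x' ∈ ch a`, `x' ≠ x`, `dist x x' ≤ M r` and `y' ∈ ch b`, `y' ≠ y`, `dist y y' ≤ M r` (`iso` fails; `sec α x = a`). Order `{x, x'}` and `{y, y'}` by `α`
(`ch_inj`): a block of `Qset V α a b ((2 M + 1) r)`. `(x, y)` is one of the four pairs (`x1` or `x2`, `y1` or `y2`) of the block, so the set is contained in the
union of four images of `Qset`; `Q_card` with `L = 2 M + 1`.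
-/

set_option autoImplicit false

open Real

noncomputable section

namespace Pool.Agent.H83.CP

theorem DEN_mem {V : Finset ℂ} {α : ℂ → ℝ} {r : ℝ} (hr : 0 < r) {a b M : ℕ} {x1 x2 y1 y2 p q : ℂ}
    (hx1 : x1 ∈ ch V α a) (hx2 : x2 ∈ ch V α a) (hy1 : y1 ∈ ch V α b) (hy2 : y2 ∈ ch V α b)
    (hx : α x1 < α x2) (hy : α y1 < α y2) (dx : dist x1 x2 ≤ (M : ℝ) * r)
    (dy : dist y1 y2 ≤ (M : ℝ) * r) (hp : p = x1 ∨ p = x2) (hq : q = y1 ∨ q = y2)
    (hpq : dist p q ≤ r) :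
    ((x1, x2), (y1, y2)) ∈ Qset V α a b (((2 * M + 1 : ℕ) : ℝ) * r) := by
  have hMr : 0 ≤ (M : ℝ) * r := by positivity
  have h1 : dist x1 p ≤ (M : ℝ) * r := by
    rcases hp with rfl | rfl
    · rw [dist_self]; exact hMr
    · exact dx
  have h2 : dist x2 p ≤ (M : ℝ) * r := by
    rcases hp with rfl | rfl
    · rw [dist_comm]; exact dx
    · rw [dist_self]; exact hMr
  have h3 : dist q y1 ≤ (M : ℝ) * r := by
    rcases hq with rfl | rfl
    · rw [dist_self]; exact hMr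
    · rw [dist_comm]; exact dy
  have h4 : dist q y2 ≤ (M : ℝ) * r := by
    rcases hq with rfl | rfl
    · exact dy
    · rw [dist_self]; exact hMr
  have hR : ((2 * M + 1 : ℕ) : ℝ) * r = (M : ℝ) * r + r + (M : ℝ) * r := by
    push_cast
    ring
  have key : ∀ u v : ℂ, dist u p ≤ (M : ℝ) * r → dist q v ≤ (M : ℝ) * r →
      dist u v ≤ ((2 * M + 1 : ℕ) : ℝ) * r := by
    intro u v hu hv
    have e1 := dist_triangle u p v
    have e2 := dist_triangle p q v
    rw [hR]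
    linarith
  unfold Qset
  rw [Finset.mem_filter, Finset.mem_product, Finset.mem_product, Finset.mem_product]
  refine ⟨⟨⟨hx1, hx2⟩, hy1, hy2⟩, hx, hy, ?_, key _ _ h1 h3, key _ _ h2 h3, key _ _ h1 h4,
    key _ _ h2 h4⟩
  rw [hR]
  linarith

open Classical in
theorem dense {A V : Finset ℂ} {α : ℂ → ℝ} {C t : ℕ} (h : Cfg A V α C t) {r : ℝ} (hr : 0 < r)
    {a b : ℕ} (ha : a < 8) (hb : b < 8) (hab : (b + 8 - a) % 8 = 3 ∨ (b + 8 - a) % 8 = 4) (M : ℕ) :
    (((ch V α a) ×ˢ (ch V α b)).filter (fun p => dist p.1 p.2 ≤ r ∧ ¬ iso V α M r p.1 ∧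
      ¬ iso V α M r p.2)).card ≤
      4 * ((C + B (dle A r).card (2 * M + 1) + t) ^ 5 *
        (B (dle A r).card (6 * (2 * M + 1))) ^ 4) := by
  have hQ := Q_card h hr ha hb hab (L := 2 * M + 1) (by omega)
  set Q := Qset V α a b (((2 * M + 1 : ℕ) : ℝ) * r) with hQdef
  have hnb : ∀ (s : ℕ) (x : ℂ), x ∈ ch V α s → ¬ iso V α M r x →
      ∃ x' ∈ ch V α s, α x ≠ α x' ∧ dist x x' ≤ (M : ℝ) * r := by
    intro s x hx hiso
    unfold iso at hiso
    push Not at hiso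
    obtain ⟨x', h1, h2, h3, h4⟩ := hiso
    have hx' := Finset.mem_filter.mp hx
    refine ⟨x', Finset.mem_filter.mpr ⟨h1, by rw [h2]; exact hx'.2⟩, ?_, h4⟩
    intro he
    exact h3 (ch_inj h.nrm hx'.1 h1 he).symm
  have hcov : ((ch V α a) ×ˢ (ch V α b)).filter (fun p => dist p.1 p.2 ≤ r ∧
      ¬ iso V α M r p.1 ∧ ¬ iso V α M r p.2) ⊆
      (Q.image (fun q => (q.1.1, q.2.1)) ∪ Q.image (fun q => (q.1.1, q.2.2))) ∪
      (Q.image (fun q => (q.1.2, q.2.1)) ∪ Q.image (fun q => (q.1.2, q.2.2))) := by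
    intro p hp
    rw [Finset.mem_filter, Finset.mem_product] at hp
    obtain ⟨⟨hpa, hpb⟩, hd, h1, h2⟩ := hp
    obtain ⟨x', hx'1, hx'2, hx'3⟩ := hnb a p.1 hpa h1
    obtain ⟨y', hy'1, hy'2, hy'3⟩ := hnb b p.2 hpb h2
    rw [Finset.mem_union, Finset.mem_union, Finset.mem_union, Finset.mem_image, Finset.mem_image,
      Finset.mem_image, Finset.mem_image]
    rcases lt_or_gt_of_ne hx'2 with hx | hx <;> rcases lt_or_gt_of_ne hy'2 with hy | hy
    · left; left
      exact ⟨((p.1, x'), (p.2, y')), DEN_mem hr hpa hx'1 hpb hy'1 hx hy hx'3 hy'3 (Or.inl rfl)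
        (Or.inl rfl) hd, rfl⟩
    · left; right
      exact ⟨((p.1, x'), (y', p.2)), DEN_mem hr hpa hx'1 hy'1 hpb hx hy hx'3
        (by rw [dist_comm]; exact hy'3) (Or.inl rfl) (Or.inr rfl) hd, rfl⟩
    · right; left
      exact ⟨((x', p.1), (p.2, y')), DEN_mem hr hx'1 hpa hpb hy'1 hx hy
        (by rw [dist_comm]; exact hx'3) hy'3 (Or.inr rfl) (Or.inl rfl) hd, rfl⟩
    · right; right
      exact ⟨((x', p.1), (y', p.2)), DEN_mem hr hx'1 hpa hy'1 hpb hx hy
        (by rw [dist_comm]; exact hx'3) (by rw [dist_comm]; exact hy'3) (Or.inr rfl) (Or.inr rfl)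
        hd, rfl⟩
  refine (Finset.card_le_card hcov).trans ?_
  refine (Finset.card_union_le _ _).trans ?_
  have u1 := Finset.card_union_le (Q.image (fun q => (q.1.1, q.2.1)))
    (Q.image (fun q => (q.1.1, q.2.2)))
  have u2 := Finset.card_union_le (Q.image (fun q => (q.1.2, q.2.1)))
    (Q.image (fun q => (q.1.2, q.2.2)))
  have i1 := Finset.card_image_le (s := Q) (f := fun q => (q.1.1, q.2.1))
  have i2 := Finset.card_image_le (s := Q) (f := fun q => (q.1.1, q.2.2))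
  have i3 := Finset.card_image_le (s := Q) (f := fun q => (q.1.2, q.2.1))
  have i4 := Finset.card_image_le (s := Q) (f := fun q => (q.1.2, q.2.2))
  omega

end Pool.Agent.H83.CP
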