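import Pool.Agent.H83.CP.MU
import Pool.Agent.H83.CP.CO
import Pool.Agent.H83.CP.DEN

/-!
# CRA: cross pairs for one pair of sectors

Let `a ≠ b`. If `(b + 8 - a) % 8 ∈ {1, 2}`: `corner`; if it is in `{6, 7}` then `(a + 8 - b) % 8 ∈ {1, 2}`: `corner` for `(b, a)` after swapping the pairs (`Finset.card_bij`/`Prod.swap`).
If it is in `{3, 4}`: a pair is in the set of `dense` or one of its ends is isolated; the pairs `(x, y)` with `x` isolated are at most `∑_{z ∈ ch a iso} #{y ∈ ch b : dist y z ≤ r}` in number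
(`Finset.card_sigma`, or the union over `z`), same for `y`. If it is `5`: `(a + 8 - b) % 8 = 3`, `dense` for `(b, a)`.
-/

set_option autoImplicit false

open Real

noncomputable section

namespace Pool.Agent.H83.CP

/-- the constant for one pair of sectors -/
def c0 (C t k M : ℕ) : ℕ :=
  B k 2 * B k 1 + 4 * ((C + B k (2 * M + 1) + t) ^ 5 * (B k (6 * (2 * M + 1))) ^ 4)

theorem CRA_swap (V : Finset ℂ) (α : ℂ → ℝ) (r : ℝ) (a b : ℕ) :
    (((ch V α a) ×ˢ (ch V α b)).filter (fun p => dist p.1 p.2 ≤ r)).card =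
      (((ch V α b) ×ˢ (ch V α a)).filter (fun p => dist p.1 p.2 ≤ r)).card := by
  refine Finset.card_bij (fun p _ => p.swap) ?_ ?_ ?_
  · intro p hp
    rw [Finset.mem_filter, Finset.mem_product] at hp ⊢
    refine ⟨⟨hp.1.2, hp.1.1⟩, ?_⟩
    rw [Prod.fst_swap, Prod.snd_swap, dist_comm]
    exact hp.2
  · intro p _ q _ hpq
    exact Prod.swap_injective hpq
  · intro p hp
    refine ⟨p.swap, ?_, Prod.swap_swap p⟩
    rw [Finset.mem_filter, Finset.mem_product] at hp ⊢
    refine ⟨⟨hp.1.2, hp.1.1⟩, ?_⟩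
    rw [Prod.fst_swap, Prod.snd_swap, dist_comm]
    exact hp.2

open Classical in
theorem CRA_one (V : Finset ℂ) (α : ℂ → ℝ) (r : ℝ) (a b : ℕ) (P : ℂ → Prop) :
    ((((ch V α a) ×ˢ (ch V α b)).filter (fun p => dist p.1 p.2 ≤ r)).filter
      (fun p => P p.1)).card ≤
      ∑ z ∈ (ch V α a).filter (fun z => P z), ((ch V α b).filter (fun x => dist x z ≤ r)).card := by
  rw [Finset.card_eq_sum_card_fiberwise (f := Prod.fst) (t := (ch V α a).filter (fun z => P z))]
  · refine Finset.sum_le_sum fun z hz => ?_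
    refine Finset.card_le_card_of_injOn Prod.snd ?_ ?_
    · intro p hp
      have hp1 := Finset.mem_coe.1 hp
      rw [Finset.mem_filter, Finset.mem_filter, Finset.mem_filter, Finset.mem_product] at hp1
      rw [Finset.mem_coe, Finset.mem_filter]
      refine ⟨hp1.1.1.1.2, ?_⟩
      rw [dist_comm, ← hp1.2]
      exact hp1.1.1.2
    · intro p hp q hq hpq
      have hp1 := Finset.mem_coe.1 hp
      have hq1 := Finset.mem_coe.1 hq
      rw [Finset.mem_filter] at hp1 hq1
      exact Prod.ext (hp1.2.trans hq1.2.symm) hpq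
  · intro p hp
    have hp1 := Finset.mem_coe.1 hp
    rw [Finset.mem_filter, Finset.mem_filter, Finset.mem_product] at hp1
    rw [Finset.mem_coe, Finset.mem_filter]
    exact ⟨hp1.1.1.1, hp1.2⟩

open Classical in
theorem CRA_two (V : Finset ℂ) (α : ℂ → ℝ) (r : ℝ) (a b : ℕ) (P : ℂ → Prop) :
    ((((ch V α a) ×ˢ (ch V α b)).filter (fun p => dist p.1 p.2 ≤ r)).filter
      (fun p => P p.2)).card ≤
      ∑ z ∈ (ch V α b).filter (fun z => P z), ((ch V α a).filter (fun x => dist x z ≤ r)).card := by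
  rw [Finset.card_eq_sum_card_fiberwise (f := Prod.snd) (t := (ch V α b).filter (fun z => P z))]
  · refine Finset.sum_le_sum fun z hz => ?_
    refine Finset.card_le_card_of_injOn Prod.fst ?_ ?_
    · intro p hp
      have hp1 := Finset.mem_coe.1 hp
      rw [Finset.mem_filter, Finset.mem_filter, Finset.mem_filter, Finset.mem_product] at hp1
      rw [Finset.mem_coe, Finset.mem_filter]
      refine ⟨hp1.1.1.1.1, ?_⟩
      rw [← hp1.2]
      exact hp1.1.1.2
    · intro p hp q hq hpq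
      have hp1 := Finset.mem_coe.1 hp
      have hq1 := Finset.mem_coe.1 hq
      rw [Finset.mem_filter] at hp1 hq1
      exact Prod.ext hpq (hp1.2.trans hq1.2.symm)
  · intro p hp
    have hp1 := Finset.mem_coe.1 hp
    rw [Finset.mem_filter, Finset.mem_filter, Finset.mem_product] at hp1
    rw [Finset.mem_coe, Finset.mem_filter]
    exact ⟨hp1.1.1.2, hp1.2⟩

open Classical in
theorem CRA_dense {A V : Finset ℂ} {α : ℂ → ℝ} {C t : ℕ} (h : Cfg A V α C t) {r : ℝ} (hr : 0 < r)
    {a b : ℕ} (ha : a < 8) (hb : b < 8) (hab : (b + 8 - a) % 8 = 3 ∨ (b + 8 - a) % 8 = 4) (M : ℕ) :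
    (((ch V α a) ×ˢ (ch V α b)).filter (fun p => dist p.1 p.2 ≤ r)).card ≤
      4 * ((C + B (dle A r).card (2 * M + 1) + t) ^ 5 *
        (B (dle A r).card (6 * (2 * M + 1))) ^ 4) +
      ∑ z ∈ (ch V α a).filter (fun z => iso V α M r z),
        ((ch V α b).filter (fun x => dist x z ≤ r)).card +
      ∑ z ∈ (ch V α b).filter (fun z => iso V α M r z),
        ((ch V α a).filter (fun x => dist x z ≤ r)).card := by
  have h1 := dense h hr ha hb hab M
  have h2 := CRA_one V α r a b (fun z => iso V α M r z)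
  have h3 := CRA_two V α r a b (fun z => iso V α M r z)
  have h4 : ((ch V α a) ×ˢ (ch V α b)).filter (fun p => dist p.1 p.2 ≤ r) ⊆
      (((ch V α a) ×ˢ (ch V α b)).filter (fun p => dist p.1 p.2 ≤ r ∧ ¬ iso V α M r p.1 ∧
        ¬ iso V α M r p.2)) ∪
      ((((ch V α a) ×ˢ (ch V α b)).filter (fun p => dist p.1 p.2 ≤ r)).filter
        (fun p => iso V α M r p.1)) ∪
      ((((ch V α a) ×ˢ (ch V α b)).filter (fun p => dist p.1 p.2 ≤ r)).filter
        (fun p => iso V α M r p.2)) := by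
    intro p hp
    rw [Finset.mem_union, Finset.mem_union]
    have hp1 := Finset.mem_filter.1 hp
    by_cases i1 : iso V α M r p.1
    · exact Or.inl (Or.inr (Finset.mem_filter.2 ⟨hp, i1⟩))
    · by_cases i2 : iso V α M r p.2
      · exact Or.inr (Finset.mem_filter.2 ⟨hp, i2⟩)
      · exact Or.inl (Or.inl (Finset.mem_filter.2 ⟨hp1.1, hp1.2, i1, i2⟩))
  have h5 := Finset.card_le_card h4
  have h6 := Finset.card_union_le
    ((((ch V α a) ×ˢ (ch V α b)).filter (fun p => dist p.1 p.2 ≤ r ∧ ¬ iso V α M r p.1 ∧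
        ¬ iso V α M r p.2)) ∪
      ((((ch V α a) ×ˢ (ch V α b)).filter (fun p => dist p.1 p.2 ≤ r)).filter
        (fun p => iso V α M r p.1)))
      ((((ch V α a) ×ˢ (ch V α b)).filter (fun p => dist p.1 p.2 ≤ r)).filter
        (fun p => iso V α M r p.2))
  have h7 := Finset.card_union_le
    (((ch V α a) ×ˢ (ch V α b)).filter (fun p => dist p.1 p.2 ≤ r ∧ ¬ iso V α M r p.1 ∧
        ¬ iso V α M r p.2))
      ((((ch V α a) ×ˢ (ch V α b)).filter (fun p => dist p.1 p.2 ≤ r)).filter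
        (fun p => iso V α M r p.1))
  refine (h5.trans h6).trans ?_
  exact Nat.add_le_add (h7.trans (Nat.add_le_add h1 h2)) h3

open Classical in
theorem cross_ab {A V : Finset ℂ} {α : ℂ → ℝ} {C t : ℕ} (h : Cfg A V α C t) {r : ℝ} (hr : 0 < r)
    {a b : ℕ} (ha : a < 8) (hb : b < 8) (hab : a ≠ b) (M : ℕ) :
    (((ch V α a) ×ˢ (ch V α b)).filter (fun p => dist p.1 p.2 ≤ r)).card ≤
      c0 C t (dle A r).card M +
      ∑ z ∈ (ch V α a).filter (fun z => iso V α M r z),
        ((ch V α b).filter (fun x => dist x z ≤ r)).card +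
      ∑ z ∈ (ch V α b).filter (fun z => iso V α M r z),
        ((ch V α a).filter (fun x => dist x z ≤ r)).card := by
  have hc1 : B (dle A r).card 2 * B (dle A r).card 1 ≤ c0 C t (dle A r).card M := by
    unfold c0; exact Nat.le_add_right _ _
  have hc2 : 4 * ((C + B (dle A r).card (2 * M + 1) + t) ^ 5 *
      (B (dle A r).card (6 * (2 * M + 1))) ^ 4) ≤ c0 C t (dle A r).card M := by
    unfold c0; exact Nat.le_add_left _ _
  rw [add_assoc]
  have hcase : ((b + 8 - a) % 8 = 1 ∨ (b + 8 - a) % 8 = 2) ∨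
      ((a + 8 - b) % 8 = 1 ∨ (a + 8 - b) % 8 = 2) ∨
      ((b + 8 - a) % 8 = 3 ∨ (b + 8 - a) % 8 = 4) ∨
      ((a + 8 - b) % 8 = 3 ∨ (a + 8 - b) % 8 = 4) := by omega
  rcases hcase with hc | hc | hc | hc
  · exact ((corner h.nrm h.sub hr ha hb hc).trans hc1).trans (Nat.le_add_right _ _)
  · rw [CRA_swap]
    exact ((corner h.nrm h.sub hr hb ha hc).trans hc1).trans (Nat.le_add_right _ _)
  · have h1 := CRA_dense h hr ha hb hc M
    rw [add_assoc] at h1
    exact h1.trans (Nat.add_le_add_right hc2 _)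
  · rw [CRA_swap]
    have h1 := CRA_dense h hr hb ha hc M
    rw [add_assoc, add_comm (∑ z ∈ (ch V α b).filter (fun z => iso V α M r z),
        ((ch V α a).filter (fun x => dist x z ≤ r)).card)] at h1
    exact h1.trans (Nat.add_le_add_right hc2 _)

end Pool.Agent.H83.CP
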