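import Pool.Agent.H83.CP.ISA

/-!
# ISB: all isolated points of a chain

For `z ∈ ch b` isolated put `Y z = {x ∈ ch a : dist x z ≤ r}`, `N z = {x ∈ ch a : dist x z ≤ (M / 2) r}`, `k = (dle A r).card`, `h = (hi A r).card`.
`(Y z).card ≤ 6 (k + 1)` (`disc_ch`, `L = 1`) `≤ 14 h`, so `(Y z).card ≤ 14 min (Y z).card h`. By `isoA`: either `M ≤ 4 (N z).card`, and then
`M h (Y z).card ≤ 24 (k + 1) h (N z).card`, or `(Y z).card h ≤ 28 ∑_{x ∈ N z} df x`. In both cases
`M h (Y z).card ≤ 28 M ∑_{x ∈ N z} df x + 24 (k + 1) h (N z).card`. The sets `N z` for different isolated `z ∈ ch b` are disjoint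
(`dist z z' > M r`), all contained in `ch a`; sum over `z` (`Finset.sum_biUnion`, `Finset.card_biUnion`).
-/

set_option autoImplicit false

open Real

namespace Pool.Agent.H83.CP

open Classical in
theorem isoB {A V : Finset ℂ} {α : ℂ → ℝ} (h : Nrm V α) (hVA : V ⊆ A) {r : ℝ} (hr : 0 < r)
    (a b : ℕ) {M : ℕ} (hM : 16 ≤ M) (hk : 3 * ((dle A r).card + 1) ≤ 7 * (hi A r).card) :
    M * (hi A r).card * ∑ z ∈ (ch V α b).filter (fun z => iso V α M r z),
        ((ch V α a).filter (fun x => dist x z ≤ r)).card ≤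
      28 * M * ∑ x ∈ ch V α a, df A V α r x +
        24 * ((dle A r).card + 1) * (hi A r).card * (ch V α a).card := by
  obtain ⟨k, hkd⟩ : ∃ k, k = (dle A r).card := ⟨_, rfl⟩
  obtain ⟨H, hHd⟩ : ∃ H, H = (hi A r).card := ⟨_, rfl⟩
  rw [← hkd, ← hHd] at hk ⊢
  set I := (ch V α b).filter (fun z => iso V α M r z) with hI
  let N : ℂ → Finset ℂ := fun z => (ch V α a).filter (fun x => dist x z ≤ (M : ℝ) / 2 * r)
  have hz : ∀ z, M * H * ((ch V α a).filter (fun x => dist x z ≤ r)).card ≤
      28 * M * ∑ x ∈ N z, df A V α r x + 24 * (k + 1) * H * (N z).card := by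
    intro z
    have h1 := disc_ch h hVA hr a 1 z
    rw [← hkd] at h1
    simp only [Nat.cast_one, one_mul, mul_one] at h1
    have h2 := isoA h hVA hr a z hM
    rw [← hHd] at h2
    set Y := ((ch V α a).filter (fun x => dist x z ≤ r)).card with hY
    rcases h2 with h2 | h2
    · have h3 : M * H * Y ≤ 4 * (N z).card * H * (6 * (k + 1)) :=
        Nat.mul_le_mul (Nat.mul_le_mul_right H h2) (by omega)
      have h4 : 4 * (N z).card * H * (6 * (k + 1)) = 24 * (k + 1) * H * (N z).card := by ring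
      omega
    · have h3 : Y ≤ 14 * min Y H := by
        rcases le_total Y H with h5 | h5
        · rw [min_eq_left h5]
          omega
        · rw [min_eq_right h5]
          omega
      have h4 : Y * H ≤ 28 * ∑ x ∈ N z, df A V α r x := by
        calc Y * H ≤ 14 * min Y H * H := Nat.mul_le_mul_right H h3
          _ = 14 * (min Y H * H) := by ring
          _ ≤ 14 * (2 * ∑ x ∈ N z, df A V α r x) := Nat.mul_le_mul_left _ h2
          _ = _ := by ring
      calc M * H * Y = M * (Y * H) := by ring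
        _ ≤ M * (28 * ∑ x ∈ N z, df A V α r x) := Nat.mul_le_mul_left _ h4
        _ = 28 * M * ∑ x ∈ N z, df A V α r x := by ring
        _ ≤ _ := Nat.le_add_right _ _
  have hdisj : (I : Set ℂ).PairwiseDisjoint N := by
    intro z hz z' hz' hne
    rw [Function.onFun, Finset.disjoint_left]
    intro x hx hx'
    rw [hI, Finset.mem_coe, Finset.mem_filter] at hz hz'
    have m1 : z ∈ V ∧ sec α z = b := by
      have := hz.1
      rwa [ch, Finset.mem_filter] at this
    have m2 : z' ∈ V ∧ sec α z' = b := by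
      have := hz'.1
      rwa [ch, Finset.mem_filter] at this
    have h1 := hz.2 z' m2.1 (m2.2.trans m1.2.symm) hne.symm
    have h2 := (Finset.mem_filter.1 hx).2
    have h3 := (Finset.mem_filter.1 hx').2
    have h4 := dist_triangle_left z z' x
    linarith
  have hsub : I.biUnion N ⊆ ch V α a := by
    intro x hx
    rw [Finset.mem_biUnion] at hx
    obtain ⟨z, -, hx⟩ := hx
    exact (Finset.mem_filter.1 hx).1
  have hS : ∑ z ∈ I, ∑ x ∈ N z, df A V α r x ≤ ∑ x ∈ ch V α a, df A V α r x := by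
    rw [← Finset.sum_biUnion hdisj]
    exact Finset.sum_le_sum_of_subset hsub
  have hC : ∑ z ∈ I, (N z).card ≤ (ch V α a).card := by
    rw [← Finset.card_biUnion hdisj]
    exact Finset.card_le_card hsub
  calc M * H * ∑ z ∈ I, ((ch V α a).filter (fun x => dist x z ≤ r)).card
      = ∑ z ∈ I, M * H * ((ch V α a).filter (fun x => dist x z ≤ r)).card :=
        Finset.mul_sum _ _ _
    _ ≤ ∑ z ∈ I, (28 * M * ∑ x ∈ N z, df A V α r x + 24 * (k + 1) * H * (N z).card) :=
        Finset.sum_le_sum fun z _ => hz z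
    _ = 28 * M * ∑ z ∈ I, ∑ x ∈ N z, df A V α r x +
        24 * (k + 1) * H * ∑ z ∈ I, (N z).card := by
        rw [Finset.sum_add_distrib, Finset.mul_sum, Finset.mul_sum]
    _ ≤ _ := Nat.add_le_add (Nat.mul_le_mul_left _ hS) (Nat.mul_le_mul_left _ hC)

end Pool.Agent.H83.CP
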