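import Pool.Agent.H83.CP.CRA
import Pool.Agent.H83.CP.ISB

/-!
# CRB: all cross pairs

`cross` is the disjoint union over the pairs of sectors `a ≠ b`, `a, b < 8` (`sec_lt`) of the sets of `cross_ab`: 56 pairs. With `T a b := ∑_{z ∈ ch b iso} #{x ∈ ch a : dist x z ≤ r}`:
`cross.card ≤ 56 c0 + ∑_{a ≠ b} (T b a + T a b) = 56 c0 + 2 ∑_{a ≠ b} T a b`, and `isoB`: `M h T a b ≤ 28 M ∑_{x ∈ ch a} df x + 24 (k + 1) h (ch a).card`. Summing over `a, b < 8`:
`M h cross ≤ 56 c0 M h + 2 * 8 * (28 M ∑_{x ∈ V} df x + 24 (k + 1) h V.card)` (`V` is the disjoint union of the chains), `V.card ≤ A.card`.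
-/

set_option autoImplicit false

open Real

noncomputable section

namespace Pool.Agent.H83.CP

theorem cross_card {A V : Finset ℂ} {α : ℂ → ℝ} {C t : ℕ} (h : Cfg A V α C t) {r : ℝ} (hr : 0 < r)
    {M : ℕ} (hM : 16 ≤ M) (hk : 3 * ((dle A r).card + 1) ≤ 7 * (hi A r).card) :
    M * (hi A r).card * (cross V α r).card ≤
      56 * c0 C t (dle A r).card M * M * (hi A r).card + 448 * M * ∑ x ∈ V, df A V α r x +
        384 * ((dle A r).card + 1) * (hi A r).card * A.card := by
  classical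
  set H := (hi A r).card with hH
  set k := (dle A r).card with hkk
  set P : Finset (ℕ × ℕ) := (Finset.range 8 ×ˢ Finset.range 8).filter (fun p => p.1 ≠ p.2) with hP
  have hPc : P.card = 56 := by
    rw [hP]
    decide
  set T : ℕ → ℕ → ℕ := fun a b => ∑ z ∈ (ch V α b).filter (fun z => iso V α M r z),
        ((ch V α a).filter (fun x => dist x z ≤ r)).card with hT
  set U : ℕ → ℕ := fun a => 28 * M * ∑ x ∈ ch V α a, df A V α r x +
        24 * (k + 1) * H * (ch V α a).card with hU
  have hTU : ∀ a b, M * H * T a b ≤ U a := by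
    intro a b
    exact isoB h.nrm h.sub hr a b hM hk
  have hcov : cross V α r ⊆ P.biUnion (fun p =>
      ((ch V α p.1) ×ˢ (ch V α p.2)).filter (fun q => dist q.1 q.2 ≤ r)) := by
    intro q hq
    unfold cross at hq
    rw [Finset.mem_filter, Finset.mem_product] at hq
    rw [Finset.mem_biUnion]
    refine ⟨(sec α q.1, sec α q.2), ?_, ?_⟩
    · rw [hP, Finset.mem_filter, Finset.mem_product, Finset.mem_range, Finset.mem_range]
      exact ⟨⟨sec_lt h.nrm hq.1.1, sec_lt h.nrm hq.1.2⟩, hq.2.1⟩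
    · rw [Finset.mem_filter, Finset.mem_product]
      unfold ch
      rw [Finset.mem_filter, Finset.mem_filter]
      exact ⟨⟨⟨hq.1.1, rfl⟩, hq.1.2, rfl⟩, hq.2.2⟩
  have h1 : (cross V α r).card ≤ ∑ p ∈ P, (c0 C t k M + T p.2 p.1 + T p.1 p.2) := by
    refine (Finset.card_le_card hcov).trans (Finset.card_biUnion_le.trans ?_)
    apply Finset.sum_le_sum
    intro p hp
    rw [hP, Finset.mem_filter, Finset.mem_product, Finset.mem_range, Finset.mem_range] at hp
    exact cross_ab h hr hp.1.1 hp.1.2 hp.2 M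
  have h2 : M * H * (cross V α r).card ≤ ∑ p ∈ P, (M * H * c0 C t k M + U p.2 + U p.1) := by
    refine (Nat.mul_le_mul_left _ h1).trans ?_
    rw [Finset.mul_sum]
    apply Finset.sum_le_sum
    intro p _
    have e1 := hTU p.2 p.1
    have e2 := hTU p.1 p.2
    rw [mul_add, mul_add]
    omega
  have h3 : ∑ p ∈ P, (U p.2 + U p.1) ≤ 16 * ∑ a ∈ Finset.range 8, U a := by
    have e1 : ∑ p ∈ P, (U p.2 + U p.1) ≤
        ∑ p ∈ Finset.range 8 ×ˢ Finset.range 8, (U p.2 + U p.1) :=
      Finset.sum_le_sum_of_subset (Finset.filter_subset _ _)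
    have e2 : ∑ p ∈ Finset.range 8 ×ˢ Finset.range 8, (U p.2 + U p.1) =
        16 * ∑ a ∈ Finset.range 8, U a := by
      rw [Finset.sum_product]
      simp only [Finset.sum_add_distrib, Finset.sum_const, Finset.card_range, smul_eq_mul]
      rw [← Finset.mul_sum]
      ring
    omega
  have h4 : ∑ a ∈ Finset.range 8, U a =
      28 * M * ∑ x ∈ V, df A V α r x + 24 * (k + 1) * H * V.card := by
    have e1 : ∑ a ∈ Finset.range 8, ∑ x ∈ ch V α a, df A V α r x = ∑ x ∈ V, df A V α r x := by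
      apply Finset.sum_fiberwise_of_maps_to
      intro x hx
      exact Finset.mem_range.mpr (sec_lt h.nrm hx)
    have e2 : ∑ a ∈ Finset.range 8, (ch V α a).card = V.card := by
      symm
      apply Finset.card_eq_sum_card_fiberwise
      intro x hx
      exact Finset.mem_coe.mpr (Finset.mem_range.mpr (sec_lt h.nrm hx))
    rw [hU]
    simp only [Finset.sum_add_distrib, ← Finset.mul_sum]
    rw [e1, e2]
  have h5 : ∑ p ∈ P, (M * H * c0 C t k M + U p.2 + U p.1) =
      56 * (M * H * c0 C t k M) + ∑ p ∈ P, (U p.2 + U p.1) := by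
    simp only [Finset.sum_add_distrib, Finset.sum_const, hPc, smul_eq_mul]
    ring
  have hVA : V.card ≤ A.card := Finset.card_le_card h.sub
  have h6 : 24 * (k + 1) * H * V.card ≤ 24 * (k + 1) * H * A.card := Nat.mul_le_mul_left _ hVA
  rw [h5] at h2
  rw [h4] at h3
  have e3 : 56 * c0 C t k M * M * H = 56 * (M * H * c0 C t k M) := by ring
  have e4 : 448 * M * ∑ x ∈ V, df A V α r x = 16 * (28 * M * ∑ x ∈ V, df A V α r x) := by ring
  have e5 : 384 * (k + 1) * H * A.card = 16 * (24 * (k + 1) * H * A.card) := by ring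
  rw [e3, e4, e5]
  omega

end Pool.Agent.H83.CP
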