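import Pool.Agent.H83.CP.CRB

/-!
# CRC: bound for the total deficiency

`mu_ineq` times `M h`: `2 M h Df ≤ M h cross + 2 t (B k 1 + t) M h ≤ (56 c0 + 2 t (B k 1 + t)) M h + 448 M Df + 384 (k + 1) h n`. As `h ≥ 448`:
`448 M Df ≤ M h Df`, so `M h Df ≤ (...) h`; divide by `h`.
-/

set_option autoImplicit false

open Real

noncomputable section

namespace Pool.Agent.H83.CP

theorem Df_bound {A V : Finset ℂ} {α : ℂ → ℝ} {C t : ℕ} (h : Cfg A V α C t) {r : ℝ} (hr : 0 < r)
    {M : ℕ} (hM : 16 ≤ M) (hk : 3 * ((dle A r).card + 1) ≤ 7 * (hi A r).card)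
    (hh : 448 ≤ (hi A r).card) :
    M * ∑ x ∈ V, df A V α r x ≤
      (56 * c0 C t (dle A r).card M + 2 * (t * (B (dle A r).card 1 + t))) * M +
        384 * ((dle A r).card + 1) * A.card := by
  have h1 := mu_ineq h hr
  have h2 := cross_card h hr hM hk
  set H := (hi A r).card with hH
  set k := (dle A r).card with hkk
  set Df := ∑ x ∈ V, df A V α r x with hDf
  set X := (cross V α r).card with hX
  set c := c0 C t k M with hc
  set T := t * (B k 1 + t) with hT
  set n := A.card with hn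
  have h3 : 2 * Df ≤ X + 2 * T := by omega
  have h4 : M * H * (2 * Df) ≤ M * H * (X + 2 * T) := Nat.mul_le_mul_left _ h3
  have h5 : 448 * (M * Df) ≤ H * (M * Df) := Nat.mul_le_mul_right _ hh
  have hH0 : 0 < H := by omega
  apply Nat.le_of_mul_le_mul_left _ hH0
  nlinarith

end Pool.Agent.H83.CP
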