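import Pool.Agent.H83.CP.CH

/-!
# DB: local finiteness

`ch_small`: if `S` is empty clear. Let `x` be the element of `S` with the smallest `α`. The map `y ↦ dist x y` is injective on
`S.erase x` (`ch_mono`, `ch_inj`) with values in `dle A r`.
`ch_gap`: the map `z ↦ dist x z` is injective on the set, with values in `dle A (dist x y)` (`ch_mono4`).
`disc_ch`: `θ := a π / 4`, cells `⌊ax θ (x - p) / (r / 2)⌋ ∈ [-2L, 2L]` (`ax_abs`), so at most `4 L + 1` cells; two points `x, y` with
`α x ≤ α y` in the same cell have `ax θ (y - x) < r / 2`, so `dist x y < r` (`ch_ax`); every cell has at most `(dle A r).card + 1` points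
by `ch_small` (`Finset.card_le_mul_card_image`).
`disc_V`: sum over the 8 sectors (`Finset.card_eq_sum_card_fiberwise`, `sec_lt`).
`disc_A`: `A ⊆ V ∪ (A \ V)`.
-/

set_option autoImplicit false

open Real

namespace Pool.Agent.H83.CP

theorem DB_mem {V : Finset ℂ} {α : ℂ → ℝ} {a : ℕ} {x : ℂ} (hx : x ∈ ch V α a) : x ∈ V :=
  (Finset.mem_filter.1 hx).1

theorem DB_dle {A V : Finset ℂ} {α : ℂ → ℝ} (hVA : V ⊆ A) {a : ℕ} {x y : ℂ} {r : ℝ}
    (hx : x ∈ ch V α a) (hy : y ∈ ch V α a) (hxy : x ≠ y) (hr : dist x y ≤ r) :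
    dist x y ∈ dle A r := by
  unfold dle dst
  rw [Finset.mem_filter, Finset.mem_image]
  exact ⟨⟨(x, y), Finset.mem_offDiag.2 ⟨hVA (DB_mem hx), hVA (DB_mem hy), hxy⟩, rfl⟩, hr⟩

theorem DB_inj {V : Finset ℂ} {α : ℂ → ℝ} (h : Nrm V α) {a : ℕ} {x : ℂ}
    (hx : x ∈ ch V α a) {y z : ℂ} (hy : y ∈ ch V α a) (hz : z ∈ ch V α a) (h1 : α x < α y)
    (h2 : α x < α z) (he : dist x y = dist x z) : y = z := by
  by_contra hne
  rcases lt_trichotomy (α y) (α z) with h3 | h3 | h3
  · have := (ch_mono h hx hy hz h1 h3).1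
    linarith
  · exact hne (ch_inj h (DB_mem hy) (DB_mem hz) h3)
  · have := (ch_mono h hx hz hy h2 h3).1
    linarith

theorem ch_small {A V : Finset ℂ} {α : ℂ → ℝ} (h : Nrm V α) (hVA : V ⊆ A) {a : ℕ} {S : Finset ℂ}
    (hS : S ⊆ ch V α a) {r : ℝ} (hr : ∀ x ∈ S, ∀ y ∈ S, dist x y ≤ r) :
    S.card ≤ (dle A r).card + 1 := by
  rcases S.eq_empty_or_nonempty with rfl | hne
  · simp
  obtain ⟨x, hx, hmin⟩ := Finset.exists_min_image S α hne
  have hlt : ∀ y ∈ S.erase x, α x < α y := by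
    intro y hy
    rw [Finset.mem_erase] at hy
    refine lt_of_le_of_ne (hmin y hy.2) fun he => hy.1 ?_
    exact (ch_inj h (DB_mem (hS hx)) (DB_mem (hS hy.2)) he).symm
  have h1 : (S.erase x).card ≤ (dle A r).card := by
    refine Finset.card_le_card_of_injOn (fun y => dist x y) ?_ ?_
    · intro y hy
      have hy' := Finset.mem_erase.1 (Finset.mem_coe.1 hy)
      exact DB_dle hVA (hS hx) (hS hy'.2) (Ne.symm hy'.1) (hr x hx y hy'.2)
    · intro y hy z hz he
      have hy' := Finset.mem_coe.1 hy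
      have hz' := Finset.mem_coe.1 hz
      exact DB_inj h (hS hx) (hS (Finset.mem_of_mem_erase hy')) (hS (Finset.mem_of_mem_erase hz'))
        (hlt y hy') (hlt z hz') he
  rw [Finset.card_erase_of_mem hx] at h1
  omega

theorem ch_gap {A V : Finset ℂ} {α : ℂ → ℝ} (h : Nrm V α) (hVA : V ⊆ A) {a : ℕ} {x y : ℂ}
    (hx : x ∈ ch V α a) (hy : y ∈ ch V α a) :
    ((ch V α a).filter (fun z => α x < α z ∧ α z ≤ α y)).card ≤ (dle A (dist x y)).card := by
  refine Finset.card_le_card_of_injOn (fun z => dist x z) ?_ ?_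
  · intro z hz
    have hz' := Finset.mem_filter.1 (Finset.mem_coe.1 hz)
    refine DB_dle hVA hx hz'.1 ?_ (ch_mono4 h hx hx hz'.1 hy le_rfl hz'.2.1.le hz'.2.2)
    rintro rfl
    exact lt_irrefl _ hz'.2.1
  · intro z hz w hw he
    have hz' := Finset.mem_filter.1 (Finset.mem_coe.1 hz)
    have hw' := Finset.mem_filter.1 (Finset.mem_coe.1 hw)
    exact DB_inj h hx hz'.1 hw'.1 hz'.2.1 hw'.2.1 he

theorem disc_ch {A V : Finset ℂ} {α : ℂ → ℝ} (h : Nrm V α) (hVA : V ⊆ A) {r : ℝ} (hr : 0 < r)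
    (a L : ℕ) (p : ℂ) :
    ((ch V α a).filter (fun x => dist x p ≤ (L : ℝ) * r)).card ≤
      (4 * L + 2) * ((dle A r).card + 1) := by
  set θ : ℝ := (a : ℝ) * (π / 4) with hθ
  have hpi := Real.pi_pos
  have hθ2 : θ ≤ ((a : ℝ) + 1) * (π / 4) := by
    rw [hθ]
    nlinarith
  have hr2 : 0 < r / 2 := by positivity
  set T := (ch V α a).filter (fun x => dist x p ≤ (L : ℝ) * r) with hT
  set f : ℂ → ℤ := fun x => ⌊ax θ (x - p) / (r / 2)⌋ with hf
  have himg : (T.image f).card ≤ 4 * L + 2 := by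
    have hsub : T.image f ⊆ Finset.Icc (-(2 * L : ℤ)) (2 * L) := by
      intro k hk
      rw [Finset.mem_image] at hk
      obtain ⟨x, hx, rfl⟩ := hk
      rw [hT, Finset.mem_filter] at hx
      have h1 := ax_abs θ (x - p)
      rw [← dist_eq_norm, abs_le] at h1
      have h2 : ax θ (x - p) / (r / 2) ≤ 2 * L := by
        rw [div_le_iff₀ hr2]
        nlinarith [hx.2]
      have h3 : -(2 * L : ℝ) ≤ ax θ (x - p) / (r / 2) := by
        rw [le_div_iff₀ hr2]
        nlinarith [hx.2]
      rw [Finset.mem_Icc]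
      constructor
      · rw [hf, Int.le_floor]
        push_cast
        exact h3
      · have h4 : ((f x : ℤ) : ℝ) ≤ ax θ (x - p) / (r / 2) := Int.floor_le _
        have h5 : ((f x : ℤ) : ℝ) ≤ ((2 * L : ℤ) : ℝ) := by
          push_cast
          linarith
        exact_mod_cast h5
    refine (Finset.card_le_card hsub).trans ?_
    rw [Int.card_Icc]
    omega
  have hfib : ∀ k ∈ T.image f, (T.filter (fun x => f x = k)).card ≤ (dle A r).card + 1 := by
    intro k _
    have key : ∀ x ∈ T.filter (fun x => f x = k), ∀ y ∈ T.filter (fun x => f x = k),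
        α x ≤ α y → dist x y ≤ r := by
      intro x hx y hy hxy
      rw [Finset.mem_filter, hT, Finset.mem_filter] at hx hy
      have h1 := ch_ax h hx.1.1 hy.1.1 hxy (le_refl θ) hθ2
      have h2 : ax θ (y - x) = ax θ (y - p) - ax θ (x - p) := by
        rw [← ax_sub]
        congr 1
        ring
      have h3 : ((k : ℤ) : ℝ) ≤ ax θ (x - p) / (r / 2) := by
        rw [← hx.2]
        exact Int.floor_le _
      have h4 : ax θ (y - p) / (r / 2) < (k : ℝ) + 1 := by
        rw [← hy.2]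
        exact Int.lt_floor_add_one _
      rw [le_div_iff₀ hr2] at h3
      rw [div_lt_iff₀ hr2] at h4
      rw [h2] at h1
      nlinarith
    refine ch_small h hVA (a := a) ?_ ?_
    · intro x hx
      rw [Finset.mem_filter, hT, Finset.mem_filter] at hx
      exact hx.1.1
    · intro x hx y hy
      rcases le_total (α x) (α y) with h1 | h1
      · exact key x hx y hy h1
      · rw [dist_comm]
        exact key y hy x hx h1
  calc T.card ≤ ((dle A r).card + 1) * (T.image f).card :=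
        Finset.card_le_mul_card_image T _ hfib
    _ ≤ ((dle A r).card + 1) * (4 * L + 2) := Nat.mul_le_mul_left _ himg
    _ = (4 * L + 2) * ((dle A r).card + 1) := mul_comm _ _

theorem disc_V {A V : Finset ℂ} {α : ℂ → ℝ} (h : Nrm V α) (hVA : V ⊆ A) {r : ℝ} (hr : 0 < r)
    (L : ℕ) (p : ℂ) :
    (V.filter (fun x => dist x p ≤ (L : ℝ) * r)).card ≤ B (dle A r).card L := by
  set T := V.filter (fun x => dist x p ≤ (L : ℝ) * r) with hT
  have himg : (T.image (sec α)).card ≤ 8 := by
    have hsub : T.image (sec α) ⊆ Finset.range 8 := by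
      intro k hk
      rw [Finset.mem_image] at hk
      obtain ⟨x, hx, rfl⟩ := hk
      rw [hT, Finset.mem_filter] at hx
      exact Finset.mem_range.2 (sec_lt h hx.1)
    refine (Finset.card_le_card hsub).trans ?_
    simp
  have hfib : ∀ k ∈ T.image (sec α), (T.filter (fun x => sec α x = k)).card ≤
      (4 * L + 2) * ((dle A r).card + 1) := by
    intro k _
    refine le_trans (Finset.card_le_card ?_) (disc_ch h hVA hr k L p)
    intro x hx
    rw [Finset.mem_filter, hT, Finset.mem_filter] at hx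
    exact Finset.mem_filter.2 ⟨Finset.mem_filter.2 ⟨hx.1.1, hx.2⟩, hx.1.2⟩
  unfold B
  calc T.card ≤ ((4 * L + 2) * ((dle A r).card + 1)) * (T.image (sec α)).card :=
        Finset.card_le_mul_card_image T _ hfib
    _ ≤ ((4 * L + 2) * ((dle A r).card + 1)) * 8 := Nat.mul_le_mul_left _ himg
    _ = 8 * ((4 * L + 2) * ((dle A r).card + 1)) := mul_comm _ _

theorem disc_A {A V : Finset ℂ} {α : ℂ → ℝ} {C t : ℕ} (h : Cfg A V α C t) {r : ℝ} (hr : 0 < r)
    (L : ℕ) (p : ℂ) :
    (A.filter (fun x => dist x p ≤ (L : ℝ) * r)).card ≤ B (dle A r).card L + t := by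
  have hsub : A.filter (fun x => dist x p ≤ (L : ℝ) * r) ⊆
      V.filter (fun x => dist x p ≤ (L : ℝ) * r) ∪ (A \ V) := by
    intro x hx
    rw [Finset.mem_filter] at hx
    by_cases hV : x ∈ V
    · exact Finset.mem_union_left _ (Finset.mem_filter.2 ⟨hV, hx.2⟩)
    · exact Finset.mem_union_right _ (Finset.mem_sdiff.2 ⟨hx.1, hV⟩)
  calc (A.filter (fun x => dist x p ≤ (L : ℝ) * r)).card
      ≤ (V.filter (fun x => dist x p ≤ (L : ℝ) * r) ∪ (A \ V)).card := Finset.card_le_card hsub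
    _ ≤ (V.filter (fun x => dist x p ≤ (L : ℝ) * r)).card + (A \ V).card :=
        Finset.card_union_le _ _
    _ ≤ B (dle A r).card L + t := add_le_add (disc_V h.nrm h.sub hr L p) h.ext

end Pool.Agent.H83.CP
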