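import Pool.Agent.H83.CP.DB

/-!
# DC: number of distances `≤ L r`

`dle A s ⊆ low A ∪ hi A s`. For `H = hi A s`, `s = L r`: `H.card * (2 * A.card) ≤ ∑ d ∈ H, mul A d` = number of `p ∈ A.offDiag` with
`dist p.1 p.2 ∈ H` (`Finset.card_eq_sum_card_fiberwise` / `Finset.sum_card_fiberwise_eq_card_filter`) `≤` number of `p ∈ A ×ˢ A` with
`dist p.1 p.2 ≤ s`, `≤ A.card * (B k L + t)` by `disc_A`. If `A.card > 0` then `2 * H.card ≤ B k L + t`; if `A` is empty, `dle` is empty.
`hi_card`: `dle A s ⊆ low A ∪ hi A s`.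
-/

set_option autoImplicit false

open Real

namespace Pool.Agent.H83.CP

theorem hi_card {A V : Finset ℂ} {α : ℂ → ℝ} {C t : ℕ} (h : Cfg A V α C t) (s : ℝ) :
    (dle A s).card ≤ (hi A s).card + C ∧ (dle A s \ hi A s).card ≤ C ∧ hi A s ⊆ dle A s := by
  have hsub : dle A s \ hi A s ⊆ low A := by
    intro d hd
    rw [Finset.mem_sdiff] at hd
    obtain ⟨h1, h2⟩ := hd
    unfold dle at h1
    unfold hi at h2
    rw [Finset.mem_filter] at h1 h2
    unfold low
    rw [Finset.mem_filter]
    refine ⟨h1.1, ?_⟩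
    by_contra h3
    exact h2 ⟨h1.1, h1.2, not_le.1 h3⟩
  have h2 : (dle A s \ hi A s).card ≤ C := (Finset.card_le_card hsub).trans h.lowc
  refine ⟨?_, h2, ?_⟩
  · have h3 := Finset.card_le_card_sdiff_add_card (s := dle A s) (t := hi A s)
    omega
  · intro d hd
    unfold hi at hd
    unfold dle
    rw [Finset.mem_filter] at hd ⊢
    exact ⟨hd.1, hd.2.1⟩

theorem DC_sum {A : Finset ℂ} (s : ℝ) (N : ℕ)
    (hN : ∀ p ∈ A, (A.filter (fun x => dist x p ≤ s)).card ≤ N) :
    (hi A s).card * (2 * A.card) ≤ A.card * N := by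
  have h1 : (hi A s).card * (2 * A.card) ≤ ∑ d ∈ hi A s, mul A d := by
    rw [← smul_eq_mul, ← Finset.sum_const]
    refine Finset.sum_le_sum fun d hd => ?_
    unfold hi at hd
    rw [Finset.mem_filter] at hd
    exact hd.2.2.le
  have h2 : ∑ d ∈ hi A s, mul A d ≤ (A.offDiag.filter (fun p => dist p.1 p.2 ≤ s)).card := by
    have h3 : ∑ d ∈ hi A s, mul A d =
        ∑ d ∈ hi A s, ((A.offDiag.filter (fun p => dist p.1 p.2 ≤ s)).filter
          (fun p => dist p.1 p.2 = d)).card := by
      refine Finset.sum_congr rfl fun d hd => ?_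
      unfold hi at hd
      rw [Finset.mem_filter] at hd
      unfold mul
      congr 1
      ext p
      simp only [Finset.mem_filter]
      constructor
      · rintro ⟨h4, h5⟩
        exact ⟨⟨h4, by rw [h5]; exact hd.2.1⟩, h5⟩
      · rintro ⟨⟨h4, _⟩, h5⟩
        exact ⟨h4, h5⟩
    rw [h3, ← Finset.card_biUnion]
    · refine Finset.card_le_card fun p hp => ?_
      rw [Finset.mem_biUnion] at hp
      obtain ⟨d, _, hp⟩ := hp
      exact (Finset.mem_filter.1 hp).1
    · intro d _ d' _ hne
      rw [Function.onFun, Finset.disjoint_left]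
      intro p hp hp'
      rw [Finset.mem_filter] at hp hp'
      exact hne (hp.2.symm.trans hp'.2)
  have h4 : (A.offDiag.filter (fun p => dist p.1 p.2 ≤ s)).card ≤ A.card * N := by
    have h5 : (A.offDiag.filter (fun p => dist p.1 p.2 ≤ s)) ⊆
        A.biUnion (fun p => (A.filter (fun x => dist x p ≤ s)).image (fun x => (x, p))) := by
      intro q hq
      rw [Finset.mem_filter, Finset.mem_offDiag] at hq
      rw [Finset.mem_biUnion]
      refine ⟨q.2, hq.1.2.1, ?_⟩
      rw [Finset.mem_image]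
      exact ⟨q.1, Finset.mem_filter.2 ⟨hq.1.1, hq.2⟩, rfl⟩
    refine (Finset.card_le_card h5).trans ?_
    refine Finset.card_biUnion_le_card_mul _ _ _ fun p hp => ?_
    exact Finset.card_image_le.trans (hN p hp)
  exact h1.trans (h2.trans h4)

theorem dle_card {A V : Finset ℂ} {α : ℂ → ℝ} {C t : ℕ} (h : Cfg A V α C t) {r : ℝ} (hr : 0 < r)
    (L : ℕ) : (dle A ((L : ℝ) * r)).card ≤ C + B (dle A r).card L + t := by
  have h1 := (hi_card h ((L : ℝ) * r)).1
  have h2 := DC_sum (A := A) ((L : ℝ) * r) (B (dle A r).card L + t)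
    (fun p _ => disc_A h hr L p)
  have h3 : (hi A ((L : ℝ) * r)).card ≤ B (dle A r).card L + t := by
    rcases Nat.eq_zero_or_pos A.card with h0 | h0
    · have h4 : A = ∅ := Finset.card_eq_zero.1 h0
      have h5 : hi A ((L : ℝ) * r) = ∅ := by
        unfold hi dst
        rw [h4]
        simp
      rw [h5, Finset.card_empty]
      exact Nat.zero_le _
    · have h4 : A.card * (2 * (hi A ((L : ℝ) * r)).card) ≤
          A.card * (B (dle A r).card L + t) := by
        calc A.card * (2 * (hi A ((L : ℝ) * r)).card)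
            = (hi A ((L : ℝ) * r)).card * (2 * A.card) := by ring
          _ ≤ _ := h2
      have h5 := Nat.le_of_mul_le_mul_left h4 h0
      omega
  omega

end Pool.Agent.H83.CP
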