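import Pool.Agent.H83.CP.CH

/-!
# DEA: congruent blocks of two opposite chains are close to each other

`b ≡ a + 3` or `a + 4` mod 8.
1. `ch_orient`: `crs (x2 - x1) (yj - x1) > 0` (`α yj` is not between `α x1` and `α x2`, because the sectors are different). So
   `zj := (yj - x1) / (x2 - x1)` has positive imaginary part; `|zj| = |x1 yj| / |x1 x2|`, `|zj - 1| = |x2 yj| / |x1 x2|`. A complex number `z` with
   `im z > 0` is determined by `|z|` and `|z - 1|` (`DEA_eq`). Same for `u, v`. So `(y2 - y1) / (x2 - x1) = z2 - z1 = (v2 - v1) / (u2 - u1)`.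
2. `ch_dir`: `x2 - x1 = p i e(β)`, `u2 - u1 = p' i e(β')`, `y2 - y1 = q i e(γ)`, `v2 - v1 = q' i e(γ')` with `α x1 < β < α x2` etc. Comparing arguments
   `e(γ - β) = e(γ' - β')` (unit complex numbers), and `|(γ - γ') - (β - β')| < π / 2`, so `γ - γ' = β - β'`.
3. If `α x2 ≤ α u1` then `β < β'`, so `γ < γ'`, so `α y1 < α v2`. With `s := ax (a π / 4)`: increasing on `ch a` (`ch_ax`), decreasing on `ch b`
   (`v2 - y1 = q'' i e(γ'')` with `γ''` in the sector `b`, `s (v2 - y1) = q'' cos (γ'' - a π / 4) < 0`, since `γ'' - a π / 4` is in `[3 π / 4, 5 π / 4)` mod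
   `2 π`). `s u1 ≤ s v2 + R ≤ s y1 + R ≤ s x2 + 2 R`, so `dist x2 u1 ≤ 4 R` (`ch_ax`), `dist x1 u1 ≤ 5 R`.
4. If `α u2 ≤ α x1`: symmetric (exchange the two blocks).
5. Otherwise `α x1 ≤ α u1 < α x2` or `α u1 < α x1 < α u2`: `dist x1 u1 ≤ R` by `ch_mono4`.
-/

set_option autoImplicit false
set_option linter.unusedVariables false

open Real

namespace Pool.Agent.H83.CP

theorem DEA_eq {z w : ℂ} (hz : 0 < z.im) (hw : 0 < w.im) (h1 : ‖z‖ = ‖w‖)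
    (h2 : ‖z - 1‖ = ‖w - 1‖) : z = w := by
  have a1 : z.re * z.re + z.im * z.im = w.re * w.re + w.im * w.im := by
    have h := congrArg (fun t : ℝ => t ^ 2) h1
    simpa [Complex.sq_norm, Complex.normSq_apply] using h
  have a2 : (z.re - 1) * (z.re - 1) + z.im * z.im = (w.re - 1) * (w.re - 1) + w.im * w.im := by
    have h := congrArg (fun t : ℝ => t ^ 2) h2
    simpa [Complex.sq_norm, Complex.normSq_apply] using h
  have a3 : z.re = w.re := by linarith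
  have a4 : (z.im - w.im) * (z.im + w.im) = 0 := by
    rw [a3] at a1
    linarith
  apply Complex.ext a3
  rcases mul_eq_zero.1 a4 with h | h
  · linarith
  · linarith

private theorem DEA_im {x y z : ℂ} (h : 0 < crs (y - x) (z - x)) :
    0 < ((z - x) / (y - x)).im := by
  have h0 : y - x ≠ 0 := by
    intro h0
    rw [h0] at h
    simp [crs] at h
  have h1 : 0 < Complex.normSq (y - x) := Complex.normSq_pos.2 h0
  rw [Complex.div_im, ← sub_div]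
  apply div_pos _ h1
  unfold crs at h
  linarith

private theorem DEA_ratio {x1 x2 y u1 u2 v : ℂ} (h : 0 < crs (x2 - x1) (y - x1))
    (h' : 0 < crs (u2 - u1) (v - u1)) (e1 : dist x1 x2 = dist u1 u2) (e2 : dist x1 y = dist u1 v)
    (e3 : dist x2 y = dist u2 v) : (y - x1) / (x2 - x1) = (v - u1) / (u2 - u1) := by
  have hx : x2 - x1 ≠ 0 := by
    intro h0
    rw [h0] at h
    simp [crs] at h
  have hu : u2 - u1 ≠ 0 := by
    intro h0
    rw [h0] at h'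
    simp [crs] at h'
  have n1 : ‖x2 - x1‖ = ‖u2 - u1‖ := by
    rw [← dist_eq_norm, ← dist_eq_norm, dist_comm, e1, dist_comm]
  apply DEA_eq (DEA_im h) (DEA_im h')
  · have n2 : ‖y - x1‖ = ‖v - u1‖ := by
      rw [← dist_eq_norm, ← dist_eq_norm, dist_comm, e2, dist_comm]
    rw [norm_div, norm_div, n1, n2]
  · have a1 : (y - x1) / (x2 - x1) - 1 = (y - x2) / (x2 - x1) := by
      field_simp
      ring
    have a2 : (v - u1) / (u2 - u1) - 1 = (v - u2) / (u2 - u1) := by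
      field_simp
      ring
    have n2 : ‖y - x2‖ = ‖v - u2‖ := by
      rw [← dist_eq_norm, ← dist_eq_norm, dist_comm, e3, dist_comm]
    rw [a1, a2, norm_div, norm_div, n1, n2]

private theorem DEA_or {V : Finset ℂ} {α : ℂ → ℝ} (h : Nrm V α) {a b : ℕ} (hab : a ≠ b)
    {x1 x2 y : ℂ} (hx1 : x1 ∈ ch V α a) (hx2 : x2 ∈ ch V α a) (hy : y ∈ ch V α b)
    (hx : α x1 < α x2) : 0 < crs (x2 - x1) (y - x1) := by
  have hπ := Real.pi_pos
  obtain ⟨m1, a1, b1⟩ := (mem_ch h).1 hx1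
  obtain ⟨m2, a2, b2⟩ := (mem_ch h).1 hx2
  obtain ⟨m3, a3, b3⟩ := (mem_ch h).1 hy
  apply ch_orient h m1 m2 m3 hx
  rcases Nat.lt_or_gt_of_ne hab with h1 | h1
  · left
    have h2 : (a : ℝ) + 1 ≤ b := by exact_mod_cast h1
    have h3 : ((a : ℝ) + 1) * (π / 4) ≤ b * (π / 4) :=
      mul_le_mul_of_nonneg_right h2 (by positivity)
    linarith
  · right
    have h2 : (b : ℝ) + 1 ≤ a := by exact_mod_cast h1
    have h3 : ((b : ℝ) + 1) * (π / 4) ≤ a * (π / 4) :=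
      mul_le_mul_of_nonneg_right h2 (by positivity)
    linarith

private theorem DEA_dir {V : Finset ℂ} {α : ℂ → ℝ} (h : Nrm V α) {a : ℕ} {x y : ℂ}
    (hx : x ∈ ch V α a) (hy : y ∈ ch V α a) (hlt : α x < α y) :
    ∃ β r : ℝ, α x < β ∧ β < α y ∧ 0 < r ∧ y - x = ⟨-(r * sin β), r * cos β⟩ ∧ dist x y = r := by
  have hπ := Real.pi_pos
  obtain ⟨m1, a1, b1⟩ := (mem_ch h).1 hx
  obtain ⟨m2, a2, b2⟩ := (mem_ch h).1 hy
  exact ch_dir h m1 m2 hlt (by linarith)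

private theorem DEA_ang {V : Finset ℂ} {α : ℂ → ℝ} (h : Nrm V α) {a b : ℕ} (hab : a ≠ b)
    {x1 x2 u1 u2 y1 y2 v1 v2 : ℂ}
    (hx1 : x1 ∈ ch V α a) (hx2 : x2 ∈ ch V α a) (hu1 : u1 ∈ ch V α a) (hu2 : u2 ∈ ch V α a)
    (hy1 : y1 ∈ ch V α b) (hy2 : y2 ∈ ch V α b) (hv1 : v1 ∈ ch V α b) (hv2 : v2 ∈ ch V α b)
    (hx : α x1 < α x2) (hu : α u1 < α u2) (hy : α y1 < α y2) (hv : α v1 < α v2)
    (e1 : dist x1 x2 = dist u1 u2) (e2 : dist x1 y1 = dist u1 v1) (e3 : dist x2 y1 = dist u2 v1)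
    (e4 : dist x1 y2 = dist u1 v2) (e5 : dist x2 y2 = dist u2 v2) :
    ∃ β β' γ γ' : ℝ, (α x1 < β ∧ β < α x2) ∧ (α u1 < β' ∧ β' < α u2) ∧
      (α y1 < γ ∧ γ < α y2) ∧ (α v1 < γ' ∧ γ' < α v2) ∧ γ - β = γ' - β' := by
  have hπ := Real.pi_pos
  have r1 := DEA_ratio (DEA_or h hab hx1 hx2 hy1 hx) (DEA_or h hab hu1 hu2 hv1 hu) e1 e2 e3
  have r2 := DEA_ratio (DEA_or h hab hx1 hx2 hy2 hx) (DEA_or h hab hu1 hu2 hv2 hu) e1 e4 e5
  obtain ⟨β, p, c1, c2, c3, c4, c5⟩ := DEA_dir h hx1 hx2 hx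
  obtain ⟨β', p', d1, d2, d3, d4, d5⟩ := DEA_dir h hu1 hu2 hu
  obtain ⟨γ, q, f1, f2, f3, f4, f5⟩ := DEA_dir h hy1 hy2 hy
  obtain ⟨γ', q', g1, g2, g3, g4, g5⟩ := DEA_dir h hv1 hv2 hv
  have hpp : p' = p := by rw [← d5, ← c5, e1]
  subst hpp
  refine ⟨β, β', γ, γ', ⟨c1, c2⟩, ⟨d1, d2⟩, ⟨f1, f2⟩, ⟨g1, g2⟩, ?_⟩
  have hx0 : x2 - x1 ≠ 0 := by
    rw [← norm_pos_iff, ← dist_eq_norm, dist_comm, c5]
    exact d3
  have hu0 : u2 - u1 ≠ 0 := by
    rw [← norm_pos_iff, ← dist_eq_norm, dist_comm, d5]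
    exact d3
  have key : (y2 - y1) * (u2 - u1) = (v2 - v1) * (x2 - x1) := by
    have h1 : (y2 - y1) / (x2 - x1) = (v2 - v1) / (u2 - u1) := by
      have h2 : (y2 - y1) / (x2 - x1) = (y2 - x1) / (x2 - x1) - (y1 - x1) / (x2 - x1) := by
        rw [← sub_div]
        congr 1
        ring
      have h3 : (v2 - v1) / (u2 - u1) = (v2 - u1) / (u2 - u1) - (v1 - u1) / (u2 - u1) := by
        rw [← sub_div]
        congr 1
        ring
      rw [h2, h3, r1, r2]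
    rw [div_eq_div_iff hx0 hu0] at h1
    exact h1
  rw [f4, d4, g4, c4] at key
  have kre := congrArg Complex.re key
  have kim := congrArg Complex.im key
  simp only [Complex.mul_re, Complex.mul_im] at kre kim
  have k1 : q * cos (γ + β') = q' * cos (γ' + β) := by
    rw [cos_add, cos_add]
    apply mul_left_cancel₀ d3.ne'
    linarith
  have k2 : q * sin (γ + β') = q' * sin (γ' + β) := by
    rw [sin_add, sin_add]
    apply mul_left_cancel₀ d3.ne'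
    linarith
  have s1 := Real.sin_sq_add_cos_sq (γ + β')
  have s2 := Real.sin_sq_add_cos_sq (γ' + β)
  have k3 : q ^ 2 = q' ^ 2 := by
    calc q ^ 2 = (q * sin (γ + β')) ^ 2 + (q * cos (γ + β')) ^ 2 := by
          linear_combination (- q ^ 2) * s1
      _ = (q' * sin (γ' + β)) ^ 2 + (q' * cos (γ' + β)) ^ 2 := by rw [k1, k2]
      _ = q' ^ 2 := by linear_combination (q' ^ 2) * s2
  have k4 : q = q' := by
    rcases sq_eq_sq_iff_eq_or_eq_neg.1 k3 with h | h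
    · exact h
    · linarith
  subst k4
  have k5 : cos (γ + β') = cos (γ' + β) := mul_left_cancel₀ f3.ne' k1
  have k6 : sin (γ + β') = sin (γ' + β) := mul_left_cancel₀ f3.ne' k2
  have k7 : cos ((γ + β') - (γ' + β)) = 1 := by
    rw [cos_sub, k5, k6]
    linarith
  obtain ⟨-, i1, j1⟩ := (mem_ch h).1 hx1
  obtain ⟨-, i2, j2⟩ := (mem_ch h).1 hx2
  obtain ⟨-, i3, j3⟩ := (mem_ch h).1 hu1
  obtain ⟨-, i4, j4⟩ := (mem_ch h).1 hu2
  obtain ⟨-, i5, j5⟩ := (mem_ch h).1 hy1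
  obtain ⟨-, i6, j6⟩ := (mem_ch h).1 hy2
  obtain ⟨-, i7, j7⟩ := (mem_ch h).1 hv1
  obtain ⟨-, i8, j8⟩ := (mem_ch h).1 hv2
  have k8 := (Real.cos_eq_one_iff_of_lt_of_lt (by linarith) (by linarith)).1 k7
  linarith

private theorem DEA_cos {a b : ℕ} (ha : a < 8) (hb : b < 8)
    (hab : (b + 8 - a) % 8 = 3 ∨ (b + 8 - a) % 8 = 4) {γ : ℝ} (h1 : (b : ℝ) * (π / 4) ≤ γ)
    (h2 : γ < ((b : ℝ) + 1) * (π / 4)) : cos (γ - a * (π / 4)) < 0 := by
  have hπ := Real.pi_pos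
  have hc : b = a + 3 ∨ b = a + 4 ∨ a = b + 5 ∨ a = b + 4 := by omega
  rcases hc with h | h | h | h
  · subst h
    push_cast at h1 h2
    apply Real.cos_neg_of_pi_div_two_lt_of_lt <;> linarith
  · subst h
    push_cast at h1 h2
    apply Real.cos_neg_of_pi_div_two_lt_of_lt <;> linarith
  · subst h
    push_cast
    rw [← Real.cos_neg]
    apply Real.cos_neg_of_pi_div_two_lt_of_lt <;> linarith
  · subst h
    push_cast
    rw [← Real.cos_neg]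
    apply Real.cos_neg_of_pi_div_two_lt_of_lt <;> linarith

private theorem DEA_dec {V : Finset ℂ} {α : ℂ → ℝ} (h : Nrm V α) {a b : ℕ} (ha : a < 8)
    (hb : b < 8) (hab : (b + 8 - a) % 8 = 3 ∨ (b + 8 - a) % 8 = 4) {y v : ℂ}
    (hy : y ∈ ch V α b) (hv : v ∈ ch V α b) (hlt : α y < α v) :
    ax (a * (π / 4)) v < ax (a * (π / 4)) y := by
  obtain ⟨γ, q, f1, f2, f3, f4, f5⟩ := DEA_dir h hy hv hlt
  obtain ⟨-, i5, j5⟩ := (mem_ch h).1 hy
  obtain ⟨-, i6, j6⟩ := (mem_ch h).1 hv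
  have hc := DEA_cos ha hb hab (γ := γ) (by linarith) (by linarith)
  have h1 : ax (a * (π / 4)) (v - y) = q * cos (γ - a * (π / 4)) := by
    rw [f4, ax, cos_sub]
    ring
  rw [ax_sub] at h1
  have h2 : q * cos (γ - a * (π / 4)) < 0 := mul_neg_of_pos_of_neg f3 hc
  linarith

private theorem DEA_far {V : Finset ℂ} {α : ℂ → ℝ} (h : Nrm V α) {a b : ℕ} (ha : a < 8)
    (hb : b < 8) (hab : (b + 8 - a) % 8 = 3 ∨ (b + 8 - a) % 8 = 4)
    {x1 x2 u1 y1 y2 v2 : ℂ} {β β' γ γ' R : ℝ}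
    (hx2 : x2 ∈ ch V α a) (hu1 : u1 ∈ ch V α a) (hy1 : y1 ∈ ch V α b) (hv2 : v2 ∈ ch V α b)
    (b1 : β < α x2) (b2 : α u1 < β') (b3 : α y1 < γ) (b4 : γ' < α v2) (hang : γ - β = γ' - β')
    (hle : α x2 ≤ α u1) (e4 : dist x1 y2 = dist u1 v2)
    (r1 : dist x1 x2 ≤ R) (r3 : dist x2 y1 ≤ R) (r4 : dist x1 y2 ≤ R) : dist x1 u1 ≤ 5 * R := by
  have h1 : α y1 < α v2 := by linarith
  have h2 := DEA_dec h ha hb hab hy1 hv2 h1
  have hπ := Real.pi_pos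
  have h3 := ch_ax h hx2 hu1 hle (θ := a * (π / 4)) le_rfl (by linarith)
  have h4 := ax_abs (a * (π / 4)) (u1 - v2)
  have h5 := ax_abs (a * (π / 4)) (y1 - x2)
  rw [ax_sub, ← dist_eq_norm, ← e4] at h4
  rw [ax_sub, ← dist_eq_norm, dist_comm] at h5
  rw [ax_sub] at h3
  have h6 := (abs_le.1 h4).2
  have h7 := (abs_le.1 h5).2
  have h8 := dist_triangle x1 x2 u1
  linarith

theorem same_type {V : Finset ℂ} {α : ℂ → ℝ} (h : Nrm V α) {a b : ℕ} (ha : a < 8) (hb : b < 8)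
    (hab : (b + 8 - a) % 8 = 3 ∨ (b + 8 - a) % 8 = 4) {x1 x2 u1 u2 y1 y2 v1 v2 : ℂ}
    (hx1 : x1 ∈ ch V α a) (hx2 : x2 ∈ ch V α a) (hu1 : u1 ∈ ch V α a) (hu2 : u2 ∈ ch V α a)
    (hy1 : y1 ∈ ch V α b) (hy2 : y2 ∈ ch V α b) (hv1 : v1 ∈ ch V α b) (hv2 : v2 ∈ ch V α b)
    (hx : α x1 < α x2) (hu : α u1 < α u2) (hy : α y1 < α y2) (hv : α v1 < α v2)
    (e1 : dist x1 x2 = dist u1 u2) (e2 : dist x1 y1 = dist u1 v1) (e3 : dist x2 y1 = dist u2 v1)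
    (e4 : dist x1 y2 = dist u1 v2) (e5 : dist x2 y2 = dist u2 v2) {R : ℝ}
    (r1 : dist x1 x2 ≤ R) (r2 : dist x1 y1 ≤ R) (r3 : dist x2 y1 ≤ R) (r4 : dist x1 y2 ≤ R)
    (r5 : dist x2 y2 ≤ R) : dist x1 u1 ≤ 5 * R := by
  have hne : a ≠ b := by omega
  have hR : 0 ≤ R := dist_nonneg.trans r1
  obtain ⟨β, β', γ, γ', ⟨c1, c2⟩, ⟨d1, d2⟩, ⟨f1, f2⟩, ⟨g1, g2⟩, hang⟩ :=
    DEA_ang h hne hx1 hx2 hu1 hu2 hy1 hy2 hv1 hv2 hx hu hy hv e1 e2 e3 e4 e5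
  by_cases h1 : α x2 ≤ α u1
  · exact DEA_far h ha hb hab hx2 hu1 hy1 hv2 c2 d1 f1 g2 hang h1 e4 r1 r3 r4
  by_cases h2 : α u2 ≤ α x1
  · rw [dist_comm]
    exact DEA_far h ha hb hab hu2 hx1 hv1 hy2 d2 c1 g1 f2 hang.symm h2 e4.symm (e1 ▸ r1)
      (e3 ▸ r3) (e4 ▸ r4)
  push Not at h1 h2
  rcases le_or_gt (α x1) (α u1) with h3 | h3
  · have := ch_mono4 h hx1 hx1 hu1 hx2 le_rfl h3 h1.le
    linarith
  · have := ch_mono4 h hu1 hu1 hx1 hu2 le_rfl h3.le h2.le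
    rw [dist_comm]
    linarith

end Pool.Agent.H83.CP
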