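import Pool.Agent.H83.CP.DC
import Pool.Agent.H83.CP.DEA

/-!
# DEQ: blocks are bounded in number

`Qset`: the blocks `((x1, x2), (y1, y2))` with all five distances `≤ R`.
`Q_card`: the type map to the 5 distances has values in `D ×ˢ D ×ˢ D ×ˢ D ×ˢ D`, `D = dle A (L r)` (the points are different: `α x1 < α x2`, different sectors),
`D.card ≤ C + B k L + t` (`dle_card`). In a fibre fix one block `((u1, u2), (v1, v2))`; for any other block of the same type `dist x1 u1 ≤ 5 L r` (`same_type`, `R = L r`), so `x1, x2, y1, y2`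
are all within `6 L r` of `u1`, i.e. in a set of at most `B k (6 L)` points of `V` (`disc_V`); so the fibre has at most `(B k (6 L)) ^ 4` elements
(`Finset.card_le_mul_card_image`).
-/

set_option autoImplicit false

open Real

noncomputable section

namespace Pool.Agent.H83.CP

/-- blocks -/
def Qset (V : Finset ℂ) (α : ℂ → ℝ) (a b : ℕ) (R : ℝ) : Finset ((ℂ × ℂ) × (ℂ × ℂ)) :=
  (((ch V α a) ×ˢ (ch V α a)) ×ˢ ((ch V α b) ×ˢ (ch V α b))).filter (fun q =>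
    α q.1.1 < α q.1.2 ∧ α q.2.1 < α q.2.2 ∧ dist q.1.1 q.1.2 ≤ R ∧ dist q.1.1 q.2.1 ≤ R ∧
    dist q.1.2 q.2.1 ≤ R ∧ dist q.1.1 q.2.2 ≤ R ∧ dist q.1.2 q.2.2 ≤ R)

/-- the type of a block -/
def DEQ_f (q : (ℂ × ℂ) × (ℂ × ℂ)) : ℝ × ℝ × ℝ × ℝ × ℝ :=
  (dist q.1.1 q.1.2, dist q.1.1 q.2.1, dist q.1.2 q.2.1, dist q.1.1 q.2.2, dist q.1.2 q.2.2)

theorem DEQ_mem {V : Finset ℂ} {α : ℂ → ℝ} {a b : ℕ} {R : ℝ} {q : (ℂ × ℂ) × (ℂ × ℂ)} :
    q ∈ Qset V α a b R ↔ ((q.1.1 ∈ ch V α a ∧ q.1.2 ∈ ch V α a) ∧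
      (q.2.1 ∈ ch V α b ∧ q.2.2 ∈ ch V α b)) ∧
    α q.1.1 < α q.1.2 ∧ α q.2.1 < α q.2.2 ∧ dist q.1.1 q.1.2 ≤ R ∧ dist q.1.1 q.2.1 ≤ R ∧
    dist q.1.2 q.2.1 ≤ R ∧ dist q.1.1 q.2.2 ≤ R ∧ dist q.1.2 q.2.2 ≤ R := by
  unfold Qset
  rw [Finset.mem_filter, Finset.mem_product, Finset.mem_product, Finset.mem_product]

theorem DEQ_dle {A : Finset ℂ} {x y : ℂ} {R : ℝ} (hx : x ∈ A) (hy : y ∈ A) (hxy : x ≠ y)
    (h : dist x y ≤ R) : dist x y ∈ dle A R := by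
  unfold dle dst
  rw [Finset.mem_filter, Finset.mem_image]
  exact ⟨⟨(x, y), Finset.mem_offDiag.2 ⟨hx, hy, hxy⟩, rfl⟩, h⟩

theorem DEQ_ne {V : Finset ℂ} {α : ℂ → ℝ} {a b : ℕ} (hab : a ≠ b) {x y : ℂ}
    (hx : x ∈ ch V α a) (hy : y ∈ ch V α b) : x ≠ y := by
  rintro rfl
  exact hab ((Finset.mem_filter.1 hx).2.symm.trans (Finset.mem_filter.1 hy).2)

theorem Q_card {A V : Finset ℂ} {α : ℂ → ℝ} {C t : ℕ} (h : Cfg A V α C t) {r : ℝ} (hr : 0 < r)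
    {a b : ℕ} (ha : a < 8) (hb : b < 8) (hab : (b + 8 - a) % 8 = 3 ∨ (b + 8 - a) % 8 = 4)
    {L : ℕ} (hL : 1 ≤ L) :
    (Qset V α a b ((L : ℝ) * r)).card ≤
      (C + B (dle A r).card L + t) ^ 5 * (B (dle A r).card (6 * L)) ^ 4 := by
  have _ := hL
  have hne : a ≠ b := by omega
  set R : ℝ := (L : ℝ) * r with hR
  have hR0 : 0 ≤ R := by positivity
  set D := dle A R with hD
  set Q := Qset V α a b R with hQ
  have hDc : D.card ≤ C + B (dle A r).card L + t := dle_card h hr L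
  have himg : (Q.image DEQ_f).card ≤ (C + B (dle A r).card L + t) ^ 5 := by
    have hsub : Q.image DEQ_f ⊆ D ×ˢ (D ×ˢ (D ×ˢ (D ×ˢ D))) := by
      intro c hc
      obtain ⟨q, hq, rfl⟩ := Finset.mem_image.1 hc
      obtain ⟨⟨⟨m1, m2⟩, m3, m4⟩, o1, o2, r1, r2, r3, r4, r5⟩ := DEQ_mem.1 hq
      have A1 := h.sub (DB_mem m1)
      have A2 := h.sub (DB_mem m2)
      have A3 := h.sub (DB_mem m3)
      have A4 := h.sub (DB_mem m4)
      unfold DEQ_f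
      simp only [Finset.mem_product]
      refine ⟨DEQ_dle A1 A2 ?_ r1, DEQ_dle A1 A3 (DEQ_ne hne m1 m3) r2,
        DEQ_dle A2 A3 (DEQ_ne hne m2 m3) r3, DEQ_dle A1 A4 (DEQ_ne hne m1 m4) r4,
        DEQ_dle A2 A4 (DEQ_ne hne m2 m4) r5⟩
      intro he
      rw [he] at o1
      exact lt_irrefl _ o1
    refine (Finset.card_le_card hsub).trans ?_
    simp only [Finset.card_product]
    calc D.card * (D.card * (D.card * (D.card * D.card))) = D.card ^ 5 := by ring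
      _ ≤ _ := Nat.pow_le_pow_left hDc 5
  have hfib : ∀ c ∈ Q.image DEQ_f, (Q.filter (fun q => DEQ_f q = c)).card ≤
      (B (dle A r).card (6 * L)) ^ 4 := by
    intro c hc
    obtain ⟨u, hu, rfl⟩ := Finset.mem_image.1 hc
    obtain ⟨⟨⟨n1, n2⟩, n3, n4⟩, p1, p2, s1, s2, s3, s4, s5⟩ := DEQ_mem.1 hu
    set S := V.filter (fun x => dist x u.1.1 ≤ ((6 * L : ℕ) : ℝ) * r) with hS
    have hSc : S.card ≤ B (dle A r).card (6 * L) := disc_V h.nrm h.sub hr (6 * L) u.1.1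
    have h6 : ((6 * L : ℕ) : ℝ) * r = 6 * R := by rw [hR]; push_cast; ring
    have hsub : Q.filter (fun q => DEQ_f q = DEQ_f u) ⊆ (S ×ˢ S) ×ˢ (S ×ˢ S) := by
      intro q hq
      rw [Finset.mem_filter] at hq
      obtain ⟨hq, he⟩ := hq
      obtain ⟨⟨⟨m1, m2⟩, m3, m4⟩, o1, o2, r1, r2, r3, r4, r5⟩ := DEQ_mem.1 hq
      unfold DEQ_f at he
      simp only [Prod.mk.injEq] at he
      obtain ⟨e1, e2, e3, e4, e5⟩ := he
      have hst := same_type h.nrm ha hb hab m1 m2 n1 n2 m3 m4 n3 n4 o1 p1 o2 p2 e1 e2 e3 e4 e5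
        r1 r2 r3 r4 r5
      simp only [Finset.mem_product, hS, Finset.mem_filter, h6]
      refine ⟨⟨⟨DB_mem m1, by linarith⟩, ⟨DB_mem m2, ?_⟩⟩, ⟨⟨DB_mem m3, ?_⟩, ⟨DB_mem m4, ?_⟩⟩⟩
      · have := dist_triangle q.1.2 q.1.1 u.1.1
        rw [dist_comm q.1.2 q.1.1] at this
        linarith
      · have := dist_triangle q.2.1 q.1.1 u.1.1
        rw [dist_comm q.2.1 q.1.1] at this
        linarith
      · have := dist_triangle q.2.2 q.1.1 u.1.1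
        rw [dist_comm q.2.2 q.1.1] at this
        linarith
    refine (Finset.card_le_card hsub).trans ?_
    simp only [Finset.card_product]
    calc S.card * S.card * (S.card * S.card) = S.card ^ 4 := by ring
      _ ≤ _ := Nat.pow_le_pow_left hSc 4
  have := Finset.card_le_mul_card_image Q _ hfib
  calc Q.card ≤ (B (dle A r).card (6 * L)) ^ 4 * (Q.image DEQ_f).card := this
    _ ≤ (B (dle A r).card (6 * L)) ^ 4 * (C + B (dle A r).card L + t) ^ 5 :=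
        Nat.mul_le_mul_left _ himg
    _ = _ := Nat.mul_comm _ _

end Pool.Agent.H83.CP
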