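import Mathlib

/-!
# Low-multiplicity distances in convex position: definitions

Paper proof: /team-store/H83_78a685.md. Points are complex numbers. `A` is the point set, `V ⊆ A` the part in convex
position; every `x ∈ V` has an angle `α x` such that `x` is the strict maximum on `V` of the inner product with the unit
vector of angle `α x`.
-/

set_option autoImplicit false

open Real

noncomputable section

namespace Pool.Agent.H83.CP

/-- distances of `A` -/
def dst (A : Finset ℂ) : Finset ℝ := A.offDiag.image (fun p => dist p.1 p.2)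

/-- number of ordered pairs at distance `d` -/
def mul (A : Finset ℂ) (d : ℝ) : ℕ := (A.offDiag.filter (fun p => dist p.1 p.2 = d)).card

/-- low distances -/
def low (A : Finset ℂ) : Finset ℝ := (dst A).filter (fun d => mul A d ≤ 2 * A.card)

/-- distances `≤ r` -/
def dle (A : Finset ℂ) (r : ℝ) : Finset ℝ := (dst A).filter (fun d => d ≤ r)

/-- high distances `≤ r` -/
def hi (A : Finset ℂ) (r : ℝ) : Finset ℝ := (dst A).filter (fun d => d ≤ r ∧ 2 * A.card < mul A d)

/-- inner product with the unit vector of angle `θ` -/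
def pr (θ : ℝ) (z : ℂ) : ℝ := z.re * cos θ + z.im * sin θ

/-- inner product with the unit vector of angle `θ + π / 2` -/
def ax (θ : ℝ) (z : ℂ) : ℝ := z.im * cos θ - z.re * sin θ

/-- the cross product -/
def crs (z w : ℂ) : ℝ := z.re * w.im - z.im * w.re

/-- every point of `V` is strictly extreme in the direction `α` -/
structure Nrm (V : Finset ℂ) (α : ℂ → ℝ) : Prop where
  rng : ∀ x ∈ V, 0 ≤ α x ∧ α x < 2 * π
  ext : ∀ x ∈ V, ∀ y ∈ V, y ≠ x → 0 < pr (α x) (x - y)

/-- the sector of a point (`0, ..., 7` on `V`) -/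
def sec (α : ℂ → ℝ) (x : ℂ) : ℕ := ⌊α x / (π / 4)⌋₊

/-- the chain of the sector `a`, ordered by `α` -/
def ch (V : Finset ℂ) (α : ℂ → ℝ) (a : ℕ) : Finset ℂ := V.filter (fun x => sec α x = a)

/-- the standing hypotheses -/
structure Cfg (A V : Finset ℂ) (α : ℂ → ℝ) (C t : ℕ) : Prop where
  sub : V ⊆ A
  nrm : Nrm V α
  ext : (A \ V).card ≤ t
  lowc : (low A).card ≤ C

/-- forward partners of `x` at high distances `≤ r` in the chain of `x` -/
def fw (A V : Finset ℂ) (α : ℂ → ℝ) (r : ℝ) (x : ℂ) : Finset ℂ :=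
  V.filter (fun y => sec α y = sec α x ∧ α x < α y ∧ dist x y ∈ hi A r)

/-- deficiency -/
def df (A V : Finset ℂ) (α : ℂ → ℝ) (r : ℝ) (x : ℂ) : ℕ := (hi A r).card - (fw A V α r x).card

/-- `z` is isolated in its chain at the scale `M r` -/
def iso (V : Finset ℂ) (α : ℂ → ℝ) (M : ℕ) (r : ℝ) (z : ℂ) : Prop :=
  ∀ z' ∈ V, sec α z' = sec α z → z' ≠ z → (M : ℝ) * r < dist z z'

/-- bound for the number of points of `V` in a disc of radius `L r`, `k` the number of distances `≤ r` -/
def B (k L : ℕ) : ℕ := 8 * ((4 * L + 2) * (k + 1))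

/-- chord of `m` steps on the circle of radius `ρ` with the angle `τ` per step -/
def F (ρ τ : ℝ) (m : ℕ) : ℝ := 2 * ρ * sin (m * τ / 2)

/-- exceptional distances: `≤ F K` and different from `F 1, ..., F K` -/
def exc (A : Finset ℂ) (ρ τ : ℝ) (K : ℕ) : Finset ℝ :=
  dle A (F ρ τ K) \ (Finset.Icc 1 K).image (F ρ τ)

/-- Gram determinant (times 8) of `z - y1, y2 - y1, y3 - y1` in terms of the squared distances
`P, Q, S` of `z` to `y1, y2, y3` and `A = |y1 y2|²`, `B = |y2 y3|²`, `C = |y1 y3|²` -/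
def gd {R : Type} [CommRing R] (P Q S A B C : R) : R :=
  2 * P * (4 * A * C - (A + C - B) ^ 2) - 2 * C * (P + A - Q) ^ 2 +
    2 * (P + A - Q) * (P + C - S) * (A + C - B) - 2 * A * (P + C - S) ^ 2

/-- runs of consecutive points of a chain without deficiency -/
structure Run (A V : Finset ℂ) (α : ℂ → ℝ) (r : ℝ) (a L : ℕ) (c : ℕ → ℂ) : Prop where
  mem : ∀ i < L, c i ∈ ch V α a
  inc : ∀ i j, i < j → j < L → α (c i) < α (c j)
  cons : ∀ x ∈ ch V α a, ∀ i, i + 1 < L → α (c i) < α x → α (c (i + 1)) ≤ α x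
  df0 : ∀ i < L, df A V α r (c i) = 0

end Pool.Agent.H83.CP
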