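import Pool.Agent.H83.CP.Defs

/-!
# EAG: the Gram identity

Expand with real and imaginary parts: `dist z w ^ 2 = (z.re - w.re)^2 + (z.im - w.im)^2` (`Complex.dist_eq_re_im`, `Real.sq_sqrt`), unfold `gd`, `ring`.
-/

set_option autoImplicit false

open Real

namespace Pool.Agent.H83.CP

theorem gram (z y1 y2 y3 : ℂ) :
    gd (dist z y1 ^ 2) (dist z y2 ^ 2) (dist z y3 ^ 2) (dist y1 y2 ^ 2) (dist y2 y3 ^ 2)
      (dist y1 y3 ^ 2) = 0 := by
  have hd : ∀ u v : ℂ, dist u v ^ 2 = (u.re - v.re) ^ 2 + (u.im - v.im) ^ 2 := by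
    intro u v
    rw [Complex.dist_eq_re_im, Real.sq_sqrt (by positivity)]
  simp only [hd, gd]
  ring

end Pool.Agent.H83.CP
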