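import Pool.Agent.H83.CP.Defs

/-!
# EAL: the limit `τ → 0`

`F ρ τ m = F ρ τ 1 * φ m τ`, `φ m τ = sin (m τ / 2) / sin (τ / 2) → m` as `τ → 0+` (derivative of `sin` at `0`).
`lim_gd`: `gd` is homogeneous of degree 3, so `gd ((F j1)², ...) = (F 1)^6 gd ((φ j1)², ...)`, `F 1 > 0` for small `τ`. For every one of the finitely many tuples
`(a, b, c, j1, j2, j3) ∈ [0, K]^6` with `gd (j1², ...) ≠ 0` (integers) one has `gd ((φ j1 τ)², ...) ≠ 0` for all small `τ > 0` by continuity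
(`Filter.eventually_all`, over `Fin (K + 1)`; or `Finset` induction).
`lim_tri`: if `p + q + 1 ≤ r` then `φ r - φ p - φ q → r - p - q > 0`.
-/

set_option autoImplicit false

open Real

namespace Pool.Agent.H83.CP

open Filter Topology

/-- chord ratio -/
private noncomputable def EAL_phi (m : ℕ) (τ : ℝ) : ℝ := sin (m * τ / 2) / sin (τ / 2)

private lemma EAL_slope (m : ℕ) :
    Tendsto (fun t : ℝ => t⁻¹ * sin (m * t / 2)) (𝓝[>] 0) (𝓝 ((m : ℝ) / 2)) := by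
  have h1 : HasDerivAt (fun t : ℝ => sin ((m : ℝ) * t / 2)) ((m : ℝ) / 2) 0 := by
    have h2 : HasDerivAt (fun t : ℝ => (m : ℝ) * t / 2) ((m : ℝ) * 1 / 2) 0 :=
      ((hasDerivAt_id (0 : ℝ)).const_mul (m : ℝ)).div_const 2
    have h3 := h2.sin
    simpa using h3
  have h4 := h1.tendsto_slope_zero_right
  refine h4.congr fun t => ?_
  simp

private lemma EAL_lim (m : ℕ) : Tendsto (EAL_phi m) (𝓝[>] 0) (𝓝 (m : ℝ)) := by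
  have h1 := EAL_slope m
  have h2 := EAL_slope 1
  have h3 := h1.div h2 (by norm_num)
  have h4 : (m : ℝ) / 2 / (((1 : ℕ) : ℝ) / 2) = (m : ℝ) := by
    push_cast
    field_simp
  rw [h4] at h3
  refine h3.congr' ?_
  filter_upwards [self_mem_nhdsWithin] with t ht
  have ht0 : (t : ℝ) ≠ 0 := ne_of_gt ht
  show t⁻¹ * sin ((m : ℝ) * t / 2) / (t⁻¹ * sin (((1 : ℕ) : ℝ) * t / 2)) = EAL_phi m t
  rw [mul_div_mul_left _ _ (inv_ne_zero ht0)]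
  unfold EAL_phi
  simp

private lemma EAL_F {ρ τ : ℝ} (h1 : 0 < τ) (h2 : τ < π) (m : ℕ) :
    F ρ τ m = 2 * ρ * sin (τ / 2) * EAL_phi m τ := by
  have h3 : 0 < sin (τ / 2) := sin_pos_of_pos_of_lt_pi (by linarith) (by linarith)
  unfold F EAL_phi
  field_simp

private lemma EAL_gd_smul (s P Q S A B C : ℝ) :
    gd (s ^ 2 * P) (s ^ 2 * Q) (s ^ 2 * S) (s ^ 2 * A) (s ^ 2 * B) (s ^ 2 * C) =
      s ^ 6 * gd P Q S A B C := by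
  unfold gd
  ring

private lemma EAL_gd_cast (j1 j2 j3 a b c : ℕ) :
    ((gd ((j1 : ℤ) ^ 2) ((j2 : ℤ) ^ 2) ((j3 : ℤ) ^ 2) ((a : ℤ) ^ 2) ((b : ℤ) ^ 2) ((c : ℤ) ^ 2) : ℤ) : ℝ) =
      gd ((j1 : ℝ) ^ 2) ((j2 : ℝ) ^ 2) ((j3 : ℝ) ^ 2) ((a : ℝ) ^ 2) ((b : ℝ) ^ 2) ((c : ℝ) ^ 2) := by
  unfold gd
  push_cast
  ring

private lemma EAL_gd_lim (j1 j2 j3 a b c : ℕ) :
    Tendsto (fun τ => gd (EAL_phi j1 τ ^ 2) (EAL_phi j2 τ ^ 2) (EAL_phi j3 τ ^ 2) (EAL_phi a τ ^ 2)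
      (EAL_phi b τ ^ 2) (EAL_phi c τ ^ 2)) (𝓝[>] 0)
      (𝓝 (gd ((j1 : ℝ) ^ 2) ((j2 : ℝ) ^ 2) ((j3 : ℝ) ^ 2) ((a : ℝ) ^ 2) ((b : ℝ) ^ 2) ((c : ℝ) ^ 2))) := by
  have hc : Continuous (fun p : ℝ × ℝ × ℝ × ℝ × ℝ × ℝ => gd (p.1 ^ 2) (p.2.1 ^ 2) (p.2.2.1 ^ 2)
      (p.2.2.2.1 ^ 2) (p.2.2.2.2.1 ^ 2) (p.2.2.2.2.2 ^ 2)) := by
    unfold gd
    fun_prop
  have ht : Tendsto (fun τ => (EAL_phi j1 τ, EAL_phi j2 τ, EAL_phi j3 τ, EAL_phi a τ, EAL_phi b τ,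
      EAL_phi c τ)) (𝓝[>] 0) (𝓝 ((j1 : ℝ), (j2 : ℝ), (j3 : ℝ), (a : ℝ), (b : ℝ), (c : ℝ))) :=
    (EAL_lim j1).prodMk_nhds ((EAL_lim j2).prodMk_nhds ((EAL_lim j3).prodMk_nhds
      ((EAL_lim a).prodMk_nhds ((EAL_lim b).prodMk_nhds (EAL_lim c)))))
  have h5 := (hc.tendsto ((j1 : ℝ), (j2 : ℝ), (j3 : ℝ), (a : ℝ), (b : ℝ), (c : ℝ))).comp ht
  simpa only [Function.comp_def] using h5

private lemma EAL_tau {P : ℝ → Prop} (h : ∀ᶠ τ in 𝓝[>] (0 : ℝ), P τ) :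
    ∃ τ0 : ℝ, 0 < τ0 ∧ τ0 ≤ π ∧ ∀ τ : ℝ, 0 < τ → τ < τ0 → P τ := by
  obtain ⟨u, hu, hsub⟩ := mem_nhdsGT_iff_exists_Ioo_subset.1 h
  exact ⟨min u π, lt_min hu pi_pos, min_le_right _ _, fun τ h1 h2 =>
    hsub ⟨h1, lt_of_lt_of_le h2 (min_le_left _ _)⟩⟩

theorem lim_gd (K : ℕ) : ∃ τ0 : ℝ, 0 < τ0 ∧ ∀ τ : ℝ, 0 < τ → τ < τ0 → ∀ ρ : ℝ, 0 < ρ →
    ∀ a b c j1 j2 j3 : ℕ, a ≤ K → b ≤ K → c ≤ K → j1 ≤ K → j2 ≤ K → j3 ≤ K →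
    gd (F ρ τ j1 ^ 2) (F ρ τ j2 ^ 2) (F ρ τ j3 ^ 2) (F ρ τ a ^ 2) (F ρ τ b ^ 2) (F ρ τ c ^ 2) = 0 →
    gd ((j1 : ℤ) ^ 2) ((j2 : ℤ) ^ 2) ((j3 : ℤ) ^ 2) ((a : ℤ) ^ 2) ((b : ℤ) ^ 2) ((c : ℤ) ^ 2) = 0 := by
  have hev : ∀ᶠ τ in 𝓝[>] (0 : ℝ), ∀ a ∈ Finset.range (K + 1), ∀ b ∈ Finset.range (K + 1),
      ∀ c ∈ Finset.range (K + 1), ∀ j1 ∈ Finset.range (K + 1), ∀ j2 ∈ Finset.range (K + 1),
      ∀ j3 ∈ Finset.range (K + 1),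
      gd (EAL_phi j1 τ ^ 2) (EAL_phi j2 τ ^ 2) (EAL_phi j3 τ ^ 2) (EAL_phi a τ ^ 2)
        (EAL_phi b τ ^ 2) (EAL_phi c τ ^ 2) = 0 →
      gd ((j1 : ℤ) ^ 2) ((j2 : ℤ) ^ 2) ((j3 : ℤ) ^ 2) ((a : ℤ) ^ 2) ((b : ℤ) ^ 2) ((c : ℤ) ^ 2) = 0 := by
    simp only [Filter.eventually_all_finset]
    intro a _ b _ c _ j1 _ j2 _ j3 _
    by_cases h0 : gd ((j1 : ℤ) ^ 2) ((j2 : ℤ) ^ 2) ((j3 : ℤ) ^ 2) ((a : ℤ) ^ 2) ((b : ℤ) ^ 2)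
        ((c : ℤ) ^ 2) = 0
    · exact Eventually.of_forall fun τ _ => h0
    · have h1 : gd ((j1 : ℝ) ^ 2) ((j2 : ℝ) ^ 2) ((j3 : ℝ) ^ 2) ((a : ℝ) ^ 2) ((b : ℝ) ^ 2)
          ((c : ℝ) ^ 2) ≠ 0 := by
        rw [← EAL_gd_cast]
        exact_mod_cast h0
      filter_upwards [(EAL_gd_lim j1 j2 j3 a b c).eventually_ne h1] with τ hτ h2
      exact absurd h2 hτ
  obtain ⟨τ0, h0, hpi, h⟩ := EAL_tau hev
  refine ⟨τ0, h0, ?_⟩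
  intro τ h1 h2 ρ hρ a b c j1 j2 j3 ha hb hc hj1 hj2 hj3 he
  refine h τ h1 h2 a (Finset.mem_range.2 (by omega)) b (Finset.mem_range.2 (by omega)) c
    (Finset.mem_range.2 (by omega)) j1 (Finset.mem_range.2 (by omega)) j2
    (Finset.mem_range.2 (by omega)) j3 (Finset.mem_range.2 (by omega)) ?_
  have hs : 0 < sin (τ / 2) := sin_pos_of_pos_of_lt_pi (by linarith) (by linarith)
  simp only [EAL_F h1 (lt_of_lt_of_le h2 hpi), mul_pow (2 * ρ * sin (τ / 2))] at he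
  rw [EAL_gd_smul] at he
  have h3 : (2 * ρ * sin (τ / 2)) ^ 6 ≠ 0 := by positivity
  exact (mul_eq_zero.1 he).resolve_left h3

theorem lim_tri (K : ℕ) : ∃ τ0 : ℝ, 0 < τ0 ∧ ∀ τ : ℝ, 0 < τ → τ < τ0 → ∀ ρ : ℝ, 0 < ρ →
    ∀ p q r : ℕ, p ≤ K → q ≤ K → r ≤ K → F ρ τ r ≤ F ρ τ p + F ρ τ q → r ≤ p + q := by
  have hev : ∀ᶠ τ in 𝓝[>] (0 : ℝ), ∀ p ∈ Finset.range (K + 1), ∀ q ∈ Finset.range (K + 1),
      ∀ r ∈ Finset.range (K + 1), EAL_phi r τ ≤ EAL_phi p τ + EAL_phi q τ → r ≤ p + q := by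
    simp only [Filter.eventually_all_finset]
    intro p _ q _ r _
    by_cases h0 : r ≤ p + q
    · exact Eventually.of_forall fun τ _ => h0
    · have h1 : (p : ℝ) + q < r := by
        push Not at h0
        exact_mod_cast h0
      filter_upwards [((EAL_lim p).add (EAL_lim q)).eventually_lt (EAL_lim r) h1] with τ hτ h2
      exact absurd h2 (not_le.2 hτ)
  obtain ⟨τ0, h0, hpi, h⟩ := EAL_tau hev
  refine ⟨τ0, h0, ?_⟩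
  intro τ h1 h2 ρ hρ p q r hp hq hr he
  refine h τ h1 h2 p (Finset.mem_range.2 (by omega)) q (Finset.mem_range.2 (by omega)) r
    (Finset.mem_range.2 (by omega)) ?_
  have hs : 0 < sin (τ / 2) := sin_pos_of_pos_of_lt_pi (by linarith) (by linarith)
  rw [EAL_F h1 (lt_of_lt_of_le h2 hpi), EAL_F h1 (lt_of_lt_of_le h2 hpi),
    EAL_F h1 (lt_of_lt_of_le h2 hpi), ← mul_add] at he
  have h3 : 0 < 2 * ρ * sin (τ / 2) := by positivity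
  exact le_of_mul_le_mul_left he h3

end Pool.Agent.H83.CP
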