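import Pool.Agent.H83.CP.Defs

/-!
# EAN: the arithmetic part

Put `X0 = a² - e²`, `Y0 = c² - f²`, `Z = a² + c² - b²`, `Δ = 4 a² c² - Z²`. The hypothesis is `d2 j² + d1 j + d0 = 0` with
`d2 = 2 Δ - 8 c² e² + 8 e f Z - 8 a² f²`, `d1 = 8 c² X0 e - 4 Z (X0 f + Y0 e) + 8 a² Y0 f`, `d0 = -2 c² X0² + 2 X0 Y0 Z - 2 a² Y0²` (`ring`).
`0 ≤ X0 ≤ G²`, `0 ≤ Y0 ≤ G²`, `0 ≤ Z ≤ 2 G²`: `|d1| ≤ 32 G^5`, `|d0| ≤ 8 G^6`. As `j > 40 G^6`: `d2 = 0` (otherwise `j² ≤ |d1| j + |d0|`), then `d1 = 0` (otherwise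
`j ≤ |d0|`), so `d0 = 0`.
`2 a c - Z = (b - c + a) (b + c - a) ≥ 0`, `2 a c + Z > 0`; `Δ = 0` iff `c = a + b`.
* `Δ > 0`: `4 c² (c² X0² - X0 Y0 Z + a² Y0²) = (2 c² X0 - Y0 Z)² + Y0² Δ = 0` gives `Y0 = 0`, `X0 = 0`, `e² = a²`, `f² = c²`; `d2 = 0` becomes
  `Z² - 4 e f Z + 4 a² c² = 0` with `e f = ± a c`, i.e. `(Z ∓ 2 a c)² = 0`, so `Δ = 0`, contradiction.
* `c = a + b`: `Z = 2 a c`, `d2 = -8 (c e - a f)²`, so `c e = a f`; `d0 = -2 (c X0 - a Y0)²`, so `c X0 = a Y0`; hence `c (a - c) (a² - e²) = 0`, `a ≠ c`, `e = ± a`, and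
  `f = ± c` from `c e = a f`.
-/

set_option autoImplicit false

namespace Pool.Agent.H83.CP

private theorem EAN_mul {x y X Y : ℤ} (hx : |x| ≤ X) (hy : |y| ≤ Y) : |x * y| ≤ X * Y := by
  rw [abs_mul]
  exact mul_le_mul hx hy (abs_nonneg _) ((abs_nonneg _).trans hx)

/-- a quadratic with small coefficients and a large root vanishes -/
private theorem EAN_quad {G j d2 d1 d0 : ℤ} (hG : 1 ≤ G) (hj : 40 * G ^ 6 < j)
    (h1 : |d1| ≤ 32 * G ^ 5) (h0 : |d0| ≤ 8 * G ^ 6) (h : d2 * j ^ 2 + d1 * j + d0 = 0) :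
    d2 = 0 ∧ d0 = 0 := by
  have hG6 : 1 ≤ G ^ 6 := one_le_pow₀ hG
  have hG5 : 1 ≤ G ^ 5 := one_le_pow₀ hG
  have hG56 : G ^ 5 ≤ G ^ 6 := pow_le_pow_right₀ hG (by norm_num)
  have hj0 : 1 ≤ j := by linarith
  have e2 : d2 = 0 := by
    by_contra hne
    have k1 : 1 ≤ |d2| := Int.one_le_abs hne
    have k2 : |d2| * j ^ 2 = |d1 * j + d0| := by
      have : d2 * j ^ 2 = -(d1 * j + d0) := by linarith
      rw [← abs_of_nonneg (sq_nonneg j), ← abs_mul, this, abs_neg]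
    have k3 : |d1 * j + d0| ≤ |d1| * j + |d0| := by
      refine (abs_add_le _ _).trans ?_
      rw [abs_mul, abs_of_nonneg (by linarith : (0 : ℤ) ≤ j)]
    have k4 : |d1| * j ≤ 32 * G ^ 6 * j := by
      apply mul_le_mul_of_nonneg_right _ (by linarith)
      linarith
    have k5 : 8 * G ^ 6 * 1 ≤ 8 * G ^ 6 * j := mul_le_mul_of_nonneg_left hj0 (by linarith)
    have k6 : 1 * j ^ 2 ≤ |d2| * j ^ 2 := mul_le_mul_of_nonneg_right k1 (sq_nonneg j)
    have k7 : j * j ≤ 40 * G ^ 6 * j := by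
      have : j * j = 1 * j ^ 2 := by ring
      linarith
    have k8 := le_of_mul_le_mul_right k7 (by linarith)
    linarith
  rw [e2] at h
  have e1 : d1 = 0 := by
    by_contra hne
    have k1 : 1 ≤ |d1| := Int.one_le_abs hne
    have k2 : |d1| * j = |d0| := by
      have : d1 * j = -d0 := by linarith
      rw [← abs_neg d0, ← this, abs_mul, abs_of_nonneg (by linarith : (0 : ℤ) ≤ j)]
    have k3 : 1 * j ≤ |d1| * j := mul_le_mul_of_nonneg_right k1 (by linarith)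
    linarith
  rw [e1] at h
  exact ⟨e2, by linarith⟩

theorem ean {G a b c j e f : ℤ} (ha : 1 ≤ a) (hb : 1 ≤ b) (hac : a ≤ c) (hbc : b ≤ c)
    (hc : c ≤ G) (habc : c ≤ a + b) (he : |e| ≤ a) (hf : |f| ≤ c) (hj : 40 * G ^ 6 < j)
    (hD : gd (j ^ 2) ((j + e) ^ 2) ((j + f) ^ 2) (a ^ 2) (b ^ 2) (c ^ 2) = 0) :
    c = a + b ∧ ((e = a ∧ f = c) ∨ (e = -a ∧ f = -c)) := by
  have hG : 1 ≤ G := by linarith
  have hea : e ^ 2 ≤ a ^ 2 := by
    rw [← sq_abs e]
    exact pow_le_pow_left₀ (abs_nonneg _) he 2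
  have hfc : f ^ 2 ≤ c ^ 2 := by
    rw [← sq_abs f]
    exact pow_le_pow_left₀ (abs_nonneg _) hf 2
  have haG : a ^ 2 ≤ G ^ 2 := pow_le_pow_left₀ (by linarith) (by linarith) 2
  have hcG : c ^ 2 ≤ G ^ 2 := pow_le_pow_left₀ (by linarith) hc 2
  have hbc2 : b ^ 2 ≤ c ^ 2 := pow_le_pow_left₀ (by linarith) hbc 2
  obtain ⟨X, hX⟩ : ∃ X, X = a ^ 2 - e ^ 2 := ⟨_, rfl⟩
  obtain ⟨Y, hY⟩ : ∃ Y, Y = c ^ 2 - f ^ 2 := ⟨_, rfl⟩
  obtain ⟨Z, hZ⟩ : ∃ Z, Z = a ^ 2 + c ^ 2 - b ^ 2 := ⟨_, rfl⟩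
  obtain ⟨d2, hd2⟩ : ∃ d2, d2 = 2 * (4 * a ^ 2 * c ^ 2 - Z ^ 2) - 8 * c ^ 2 * e ^ 2 +
    8 * e * f * Z - 8 * a ^ 2 * f ^ 2 := ⟨_, rfl⟩
  obtain ⟨d1, hd1⟩ : ∃ d1, d1 = 8 * (c ^ 2 * X * e) - 4 * (Z * (X * f)) - 4 * (Z * (Y * e)) +
    8 * (a ^ 2 * Y * f) := ⟨_, rfl⟩
  obtain ⟨d0, hd0⟩ : ∃ d0, d0 = -2 * (c ^ 2 * X * X) + 2 * (X * Y * Z) - 2 * (a ^ 2 * Y * Y) :=
    ⟨_, rfl⟩
  have hq : d2 * j ^ 2 + d1 * j + d0 = 0 := by
    rw [← hD, hd2, hd1, hd0, hX, hY, hZ]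
    unfold gd
    ring
  have bc : |c ^ 2| ≤ G ^ 2 := by rw [abs_of_nonneg (sq_nonneg c)]; exact hcG
  have ba : |a ^ 2| ≤ G ^ 2 := by rw [abs_of_nonneg (sq_nonneg a)]; exact haG
  have bX : |X| ≤ G ^ 2 := by
    rw [abs_le]
    constructor <;> nlinarith [sq_nonneg e, sq_nonneg G]
  have bY : |Y| ≤ G ^ 2 := by
    rw [abs_le]
    constructor <;> nlinarith [sq_nonneg f, sq_nonneg G]
  have bZ : |Z| ≤ 2 * G ^ 2 := by
    rw [abs_le]
    constructor <;> nlinarith [sq_nonneg b, sq_nonneg G, sq_nonneg a]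
  have be : |e| ≤ G := by linarith
  have bf : |f| ≤ G := by linarith
  have b1 : |d1| ≤ 32 * G ^ 5 := by
    have t1 := abs_le.1 (EAN_mul (EAN_mul bc bX) be)
    have t2 := abs_le.1 (EAN_mul bZ (EAN_mul bX bf))
    have t3 := abs_le.1 (EAN_mul bZ (EAN_mul bY be))
    have t4 := abs_le.1 (EAN_mul (EAN_mul ba bY) bf)
    obtain ⟨t1, t1'⟩ := t1
    obtain ⟨t2, t2'⟩ := t2
    obtain ⟨t3, t3'⟩ := t3
    obtain ⟨t4, t4'⟩ := t4
    rw [hd1, abs_le]
    constructor <;> linarith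
  have b0 : |d0| ≤ 8 * G ^ 6 := by
    have t1 := abs_le.1 (EAN_mul (EAN_mul bc bX) bX)
    have t2 := abs_le.1 (EAN_mul (EAN_mul bX bY) bZ)
    have t3 := abs_le.1 (EAN_mul (EAN_mul ba bY) bY)
    obtain ⟨t1, t1'⟩ := t1
    obtain ⟨t2, t2'⟩ := t2
    obtain ⟨t3, t3'⟩ := t3
    rw [hd0, abs_le]
    constructor <;> linarith
  obtain ⟨z2, z0⟩ := EAN_quad hG hj b1 b0 hq
  rw [z2] at hd2
  rw [z0] at hd0
  have ha0 : a ≠ 0 := by omega
  have hc0 : c ≠ 0 := by omega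
  rcases eq_or_lt_of_le habc with hcab | hlt
  · -- degenerate triangle
    refine ⟨hcab, ?_⟩
    have hZ2 : Z = 2 * a * c := by rw [hZ, hcab]; ring
    have s1 : (c * e - a * f) ^ 2 = 0 := by
      rw [hZ2] at hd2
      linarith
    have s2 : c * e = a * f := by
      have := pow_eq_zero_iff (two_ne_zero) |>.1 s1
      linarith
    have s3 : (c * X - a * Y) ^ 2 = 0 := by
      rw [hZ2] at hd0
      linarith
    have s4 : c * X = a * Y := by
      have := pow_eq_zero_iff (two_ne_zero) |>.1 s3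
      linarith
    have s5 : c * (a - c) * (a ^ 2 - e ^ 2) = 0 := by
      rw [hX, hY] at s4
      linear_combination a * s4 + (c * e + a * f) * s2
    have s6 : a ^ 2 - e ^ 2 = 0 := by
      rcases mul_eq_zero.1 s5 with h | h
      · rcases mul_eq_zero.1 h with h | h
        · exact absurd h hc0
        · omega
      · exact h
    have s7 : (e - a) * (e + a) = 0 := by linear_combination -s6
    rcases mul_eq_zero.1 s7 with h | h
    · left
      have h1 : e = a := by linarith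
      refine ⟨h1, ?_⟩
      rw [h1] at s2
      exact mul_left_cancel₀ ha0 (by linarith)
    · right
      have h1 : e = -a := by linarith
      refine ⟨h1, ?_⟩
      rw [h1] at s2
      exact mul_left_cancel₀ ha0 (by linarith)
  · exfalso
    have hZa : 0 < 2 * a * c - Z := by
      have h1 : 0 < (b - c + a) * (b + c - a) := mul_pos (by linarith) (by linarith)
      rw [hZ]
      linarith
    have hZb : 0 < 2 * a * c + Z := by
      have h1 : 0 < a * c := mul_pos (by linarith) (by linarith)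
      rw [hZ]
      nlinarith [sq_nonneg a]
    have hΔ : 0 < 4 * a ^ 2 * c ^ 2 - Z ^ 2 := by
      have := mul_pos hZa hZb
      linarith
    have s1 : (2 * c ^ 2 * X - Y * Z) ^ 2 + Y ^ 2 * (4 * a ^ 2 * c ^ 2 - Z ^ 2) = 0 := by
      linear_combination 2 * c ^ 2 * hd0
    have s2 : Y = 0 := by
      by_contra hY0
      have h1 : 0 < Y ^ 2 := by positivity
      have h2 := mul_pos h1 hΔ
      have h3 := sq_nonneg (2 * c ^ 2 * X - Y * Z)
      linarith
    have s3 : X = 0 := by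
      rw [s2] at s1
      have h1 : (2 * c ^ 2 * X) ^ 2 = 0 := by linarith
      have h2 := pow_eq_zero_iff (two_ne_zero) |>.1 h1
      rcases mul_eq_zero.1 h2 with h | h
      · exact absurd h (by positivity)
      · exact h
    have s4 : e ^ 2 = a ^ 2 := by linarith
    have s5 : f ^ 2 = c ^ 2 := by linarith
    have s6 : (e - a) * (e + a) = 0 := by linear_combination s4
    have s7 : (f - c) * (f + c) = 0 := by linear_combination s5
    have s8 : e * f = a * c ∨ e * f = -(a * c) := by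
      rcases mul_eq_zero.1 s6 with h | h <;> rcases mul_eq_zero.1 s7 with h' | h'
      · left
        have h1 : e = a := by linarith
        have h2 : f = c := by linarith
        rw [h1, h2]
      · right
        have h1 : e = a := by linarith
        have h2 : f = -c := by linarith
        rw [h1, h2]
        ring
      · right
        have h1 : e = -a := by linarith
        have h2 : f = c := by linarith
        rw [h1, h2]
        ring
      · left
        have h1 : e = -a := by linarith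
        have h2 : f = -c := by linarith
        rw [h1, h2]
        ring
    have s9 : Z ^ 2 - 4 * (e * f) * Z + 4 * a ^ 2 * c ^ 2 = 0 := by
      rw [s4, s5] at hd2
      linarith
    rcases s8 with h | h
    · rw [h] at s9
      have h1 : (2 * a * c - Z) ^ 2 = 0 := by linarith
      have h2 := pow_eq_zero_iff (two_ne_zero) |>.1 h1
      linarith
    · rw [h] at s9
      have h1 : (2 * a * c + Z) ^ 2 = 0 := by linarith
      have h2 := pow_eq_zero_iff (two_ne_zero) |>.1 h1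
      linarith

end Pool.Agent.H83.CP
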