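import Pool.Agent.H83.CP.Defs

/-!
# SN: small steps

`τ0 := 1 / (3 K + 1)`, so `x := m τ / 2 ≤ 1 / 2` for `m ≤ 3 K`, and `3 K τ < 1`.
(a) `sin` is strictly increasing on `[0, 1/2]`. (b) `sin (m x) ≤ m sin x` (induction, `sin ((m+1) x) = sin (m x) cos x + cos (m x) sin x`).
(c) `m sin (τ/2) ≤ m τ / 2 ≤ 2 sin (m τ / 2)` (`Real.mul_le_sin`, `2 / π ≥ 1 / 2`). (d) `sin (3 y) = 3 sin y - 4 sin³ y ≥ 2 sin y` for `0 ≤ sin y ≤ y ≤ 1/2`.
(e) `F (3 K) ≤ 2 ρ (3 K τ / 2) < ρ`; and `2 F K ≤ F (3 K) < ρ`.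
-/

set_option autoImplicit false

open Real

namespace Pool.Agent.H83.CP

theorem SN_sin_mul {x : ℝ} (hx : 0 ≤ x) (m : ℕ) : (m : ℝ) * x ≤ 1 / 2 →
    sin (m * x) ≤ m * sin x := by
  induction m with
  | zero =>
    intro _
    simp
  | succ m ih =>
    intro h
    push_cast at h ⊢
    have hmx : 0 ≤ (m : ℝ) * x := by positivity
    have h1 : (m : ℝ) * x ≤ 1 / 2 := by linarith
    have h2 := ih h1
    have hpi := Real.pi_gt_three
    have h3 : 0 ≤ sin x := sin_nonneg_of_nonneg_of_le_pi hx (by linarith)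
    have h4 : 0 ≤ sin (m * x) := sin_nonneg_of_nonneg_of_le_pi hmx (by linarith)
    have h5 := cos_le_one x
    have h6 := cos_le_one (m * x)
    rw [add_mul, one_mul, sin_add]
    nlinarith

theorem SN_half {y : ℝ} (hy : 0 ≤ y) (hy1 : y ≤ 1 / 2) : y ≤ 2 * sin y := by
  have hpi := Real.pi_gt_three
  have hpi4 := Real.pi_le_four
  have h1 := Real.mul_le_sin hy (by linarith)
  have h2 : 1 / 2 ≤ 2 / π := by
    rw [le_div_iff₀ (by linarith)]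
    linarith
  nlinarith

theorem small_sine (K : ℕ) : ∃ τ0 : ℝ, 0 < τ0 ∧ ∀ τ : ℝ, 0 < τ → τ < τ0 → ∀ ρ : ℝ, 0 < ρ →
    (∀ m n : ℕ, m < n → n ≤ 3 * K → F ρ τ m < F ρ τ n) ∧
    (∀ m : ℕ, m ≤ 3 * K → F ρ τ m ≤ m * F ρ τ 1) ∧
    (∀ m : ℕ, m ≤ 3 * K → m * F ρ τ 1 ≤ 2 * F ρ τ m) ∧
    (∀ m : ℕ, m ≤ K → 2 * F ρ τ m ≤ F ρ τ (3 * m)) ∧ F ρ τ (3 * K) < ρ ∧
    ((3 * K : ℕ) : ℝ) * τ < 1 := by
  have hK : (0 : ℝ) < 3 * (K : ℝ) + 1 := by positivity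
  refine ⟨1 / (3 * (K : ℝ) + 1), by positivity, ?_⟩
  intro τ hτ hτ0 ρ hρ
  rw [lt_div_iff₀ hK] at hτ0
  have hK0 : (0 : ℝ) ≤ K := Nat.cast_nonneg K
  have h3 : 3 * (K : ℝ) * τ < 1 := by nlinarith
  have hpi := Real.pi_gt_three
  have hle : ∀ m : ℕ, m ≤ 3 * K → 0 ≤ (m : ℝ) * τ / 2 ∧ (m : ℝ) * τ / 2 ≤ 1 / 2 := by
    intro m hm
    have hm' : (m : ℝ) ≤ 3 * K := by exact_mod_cast hm
    have hm0 : (0 : ℝ) ≤ m := Nat.cast_nonneg m
    constructor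
    · positivity
    · nlinarith
  have e1 : F ρ τ 1 = 2 * ρ * sin (τ / 2) := by
    unfold F
    rw [Nat.cast_one, one_mul]
  refine ⟨?_, ?_, ?_, ?_, ?_, ?_⟩
  · intro m n hmn hn
    unfold F
    apply mul_lt_mul_of_pos_left _ (by linarith)
    have h4 := hle m (by omega)
    have h5 := hle n hn
    apply Real.strictMonoOn_sin ⟨by linarith, by linarith⟩ ⟨by linarith, by linarith⟩
    have h6 : (m : ℝ) < n := by exact_mod_cast hmn
    have h7 : (m : ℝ) * τ < n * τ := mul_lt_mul_of_pos_right h6 hτ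
    linarith
  · intro m hm
    rw [e1]
    unfold F
    have h4 := hle m hm
    have h5 := SN_sin_mul (x := τ / 2) (by linarith) m (by linarith [h4.2])
    have h6 : (m : ℝ) * (τ / 2) = m * τ / 2 := by ring
    rw [h6] at h5
    have h7 := mul_le_mul_of_nonneg_left h5 (by linarith : 0 ≤ 2 * ρ)
    linarith
  · intro m hm
    rw [e1]
    unfold F
    have h4 := hle m hm
    have h5 := SN_half h4.1 h4.2
    have h6 : sin (τ / 2) ≤ τ / 2 := Real.sin_le (by linarith)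
    have hm0 : (0 : ℝ) ≤ m := Nat.cast_nonneg m
    have h7 : (m : ℝ) * sin (τ / 2) ≤ 2 * sin (m * τ / 2) := by nlinarith
    have h8 := mul_le_mul_of_nonneg_left h7 (by linarith : 0 ≤ 2 * ρ)
    linarith
  · intro m hm
    unfold F
    have h4 := hle (3 * m) (by omega)
    push_cast at h4 ⊢
    have h5 : 3 * (m : ℝ) * τ / 2 = 3 * (m * τ / 2) := by ring
    rw [h5] at h4 ⊢
    rw [Real.sin_three_mul]
    have h6 : 0 ≤ (m : ℝ) * τ / 2 := by linarith [h4.1]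
    have h7 : (m : ℝ) * τ / 2 ≤ 1 / 6 := by linarith [h4.2]
    have h8 : sin (m * τ / 2) ≤ m * τ / 2 := Real.sin_le h6
    have h9 : 0 ≤ sin (m * τ / 2) := sin_nonneg_of_nonneg_of_le_pi h6 (by linarith)
    have h10 : sin (m * τ / 2) ≤ 1 / 6 := by linarith
    generalize sin (m * τ / 2) = s at *
    have h11 : 0 ≤ s * (1 - 4 * s ^ 2) := mul_nonneg h9 (by nlinarith)
    nlinarith
  · unfold F
    have h4 := hle (3 * K) le_rfl
    have h5 : sin (((3 * K : ℕ) : ℝ) * τ / 2) ≤ ((3 * K : ℕ) : ℝ) * τ / 2 := Real.sin_le h4.1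
    have h6 : ((3 * K : ℕ) : ℝ) * τ / 2 < 1 / 2 := by
      push_cast
      linarith
    nlinarith
  · push_cast
    exact h3

end Pool.Agent.H83.CP
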