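import Pool.Agent.H83.CP.EAN
import Pool.Agent.H83.CP.EAG
import Pool.Agent.H83.CP.EAL
import Pool.Agent.H83.CP.CLA
import Pool.Agent.H83.CP.CLB
import Pool.Agent.H83.CP.SN

/-!
# EC: a point with typical distances to a small typical triple, far from it, is on its circle

`K' := max K G`. `τ0` = minimum of those of `lim_gd K'`, `lim_tri K'`, `small_sine K'`. `gram` and `lim_gd` give `gd (j1², j2², j3², a², b², c²) = 0` in `ℤ`. Triangle inequalities
(`dist_triangle`) and `lim_tri`: `c ≤ a + b`, `j2 ≤ j1 + a`, `j1 ≤ j2 + a`, `j3 ≤ j1 + c`, `j1 ≤ j3 + c`. `ean` with `j = j1`, `e = j2 - j1`, `f = j3 - j1`: `c = a + b` and either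
`j2 = j1 + a`, `j3 = j1 + a + b`: `circ`; or `j2 = j1 - a`, `j3 = j1 - a - b`: `circ` for `(y3, y2, y1)`, `(b, a)`, `j3`. (`j1 ≤ K' `, `(3 K') τ < 1 < π`.)
-/

set_option autoImplicit false

open Real

namespace Pool.Agent.H83.CP

theorem ea_circ (G K : ℕ) : ∃ τ0 : ℝ, 0 < τ0 ∧ ∀ τ : ℝ, 0 < τ → τ < τ0 → ∀ ρ : ℝ, 0 < ρ →
    ∀ a b c j1 j2 j3 : ℕ, 1 ≤ a → 1 ≤ b → a ≤ c → b ≤ c → c ≤ G → 40 * G ^ 6 < j1 → j1 ≤ K →
    1 ≤ j2 → j2 ≤ K → 1 ≤ j3 → j3 ≤ K → ∀ y1 y2 y3 z : ℂ, dist y1 y2 = F ρ τ a →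
    dist y2 y3 = F ρ τ b → dist y1 y3 = F ρ τ c → dist z y1 = F ρ τ j1 → dist z y2 = F ρ τ j2 →
    dist z y3 = F ρ τ j3 →
    ∃ o : ℂ, dist y1 o = ρ ∧ dist y2 o = ρ ∧ dist y3 o = ρ ∧ dist z o = ρ := by
  obtain ⟨τ1, hτ1, h1⟩ := lim_gd (max K G)
  obtain ⟨τ2, hτ2, h2⟩ := lim_tri (max K G)
  obtain ⟨τ3, hτ3, h3⟩ := small_sine (max K G)
  refine ⟨min τ1 (min τ2 τ3), lt_min hτ1 (lt_min hτ2 hτ3), ?_⟩
  intro τ hτ hlt ρ hρ a b c j1 j2 j3 ha hb hac hbc hc hj1 hj1K hj2 hj2K hj3 hj3K y1 y2 y3 z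
    d12 d23 d13 e1 e2 e3
  have g1 := h1 τ hτ (lt_of_lt_of_le hlt (min_le_left _ _)) ρ hρ
  have g2 := h2 τ hτ (lt_of_lt_of_le hlt ((min_le_right _ _).trans (min_le_left _ _))) ρ hρ
  have g3 := h3 τ hτ (lt_of_lt_of_le hlt ((min_le_right _ _).trans (min_le_right _ _))) ρ hρ
  have hKK : K ≤ max K G := le_max_left _ _
  have hGK : G ≤ max K G := le_max_right _ _
  have hcK : c ≤ max K G := hc.trans hGK
  have haK : a ≤ max K G := hac.trans hcK
  have hbK : b ≤ max K G := hbc.trans hcK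
  have k1 : j1 ≤ max K G := hj1K.trans hKK
  have k2 : j2 ≤ max K G := hj2K.trans hKK
  have k3 : j3 ≤ max K G := hj3K.trans hKK
  have hgr := gram z y1 y2 y3
  rw [e1, e2, e3, d12, d23, d13] at hgr
  have hD := g1 a b c j1 j2 j3 haK hbK hcK k1 k2 k3 hgr
  have t1 : c ≤ a + b := by
    refine g2 a b c haK hbK hcK ?_
    have := dist_triangle y1 y2 y3
    rwa [d12, d23, d13] at this
  have t2 : j2 ≤ j1 + a := by
    refine g2 j1 a j2 k1 haK k2 ?_
    have := dist_triangle z y1 y2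
    rwa [d12, e1, e2] at this
  have t3 : j1 ≤ j2 + a := by
    refine g2 j2 a j1 k2 haK k1 ?_
    have := dist_triangle z y2 y1
    rwa [dist_comm y2 y1, d12, e1, e2] at this
  have t4 : j3 ≤ j1 + c := by
    refine g2 j1 c j3 k1 hcK k3 ?_
    have := dist_triangle z y1 y3
    rwa [d13, e1, e3] at this
  have t5 : j1 ≤ j3 + c := by
    refine g2 j3 c j1 k3 hcK k1 ?_
    have := dist_triangle z y3 y1
    rwa [dist_comm y3 y1, d13, e1, e3] at this
  have hmain := ean (G := (G : ℤ)) (a := (a : ℤ)) (b := (b : ℤ)) (c := (c : ℤ)) (j := (j1 : ℤ))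
    (e := (j2 : ℤ) - j1) (f := (j3 : ℤ) - j1) (by exact_mod_cast ha) (by exact_mod_cast hb)
    (by exact_mod_cast hac) (by exact_mod_cast hbc) (by exact_mod_cast hc)
    (by exact_mod_cast t1) (by rw [abs_le]; constructor <;> omega)
    (by rw [abs_le]; constructor <;> omega) (by exact_mod_cast hj1) (by
      rw [add_sub_cancel, add_sub_cancel]
      exact hD)
  obtain ⟨hcab, hcase⟩ := hmain
  have hcab' : c = a + b := by exact_mod_cast hcab
  have hpi := Real.pi_gt_three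
  have hsm : ∀ n : ℕ, n ≤ max K G → (n : ℝ) * τ < π := by
    intro n hn
    have h4 := g3.2.2.2.2.2
    have h5 : (n : ℝ) ≤ ((3 * max K G : ℕ) : ℝ) := by
      have : n ≤ 3 * max K G := by omega
      exact_mod_cast this
    have h6 : (n : ℝ) * τ ≤ ((3 * max K G : ℕ) : ℝ) * τ := mul_le_mul_of_nonneg_right h5 hτ.le
    linarith
  rcases hcase with ⟨hh1, hh2⟩ | ⟨hh1, hh2⟩
  · have q2 : j2 = j1 + a := by omega
    have q3 : j3 = j1 + a + b := by omega
    refine circ hρ hτ ha hb (by omega : 1 ≤ j1) ?_ d12 d23 ?_ e1 ?_ ?_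
    · rw [← q3]
      exact hsm j3 k3
    · rw [← hcab']
      exact d13
    · rw [← q2]
      exact e2
    · rw [← q3]
      exact e3
  · have q2 : j2 = j3 + b := by omega
    have q1 : j1 = j3 + b + a := by omega
    have q0 : c = b + a := by omega
    obtain ⟨o, o1, o2, o3, o4⟩ := circ hρ hτ hb ha hj3 (y1 := y3) (y2 := y2) (y3 := y1) (z := z)
      (by rw [← q1]; exact hsm j1 k1) (by rw [dist_comm]; exact d23) (by rw [dist_comm]; exact d12)
      (by rw [← q0, dist_comm]; exact d13) e3 (by rw [← q2]; exact e2) (by rw [← q1]; exact e1)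
    exact ⟨o, o3, o2, o1, o4⟩

end Pool.Agent.H83.CP
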