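import Pool.Agent.H83.CP.CH

/-!
# EN: enumeration of a finite set on which `α` is injective, and a sum

`enum`: let `N = S.card`; `(S.image α).orderEmbOfFin` (card `N` by injectivity) gives the increasing list of the values of `α`; compose with a choice
of preimages; extend by `0` to `ℕ`.
`tri_sum`: `∑ i ∈ range q, (m - i) ≥ q m / 2` for `q ≤ m` (natural numbers): `2 * ∑ = q (2 m - q + 1) ≥ q m`.
-/

set_option autoImplicit false

open Real

namespace Pool.Agent.H83.CP

theorem enum (S : Finset ℂ) (α : ℂ → ℝ) (hinj : ∀ x ∈ S, ∀ y ∈ S, α x = α y → x = y) :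
    ∃ c : ℕ → ℂ, (∀ i < S.card, c i ∈ S) ∧ (∀ i j, i < j → j < S.card → α (c i) < α (c j)) ∧
      (∀ x ∈ S, ∃ i < S.card, c i = x) := by
  classical
  have hcard : (S.image α).card = S.card :=
    Finset.card_image_of_injOn (fun x hx y hy h => hinj x hx y hy h)
  have hmem : ∀ i : Fin S.card, ∃ x ∈ S, α x = (S.image α).orderEmbOfFin hcard i := by
    intro i
    have h1 := Finset.orderEmbOfFin_mem (S.image α) hcard i
    obtain ⟨x, hx, hxe⟩ := Finset.mem_image.1 h1
    exact ⟨x, hx, hxe⟩
  choose g hg1 hg2 using hmem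
  have hval : ∀ (i : ℕ) (hi : i < S.card),
      (fun i => if h : i < S.card then g ⟨i, h⟩ else 0) i = g ⟨i, hi⟩ := fun i hi => dif_pos hi
  refine ⟨fun i => if h : i < S.card then g ⟨i, h⟩ else 0, ?_, ?_, ?_⟩
  · intro i hi
    rw [hval i hi]
    exact hg1 _
  · intro i j hij hj
    rw [hval i (hij.trans hj), hval j hj, hg2, hg2]
    exact ((S.image α).orderEmbOfFin hcard).strictMono (by exact hij)
  · intro x hx
    have h1 : α x ∈ Set.range ((S.image α).orderEmbOfFin hcard) := by
      rw [Finset.range_orderEmbOfFin]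
      exact Finset.mem_coe.2 (Finset.mem_image_of_mem α hx)
    obtain ⟨i, hi⟩ := h1
    refine ⟨i, i.2, ?_⟩
    rw [hval i i.2]
    exact hinj _ (hg1 _) x hx ((hg2 _).trans hi)

theorem tri_sum (m q : ℕ) (h : q ≤ m) : q * m ≤ 2 * ∑ i ∈ Finset.range q, (m - i) := by
  have key : ∀ q ≤ m, q * m + q * (m - q) ≤ 2 * ∑ i ∈ Finset.range q, (m - i) := by
    intro q
    induction q with
    | zero => intro _; simp
    | succ q ih =>
      intro hq
      have h1 := ih (by omega)
      rw [Finset.sum_range_succ]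
      obtain ⟨k, rfl⟩ : ∃ k, m = q + 1 + k := ⟨m - (q + 1), by omega⟩
      have e1 : q + 1 + k - q = k + 1 := by omega
      have e2 : q + 1 + k - (q + 1) = k := by omega
      rw [e1] at h1
      rw [e1, e2]
      nlinarith
  have := key q h
  omega

end Pool.Agent.H83.CP
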