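import Pool.Agent.H83.CP.TRB

/-!
# TRC: small typical triples

`cell` with `q = 4 C + 3`; then greedily `w1` any, `w2` outside `w1` and its `≤ 2 C` exceptional neighbours (`exc_nbr`), `w3` outside `w1, w2` and their `≤ 4 C`
exceptional neighbours; order the three by `α` (`ch_inj`). Mutual distances are `≤ 2 F K ≤ F (3 K)` and not in `exc`, so (`typ_of`) they are `F m` with `1 ≤ m ≤ 3 K`, and
`m u ≤ 2 F m ≤ 4 l u` gives `m ≤ 4 l`; `a ≤ c`, `b' ≤ c` by `ch_mono` and monotonicity of `F`.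
-/

set_option autoImplicit false

open Real

namespace Pool.Agent.H83.CP

theorem triple {A V : Finset ℂ} {α : ℂ → ℝ} {C t : ℕ} (h : Cfg A V α C t) {ρ τ : ℝ} {K : ℕ}
    (hs : Sm ρ τ K) (hK : 1 ≤ K) (he : (exc A ρ τ (3 * K)).card ≤ C) {b : ℕ} {U : Finset ℂ}
    (hU : U ⊆ ch V α b) {p : ℂ} (hp : ∀ x ∈ U, dist x p ≤ F ρ τ K) {l : ℕ} (hl : 1 ≤ l)
    (hc : (4 * C + 2) * (2 * (K / l) + 2) < U.card) :
    ∃ w1 ∈ U, ∃ w2 ∈ U, ∃ w3 ∈ U, α w1 < α w2 ∧ α w2 < α w3 ∧ ∃ a b' c : ℕ, 1 ≤ a ∧ 1 ≤ b' ∧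
      a ≤ c ∧ b' ≤ c ∧ c ≤ 4 * l ∧ dist w1 w2 = F ρ τ a ∧ dist w2 w3 = F ρ τ b' ∧
      dist w1 w3 = F ρ τ c := by
  classical
  obtain ⟨U', hU', hcard, hd⟩ := cell h hs hK hU hp (q := 4 * C + 3) hl (by omega)
    (by simpa using hc)
  have hu : 0 < F ρ τ 1 := by
    have h1 := hs.mono 0 1 (by norm_num) (by omega)
    have h2 : F ρ τ 0 = 0 := by unfold F; simp
    rwa [h2] at h1
  have hch : ∀ x ∈ U', x ∈ ch V α b := fun x hx => hU (hU' hx)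
  have hV : ∀ x ∈ U', x ∈ V := fun x hx => (Finset.mem_filter.1 (hch x hx)).1
  have htyp : ∀ x ∈ U', ∀ y ∈ U', x ≠ y → dist x y ∉ exc A ρ τ (3 * K) →
      ∃ m, 1 ≤ m ∧ m ≤ 3 * K ∧ m ≤ 4 * l ∧ dist x y = F ρ τ m := by
    intro x hx y hy hxy hex
    have h1 : dist x y ≤ F ρ τ (3 * K) := by
      have h2 := dist_triangle x p y
      have h3 := hp x (hU' hx)
      have h4 := hp y (hU' hy)
      rw [dist_comm] at h4
      have h5 := hs.tri K le_rfl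
      linarith
    obtain ⟨m, hm1, hm2, hm3⟩ := typ_of (h.sub (hV x hx)) (h.sub (hV y hy)) hxy h1 hex
    refine ⟨m, hm1, hm2, ?_, hm3⟩
    have h6 := hs.lo m hm2
    have h7 := hd x hx y hy
    rw [hm3] at h7
    have h8 : (m : ℝ) * F ρ τ 1 ≤ (4 * l : ℝ) * F ρ τ 1 := by linarith
    have h9 : (m : ℝ) ≤ 4 * l := le_of_mul_le_mul_right h8 hu
    exact_mod_cast h9
  have hmono : ∀ m n : ℕ, n ≤ 3 * K → m ≤ 3 * K → F ρ τ m < F ρ τ n → m ≤ n := by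
    intro m n hn hm hlt
    by_contra hcon
    push Not at hcon
    have := hs.mono n m hcon hm
    linarith
  have key : ∀ x ∈ U', ∀ y ∈ U', ∀ z ∈ U', dist x y ∉ exc A ρ τ (3 * K) →
      dist y z ∉ exc A ρ τ (3 * K) → dist x z ∉ exc A ρ τ (3 * K) → α x < α y → α y < α z →
      ∃ w1 ∈ U, ∃ w2 ∈ U, ∃ w3 ∈ U, α w1 < α w2 ∧ α w2 < α w3 ∧ ∃ a b' c : ℕ, 1 ≤ a ∧ 1 ≤ b' ∧
      a ≤ c ∧ b' ≤ c ∧ c ≤ 4 * l ∧ dist w1 w2 = F ρ τ a ∧ dist w2 w3 = F ρ τ b' ∧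
      dist w1 w3 = F ρ τ c := by
    intro x hx y hy z hz e1 e2 e3 h1 h2
    obtain ⟨a, ha1, ha2, ha3, ha4⟩ := htyp x hx y hy (fun h => by rw [h] at h1; exact lt_irrefl _ h1) e1
    obtain ⟨b', hb1, hb2, hb3, hb4⟩ := htyp y hy z hz
      (fun h => by rw [h] at h2; exact lt_irrefl _ h2) e2
    obtain ⟨c, hc1, hc2, hc3, hc4⟩ := htyp x hx z hz
      (fun h => by rw [h] at h1; exact lt_irrefl _ (h1.trans h2)) e3
    obtain ⟨m1, m2⟩ := ch_mono h.nrm (hch x hx) (hch y hy) (hch z hz) h1 h2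
    rw [ha4, hc4] at m1
    rw [hb4, hc4] at m2
    exact ⟨x, hU' hx, y, hU' hy, z, hU' hz, h1, h2, a, b', c, ha1, hb1,
      hmono a c hc2 ha2 m1, hmono b' c hc2 hb2 m2, hc3, ha4, hb4, hc4⟩
  -- choose three points
  have hpick : ∀ T ⊆ U', ∀ w ∈ T, T.card ≤ (T \ insert w ((ch V α b).filter
      (fun y => dist w y ∈ exc A ρ τ (3 * K)))).card + (2 * C + 1) := by
    intro T hT w hw
    have h1 := exc_nbr h he (hch w (hT hw))
    have h2 := Finset.card_insert_le w ((ch V α b).filter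
      (fun y => dist w y ∈ exc A ρ τ (3 * K)))
    have h3 := Finset.le_card_sdiff (insert w ((ch V α b).filter
      (fun y => dist w y ∈ exc A ρ τ (3 * K)))) T
    omega
  obtain ⟨w1, hw1⟩ : U'.Nonempty := Finset.card_pos.1 (by omega)
  have hp1 := hpick U' (Finset.Subset.refl _) w1 hw1
  obtain ⟨U2, hU2⟩ : ∃ U2, U2 = U' \ insert w1 ((ch V α b).filter
      (fun y => dist w1 y ∈ exc A ρ τ (3 * K))) := ⟨_, rfl⟩
  rw [← hU2] at hp1
  have hU2s : U2 ⊆ U' := by rw [hU2]; exact Finset.sdiff_subset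
  obtain ⟨w2, hw2⟩ : U2.Nonempty := Finset.card_pos.1 (by omega)
  have hp2 := hpick U2 hU2s w2 hw2
  obtain ⟨w3, hw3⟩ : (U2 \ insert w2 ((ch V α b).filter
      (fun y => dist w2 y ∈ exc A ρ τ (3 * K)))).Nonempty := Finset.card_pos.1 (by omega)
  rw [Finset.mem_sdiff] at hw3
  have hw2' := hU2s hw2
  have hw3' := hU2s hw3.1
  have f1 : ∀ w ∈ U2, w ≠ w1 ∧ dist w1 w ∉ exc A ρ τ (3 * K) := by
    intro w hw
    have hwU := hU2s hw
    rw [hU2, Finset.mem_sdiff, Finset.mem_insert, not_or] at hw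
    refine ⟨hw.2.1, fun hx => hw.2.2 (Finset.mem_filter.2 ⟨hch w hwU, hx⟩)⟩
  obtain ⟨n12, e12⟩ := f1 w2 hw2
  obtain ⟨n13, e13⟩ := f1 w3 hw3.1
  have h3' := hw3.2
  rw [Finset.mem_insert, not_or] at h3'
  have e23 : dist w2 w3 ∉ exc A ρ τ (3 * K) :=
    fun hx => h3'.2 (Finset.mem_filter.2 ⟨hch w3 hw3', hx⟩)
  have n23 := h3'.1
  have i12 : α w1 ≠ α w2 := fun hx => n12 (ch_inj h.nrm (hV w1 hw1) (hV w2 hw2') hx).symm
  have i13 : α w1 ≠ α w3 := fun hx => n13 (ch_inj h.nrm (hV w1 hw1) (hV w3 hw3') hx).symm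
  have i23 : α w2 ≠ α w3 := fun hx => n23 (ch_inj h.nrm (hV w2 hw2') (hV w3 hw3') hx).symm
  have e21 : dist w2 w1 ∉ exc A ρ τ (3 * K) := by rw [dist_comm]; exact e12
  have e31 : dist w3 w1 ∉ exc A ρ τ (3 * K) := by rw [dist_comm]; exact e13
  have e32 : dist w3 w2 ∉ exc A ρ τ (3 * K) := by rw [dist_comm]; exact e23
  rcases lt_or_gt_of_ne i12 with l12 | l12
  · rcases lt_or_gt_of_ne i23 with l23 | l23
    · exact key w1 hw1 w2 hw2' w3 hw3' e12 e23 e13 l12 l23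
    · rcases lt_or_gt_of_ne i13 with l13 | l13
      · exact key w1 hw1 w3 hw3' w2 hw2' e13 e32 e12 l13 l23
      · exact key w3 hw3' w1 hw1 w2 hw2' e31 e12 e32 l13 l12
  · rcases lt_or_gt_of_ne i13 with l13 | l13
    · exact key w2 hw2' w1 hw1 w3 hw3' e21 e13 e23 l12 l13
    · rcases lt_or_gt_of_ne i23 with l23 | l23
      · exact key w2 hw2' w3 hw3' w1 hw1 e23 e31 e21 l23 l13
      · exact key w3 hw3' w2 hw2' w1 hw1 e32 e21 e31 l23 l12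

end Pool.Agent.H83.CP
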