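import Pool.Agent.H83.CP.FIA
import Pool.Agent.H83.CP.TRC
import Pool.Agent.H83.CP.CLA

/-!
# FIC: all neighbours are on the circle

Let `z ∈ Nb s`, `W` the set of the `w ∈ Nb s ∩ ch b` with `dist w o = ρ`, `6 W.card ≥ K`. `z ≠ o`: otherwise `ρ = dist w z ≤ 2 F K < ρ`. Remove from `W`: `z`; the `w` with `dist w z ∈ exc` (for each of the
`≤ C` values at most 2 by `two_pts`); the `w` with `dist w z ≤ F J` (`near_card`). The rest `U` has more than `(4 C + 2) (2 (K / l) + 2)` elements; `triple` with `p = s`; `dist z wi ≤ 2 F K ≤ F (3 K)` is typical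
(`typ_of`), `dist z w1 > F J` gives `j1 > J`; `hT` gives `o'` with `z, w1, w2, w3` on its circle and `o' = o` by `circ_unique`.
-/

set_option autoImplicit false

open Real

noncomputable section

namespace Pool.Agent.H83.CP

private theorem FIC_F0 {ρ τ : ℝ} : F ρ τ 0 = 0 := by
  unfold F
  simp

private theorem FIC_mono {ρ τ : ℝ} {K : ℕ} (hs : Sm ρ τ K) {m n : ℕ} (hmn : m ≤ n)
    (hn : n ≤ 3 * K) : F ρ τ m ≤ F ρ τ n := by
  rcases hmn.eq_or_lt with rfl | h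
  · exact le_rfl
  · exact (hs.mono m n h hn).le

private theorem FIC_nb {A : Finset ℂ} {ρ τ : ℝ} {K : ℕ} {s y : ℂ} (hy : y ∈ Nb A ρ τ K s) :
    y ∈ A ∧ ∃ j, 1 ≤ j ∧ j ≤ K ∧ dist y s = F ρ τ j := by
  unfold Nb at hy
  rw [Finset.mem_filter] at hy
  refine ⟨hy.1, ?_⟩
  have h1 := hy.2
  unfold Hp at h1
  rw [Finset.mem_filter, Finset.mem_image] at h1
  obtain ⟨⟨j, hj, hjF⟩, -⟩ := h1
  rw [Finset.mem_Icc] at hj
  exact ⟨j, hj.1, hj.2, hjF.symm⟩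

theorem FIC {A V : Finset ℂ} {α : ℂ → ℝ} {C t : ℕ} (h : Cfg A V α C t) {ρ τ : ℝ} {K l J : ℕ}
    (hs : Sm ρ τ K) (he : (exc A ρ τ (3 * K)).card ≤ C) (hl : l = 40 * (4 * C + 3))
    (hJ : J = 40 * (4 * l) ^ 6) (hK : 100 * (3 * J + 20 * C + t + 20) ≤ K)
    (hT : ∀ a b c j1 j2 j3 : ℕ, 1 ≤ a → 1 ≤ b → a ≤ c → b ≤ c → c ≤ 4 * l → J < j1 → j1 ≤ 3 * K →
      1 ≤ j2 → j2 ≤ 3 * K → 1 ≤ j3 → j3 ≤ 3 * K → ∀ y1 y2 y3 z : ℂ, dist y1 y2 = F ρ τ a →
      dist y2 y3 = F ρ τ b → dist y1 y3 = F ρ τ c → dist z y1 = F ρ τ j1 → dist z y2 = F ρ τ j2 →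
      dist z y3 = F ρ τ j3 →
      ∃ o : ℂ, dist y1 o = ρ ∧ dist y2 o = ρ ∧ dist y3 o = ρ ∧ dist z o = ρ)
    {s : ℂ} (hsA : s ∈ A) {b : ℕ} {o : ℂ} (hso : dist s o = ρ)
    (hW : K ≤ 6 * (((Nb A ρ τ K s) ∩ (ch V α b)).filter (fun w => dist w o = ρ)).card)
    {z : ℂ} (hz : z ∈ Nb A ρ τ K s) : dist z o = ρ := by
  classical
  obtain ⟨W, hWd⟩ : ∃ W, W = ((Nb A ρ τ K s) ∩ (ch V α b)).filter (fun w => dist w o = ρ) :=
    ⟨_, rfl⟩
  rw [← hWd] at hW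
  have hWn : ∀ y ∈ W, y ∈ A ∧ ∃ j, 1 ≤ j ∧ j ≤ K ∧ dist y s = F ρ τ j := by
    intro y hy
    rw [hWd, Finset.mem_filter, Finset.mem_inter] at hy
    exact FIC_nb hy.1.1
  have hWc : ∀ y ∈ W, y ∈ ch V α b := by
    intro y hy
    rw [hWd, Finset.mem_filter, Finset.mem_inter] at hy
    exact hy.1.2
  have hWo : ∀ y ∈ W, dist y o = ρ := by
    intro y hy
    rw [hWd, Finset.mem_filter] at hy
    exact hy.2
  have hJK : J ≤ K := by omega
  have hWK : ∀ y ∈ W, dist y s ≤ F ρ τ K := by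
    intro y hy
    obtain ⟨-, j, hj1, hjK, hj⟩ := hWn y hy
    rw [hj]
    exact FIC_mono hs hjK (by omega)
  obtain ⟨hzA, jz, hjz1, hjzK, hjzF⟩ := FIC_nb hz
  have hzK : dist z s ≤ F ρ τ K := by
    rw [hjzF]
    exact FIC_mono hs hjzK (by omega)
  have htri := hs.tri K le_rfl
  have hdz : ∀ w ∈ W, dist z w ≤ F ρ τ (3 * K) := by
    intro w hw
    have e2 := hWK w hw
    calc dist z w ≤ dist z s + dist s w := dist_triangle _ _ _
      _ = dist z s + dist w s := by rw [dist_comm s w]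
      _ ≤ 2 * F ρ τ K := by linarith
      _ ≤ _ := htri
  have hbig : ∀ {j : ℕ}, j ≤ 3 * K → F ρ τ J < F ρ τ j → J < j := by
    intro j hj hlt
    by_contra hc
    push Not at hc
    exact absurd (FIC_mono hs hc (by omega)) (not_le.2 hlt)
  -- `z ≠ o`
  have hoz : o ≠ z := by
    intro hh
    have hWpos : 0 < W.card := by omega
    obtain ⟨w, hw⟩ := Finset.card_pos.1 hWpos
    have e1 := hdz w hw
    have e2 := hWo w hw
    rw [hh, dist_comm] at e2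
    have e3 := hs.lt
    linarith
  -- the exceptional points
  obtain ⟨E1, hE1⟩ : ∃ E1, E1 = W.filter (fun w => dist w z ∈ exc A ρ τ (3 * K)) := ⟨_, rfl⟩
  obtain ⟨E2, hE2⟩ : ∃ E2, E2 = (ch V α b).filter (fun w => dist w z ≤ F ρ τ J) := ⟨_, rfl⟩
  have c1 : E1.card ≤ 2 * C := by
    have e1 : E1.card ≤ 2 * (E1.image (fun w => dist w z)).card := by
      apply Finset.card_le_mul_card_image
      intro x _
      apply two_pts hoz (ρ := ρ) (x := x)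
      intro y hy
      rw [Finset.mem_filter] at hy
      have hyE := hy.1
      rw [hE1, Finset.mem_filter] at hyE
      exact ⟨hWo y hyE.1, hy.2⟩
    have e2 : (E1.image (fun w => dist w z)).card ≤ (exc A ρ τ (3 * K)).card := by
      apply Finset.card_le_card
      intro x hx
      rw [Finset.mem_image] at hx
      obtain ⟨y, hy, rfl⟩ := hx
      rw [hE1, Finset.mem_filter] at hy
      exact hy.2
    omega
  have c2 : E2.card ≤ 3 * J + C + 1 := by rw [hE2]; exact near_card h hs he hJK b z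
  obtain ⟨U, hU⟩ : ∃ U, U = W \ (E1 ∪ (E2 ∪ {z})) := ⟨_, rfl⟩
  have hUc : W.card ≤ U.card + (3 * J + 3 * C + 2) := by
    have e1 := Finset.le_card_sdiff (E1 ∪ (E2 ∪ {z})) W
    rw [← hU] at e1
    have u1 := Finset.card_union_le E1 (E2 ∪ {z})
    have u2 := Finset.card_union_le E2 {z}
    rw [Finset.card_singleton] at u2
    omega
  have hUW : U ⊆ W := by rw [hU]; exact Finset.sdiff_subset
  have hUE : ∀ w ∈ U, dist w z ∉ exc A ρ τ (3 * K) ∧ F ρ τ J < dist w z ∧ z ≠ w := by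
    intro w hw
    have hwW := hUW hw
    rw [hU, Finset.mem_sdiff, Finset.mem_union, Finset.mem_union, Finset.mem_singleton,
      not_or, not_or] at hw
    obtain ⟨-, k1, k2, k3⟩ := hw
    refine ⟨?_, ?_, fun hh => k3 hh.symm⟩
    · intro hc
      exact k1 (by rw [hE1, Finset.mem_filter]; exact ⟨hwW, hc⟩)
    · by_contra hc
      push Not at hc
      exact k2 (by rw [hE2, Finset.mem_filter]; exact ⟨hWc w hwW, hc⟩)
  have hl1 : 1 ≤ l := by omega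
  have hcount : (4 * C + 2) * (2 * (K / l) + 2) < U.card := by
    have e1 : l * (K / l) ≤ K := Nat.mul_div_le K l
    obtain ⟨Q, hQ⟩ : ∃ Q, Q = K / l := ⟨_, rfl⟩
    rw [← hQ] at e1 ⊢
    rw [hl] at e1
    have e2 : 20 * ((4 * C + 2) * (2 * Q + 2)) ≤ K + 160 * C + 80 := by nlinarith
    omega
  obtain ⟨w1, hw1, w2, hw2, w3, hw3, h12, h23, a, b', c, ha, hb', hac, hbc, hcl, hd12, hd23,
    hd13⟩ := triple h hs (by omega) he (b := b) (U := U) (fun x hx => hWc x (hUW hx)) (p := s)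
      (fun x hx => hWK x (hUW hx)) hl1 hcount
  have hne12 : w1 ≠ w2 := fun hh => absurd h12 (by rw [hh]; exact lt_irrefl _)
  have hne23 : w2 ≠ w3 := fun hh => absurd h23 (by rw [hh]; exact lt_irrefl _)
  have hne13 : w1 ≠ w3 := fun hh => absurd (h12.trans h23) (by rw [hh]; exact lt_irrefl _)
  obtain ⟨f1, g1, z1⟩ := hUE w1 hw1
  obtain ⟨f2, g2, z2⟩ := hUE w2 hw2
  obtain ⟨f3, g3, z3⟩ := hUE w3 hw3
  rw [dist_comm] at f1 f2 f3 g1
  obtain ⟨m1, hm1, hm1K, hm1F⟩ := typ_of hzA (hWn w1 (hUW hw1)).1 z1 (hdz w1 (hUW hw1)) f1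
  obtain ⟨m2, hm2, hm2K, hm2F⟩ := typ_of hzA (hWn w2 (hUW hw2)).1 z2 (hdz w2 (hUW hw2)) f2
  obtain ⟨m3, hm3, hm3K, hm3F⟩ := typ_of hzA (hWn w3 (hUW hw3)).1 z3 (hdz w3 (hUW hw3)) f3
  rw [hm1F] at g1
  obtain ⟨o', ho1', ho2', ho3', hoz'⟩ := hT a b' c m1 m2 m3 ha hb' hac hbc hcl
    (hbig hm1K g1) hm1K hm2 hm2K hm3 hm3K w1 w2 w3 z hd12 hd23 hd13 hm1F hm2F hm3F
  have hoo : o = o' := circ_unique hne12 hne23 hne13 (hWo w1 (hUW hw1)) (hWo w2 (hUW hw2))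
    (hWo w3 (hUW hw3)) ho1' ho2' ho3'
  rw [hoo]
  exact hoz'

end Pool.Agent.H83.CP
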