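import Pool.Agent.H83.CP.FIB
import Pool.Agent.H83.CP.FIC
import Pool.Agent.H83.CP.EC

/-!
# FI: the final contradiction

`K` from `FIB`; `τ0` the minimum of `small_sine K` and `ea_circ (4 l) (3 K)`. By `FIA`, `FIB`, `FIC` all of `Nb s` is on the circle around `o`; `s ≠ o`; for every `x ∈ Hp` at most two points have distance
`ρ` from `o` and `x` from `s` (`two_pts`), so `(Nb s).card ≤ 2 Hp.card` (`Finset.card_le_mul_card_image`), contradiction.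
-/

set_option autoImplicit false

open Real

noncomputable section

namespace Pool.Agent.H83.CP

theorem FI (C t : ℕ) : ∃ (K : ℕ) (τ0 : ℝ), 0 < τ0 ∧ ∀ (A V : Finset ℂ) (α : ℂ → ℝ),
    Cfg A V α C t → ∀ ρ τ : ℝ, 0 < ρ → 0 < τ → τ < τ0 →
    (∀ m, 1 ≤ m → m ≤ 3 * K → F ρ τ m ∈ dst A) → (exc A ρ τ (3 * K)).card ≤ C → False := by
  classical
  obtain ⟨l, hl⟩ : ∃ l : ℕ, l = 40 * (4 * C + 3) := ⟨_, rfl⟩
  obtain ⟨J, hJ⟩ : ∃ J : ℕ, J = 40 * (4 * l) ^ 6 := ⟨_, rfl⟩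
  obtain ⟨K, hK⟩ : ∃ K : ℕ, K = 100 * (3 * J + 20 * C + t + 20) := ⟨_, rfl⟩
  obtain ⟨τ1, hτ1, h1⟩ := small_sine K
  obtain ⟨τ2, hτ2, h2⟩ := ea_circ (4 * l) (3 * K)
  refine ⟨K, min τ1 τ2, lt_min hτ1 hτ2, ?_⟩
  intro A V α h ρ τ hρ hτ hlt hd he
  obtain ⟨m1, m2, m3, m4, m5, m6⟩ := h1 τ hτ (lt_of_lt_of_le hlt (min_le_left _ _)) ρ hρ
  have hs : Sm ρ τ K := ⟨hρ, hτ, m1, m2, m3, m4, m5⟩
  have hT := h2 τ hτ (lt_of_lt_of_le hlt (min_le_right _ _)) ρ hρ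
  rw [← hJ] at hT
  obtain ⟨hc, s, hsA, hN⟩ := FIA h hs (by omega) (fun m hm1 hm2 => hd m hm1 (by omega))
  have hN' : 2 * (K - C) < (Nb A ρ τ K s).card := by omega
  obtain ⟨b, o, hso, hW⟩ := FIB h hs he hl hJ hK.ge hT hsA hN'
  have hall : ∀ z ∈ Nb A ρ τ K s, dist z o = ρ := fun z hz =>
    FIC h hs he hl hJ hK.ge hT hsA hso hW hz
  have hos : o ≠ s := by
    intro hh
    rw [hh, dist_self] at hso
    linarith
  have hcard : (Nb A ρ τ K s).card ≤ 2 * ((Nb A ρ τ K s).image (fun y => dist y s)).card := by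
    apply Finset.card_le_mul_card_image
    intro x _
    apply two_pts hos (ρ := ρ) (x := x)
    intro y hy
    rw [Finset.mem_filter] at hy
    exact ⟨hall y hy.1, hy.2⟩
  have himg : ((Nb A ρ τ K s).image (fun y => dist y s)).card ≤ (Hp A ρ τ K).card := by
    apply Finset.card_le_card
    intro x hx
    rw [Finset.mem_image] at hx
    obtain ⟨y, hy, rfl⟩ := hx
    unfold Nb at hy
    exact (Finset.mem_filter.mp hy).2
  omega

end Pool.Agent.H83.CP
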