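import Pool.Agent.H83.CP.TRA

/-!
# FIA: a point with many high neighbours

`Hp` has at least `K - C` elements: the `F m`, `1 ≤ m ≤ K`, are `K` different elements of `dst A`, at most `C` are low. Sum over `s ∈ A` of `(Nb s).card` is the number of
ordered pairs with distance in `Hp` (all elements of `Hp` are positive) `= ∑_{d ∈ Hp} mul A d ≥ (Hp).card * (2 n + 1)`; so some `s` has `(Nb s).card ≥ 2 Hp.card + 1`
(otherwise the sum is `≤ 2 n Hp.card`; `Hp` is nonempty as `K > C`).
-/

set_option autoImplicit false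

open Real

noncomputable section

namespace Pool.Agent.H83.CP

/-- high distances among `F 1, ..., F K` -/
def Hp (A : Finset ℂ) (ρ τ : ℝ) (K : ℕ) : Finset ℝ :=
  ((Finset.Icc 1 K).image (F ρ τ)).filter (fun d => 2 * A.card < mul A d)

/-- neighbours of `s` at distances in `Hp` -/
def Nb (A : Finset ℂ) (ρ τ : ℝ) (K : ℕ) (s : ℂ) : Finset ℂ :=
  A.filter (fun y => dist y s ∈ Hp A ρ τ K)

private theorem FIA_low {A V : Finset ℂ} {α : ℂ → ℝ} {C t : ℕ} (h : Cfg A V α C t) {ρ τ : ℝ} {K : ℕ}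
    (hs : Sm ρ τ K) (hd : ∀ m, 1 ≤ m → m ≤ K → F ρ τ m ∈ dst A) :
    K ≤ (Hp A ρ τ K).card + C := by
  have hcard : ((Finset.Icc 1 K).image (F ρ τ)).card = K := by
    rw [Finset.card_image_of_injOn, Nat.card_Icc, Nat.add_sub_cancel]
    intro m hm n hn hmn
    simp only [Finset.coe_Icc, Set.mem_Icc] at hm hn
    rcases lt_trichotomy m n with hlt | heq | hgt
    · exact absurd hmn (hs.mono m n hlt (by omega)).ne
    · exact heq
    · exact absurd hmn (hs.mono n m hgt (by omega)).ne'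
  have h1 := Finset.card_filter_add_card_filter_not (s := (Finset.Icc 1 K).image (F ρ τ))
    (fun d => 2 * A.card < mul A d)
  rw [hcard] at h1
  have h2 : (((Finset.Icc 1 K).image (F ρ τ)).filter (fun d => ¬ 2 * A.card < mul A d)).card ≤ C := by
    refine le_trans (Finset.card_le_card ?_) h.lowc
    intro d hdm
    rw [Finset.mem_filter, Finset.mem_image] at hdm
    obtain ⟨⟨m, hm, rfl⟩, hn⟩ := hdm
    rw [Finset.mem_Icc] at hm
    rw [low, Finset.mem_filter]
    exact ⟨hd m hm.1 hm.2, not_lt.1 hn⟩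
  unfold Hp
  omega

theorem FIA {A V : Finset ℂ} {α : ℂ → ℝ} {C t : ℕ} (h : Cfg A V α C t) {ρ τ : ℝ} {K : ℕ}
    (hs : Sm ρ τ K) (hK : C < K) (hd : ∀ m, 1 ≤ m → m ≤ K → F ρ τ m ∈ dst A) :
    K ≤ (Hp A ρ τ K).card + C ∧ ∃ s ∈ A, 2 * (Hp A ρ τ K).card < (Nb A ρ τ K s).card := by
  have h1 := FIA_low h hs hd
  refine ⟨h1, ?_⟩
  by_contra hcon
  push Not at hcon
  set H := Hp A ρ τ K with hH
  have h2 : ∑ s ∈ A, (Nb A ρ τ K s).card ≤ A.card * (2 * H.card) := by
    have := Finset.sum_le_card_nsmul A (fun s => (Nb A ρ τ K s).card) (2 * H.card) hcon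
    simpa using this
  have h3 : ∑ d ∈ H, mul A d ≤ ∑ s ∈ A, (Nb A ρ τ K s).card := by
    have h4 : ∑ d ∈ H, mul A d = (A.offDiag.filter (fun p => dist p.1 p.2 ∈ H)).card :=
      Finset.sum_card_fiberwise_eq_card_filter A.offDiag H (fun p => dist p.1 p.2)
    have h5 : ∑ s ∈ A, (Nb A ρ τ K s).card =
        ((A ×ˢ A).filter (fun p => dist p.1 p.2 ∈ H)).card := by
      rw [Finset.card_filter, Finset.sum_product_right]
      refine Finset.sum_congr rfl fun s _ => ?_
      rw [Nb, Finset.card_filter]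
    rw [h4, h5]
    refine Finset.card_le_card (Finset.filter_subset_filter _ ?_)
    intro p hp
    rw [Finset.mem_offDiag] at hp
    exact Finset.mem_product.2 ⟨hp.1, hp.2.1⟩
  have h6 : H.card * (2 * A.card + 1) ≤ ∑ d ∈ H, mul A d := by
    have := Finset.card_nsmul_le_sum H (fun d => mul A d) (2 * A.card + 1) (fun d hdm => by
      rw [hH, Hp, Finset.mem_filter] at hdm
      exact hdm.2)
    simpa using this
  have h7 : H.card * (2 * A.card + 1) ≤ A.card * (2 * H.card) := h6.trans (h3.trans h2)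
  have h8 : H.card * (2 * A.card + 1) = A.card * (2 * H.card) + H.card := by ring
  omega

end Pool.Agent.H83.CP
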