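import Pool.Agent.H83.CP.FIA
import Pool.Agent.H83.CP.TRC
import Pool.Agent.H83.CP.CLA

/-!
# FIB: the point is on a circle with most of its neighbours in one sector

`l = 40 (4 C + 3)`, `G = 4 l`, `J = 40 G ^ 6`. `hT`: the statement of `ea_circ G (3 K)` for the given `ρ, τ`.
All `y ∈ Nb s` have `dist y s = F j`, `1 ≤ j ≤ K`. Step 1. `8 (Nb s ∩ ch b).card + t ≥ (Nb s).card` for some `b < 8` (`sec_lt`, at most `t` elements outside `V`). Let `S_b = Nb s ∩ ch b`;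
`5 S_b.card ≥ K` by `hK` (`8 S_b.card + t ≥ 2 (K - C) + 1`). `U := {w ∈ S_b : F J < dist w s}`, `U.card ≥ S_b.card - (3 J + C + 1)` (`near_card`). `triple` with `p = s` (`(4 C + 2) (2 (K / l) + 2) ≤ K / 20 + 8 C + 4`)
gives `w1, w2, w3`, and `hT` with `z = s` gives `o`. Step 2. Every `z ∈ S_b` outside the sets: within `F J` of `w1` (`near_card`), exceptional neighbours of `w1, w2, w3` (`exc_nbr`), and different from
`w1, w2, w3`: `dist z wi ≤ 2 F K ≤ F (3 K)`, so `typ_of`, `hT`, and `circ_unique`: `dist z o = ρ`.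
-/

set_option autoImplicit false

open Real

noncomputable section

namespace Pool.Agent.H83.CP

private theorem FIB_F0 {ρ τ : ℝ} : F ρ τ 0 = 0 := by
  unfold F
  simp

private theorem FIB_mono {ρ τ : ℝ} {K : ℕ} (hs : Sm ρ τ K) {m n : ℕ} (hmn : m ≤ n)
    (hn : n ≤ 3 * K) : F ρ τ m ≤ F ρ τ n := by
  rcases hmn.eq_or_lt with rfl | h
  · exact le_rfl
  · exact (hs.mono m n h hn).le

private theorem FIB_nb {A : Finset ℂ} {ρ τ : ℝ} {K : ℕ} {s y : ℂ} (hy : y ∈ Nb A ρ τ K s) :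
    y ∈ A ∧ ∃ j, 1 ≤ j ∧ j ≤ K ∧ dist y s = F ρ τ j := by
  unfold Nb at hy
  rw [Finset.mem_filter] at hy
  refine ⟨hy.1, ?_⟩
  have h1 := hy.2
  unfold Hp at h1
  rw [Finset.mem_filter, Finset.mem_image] at h1
  obtain ⟨⟨j, hj, hjF⟩, -⟩ := h1
  rw [Finset.mem_Icc] at hj
  exact ⟨j, hj.1, hj.2, hjF.symm⟩

/-- some sector contains an eighth of the set -/
private theorem FIB_sec {A V : Finset ℂ} {α : ℂ → ℝ} {C t : ℕ} (h : Cfg A V α C t)
    {S : Finset ℂ} (hS : S ⊆ A) : ∃ b, S.card ≤ 8 * (S ∩ ch V α b).card + t := by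
  by_contra hcon
  push Not at hcon
  have h1 : S ⊆ (Finset.range 8).biUnion (fun b => S ∩ ch V α b) ∪ (A \ V) := by
    intro x hx
    by_cases hxV : x ∈ V
    · apply Finset.mem_union_left
      rw [Finset.mem_biUnion]
      refine ⟨sec α x, Finset.mem_range.2 (sec_lt h.nrm hxV), ?_⟩
      rw [Finset.mem_inter, ch, Finset.mem_filter]
      exact ⟨hx, hxV, rfl⟩
    · exact Finset.mem_union_right _ (Finset.mem_sdiff.2 ⟨hS hx, hxV⟩)
  have h2 : S.card ≤ (∑ b ∈ Finset.range 8, (S ∩ ch V α b).card) + t := by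
    calc S.card ≤ _ := Finset.card_le_card h1
      _ ≤ ((Finset.range 8).biUnion (fun b => S ∩ ch V α b)).card + (A \ V).card :=
        Finset.card_union_le _ _
      _ ≤ _ := Nat.add_le_add Finset.card_biUnion_le h.ext
  have h3 : 8 * (∑ b ∈ Finset.range 8, (S ∩ ch V α b).card) + 8 * t < 8 * S.card := by
    have h4 : ∑ b ∈ Finset.range 8, (8 * (S ∩ ch V α b).card + t) <
        ∑ _b ∈ Finset.range 8, S.card :=
      Finset.sum_lt_sum_of_nonempty ⟨0, by simp⟩ (fun b _ => hcon b)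
    rw [Finset.sum_add_distrib, ← Finset.mul_sum, Finset.sum_const, Finset.sum_const,
      Finset.card_range, smul_eq_mul, smul_eq_mul] at h4
    exact h4
  omega

theorem FIB {A V : Finset ℂ} {α : ℂ → ℝ} {C t : ℕ} (h : Cfg A V α C t) {ρ τ : ℝ} {K l J : ℕ}
    (hs : Sm ρ τ K) (he : (exc A ρ τ (3 * K)).card ≤ C) (hl : l = 40 * (4 * C + 3))
    (hJ : J = 40 * (4 * l) ^ 6) (hK : 100 * (3 * J + 20 * C + t + 20) ≤ K)
    (hT : ∀ a b c j1 j2 j3 : ℕ, 1 ≤ a → 1 ≤ b → a ≤ c → b ≤ c → c ≤ 4 * l → J < j1 → j1 ≤ 3 * K →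
      1 ≤ j2 → j2 ≤ 3 * K → 1 ≤ j3 → j3 ≤ 3 * K → ∀ y1 y2 y3 z : ℂ, dist y1 y2 = F ρ τ a →
      dist y2 y3 = F ρ τ b → dist y1 y3 = F ρ τ c → dist z y1 = F ρ τ j1 → dist z y2 = F ρ τ j2 →
      dist z y3 = F ρ τ j3 →
      ∃ o : ℂ, dist y1 o = ρ ∧ dist y2 o = ρ ∧ dist y3 o = ρ ∧ dist z o = ρ)
    {s : ℂ} (hsA : s ∈ A) (hN : 2 * (K - C) < (Nb A ρ τ K s).card) :
    ∃ (b : ℕ) (o : ℂ), dist s o = ρ ∧
      K ≤ 6 * (((Nb A ρ τ K s) ∩ (ch V α b)).filter (fun w => dist w o = ρ)).card := by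
  classical
  obtain ⟨b, hb⟩ := FIB_sec h (S := Nb A ρ τ K s) (fun y hy => (FIB_nb hy).1)
  obtain ⟨S, hS⟩ : ∃ S, S = Nb A ρ τ K s ∩ ch V α b := ⟨_, rfl⟩
  rw [← hS] at hb
  have hSn : ∀ y ∈ S, y ∈ A ∧ ∃ j, 1 ≤ j ∧ j ≤ K ∧ dist y s = F ρ τ j := by
    intro y hy
    rw [hS] at hy
    exact FIB_nb (Finset.mem_inter.1 hy).1
  have hSc : ∀ y ∈ S, y ∈ ch V α b := by
    intro y hy
    rw [hS] at hy
    exact (Finset.mem_inter.1 hy).2
  have h5 : K ≤ 5 * S.card := by omega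
  have hJK : J ≤ K := by omega
  have hSK : ∀ y ∈ S, dist y s ≤ F ρ τ K := by
    intro y hy
    obtain ⟨-, j, hj1, hjK, hj⟩ := hSn y hy
    rw [hj]
    exact FIB_mono hs hjK (by omega)
  have hFJ0 : 0 ≤ F ρ τ J := by
    rw [← FIB_F0 (ρ := ρ) (τ := τ)]
    exact FIB_mono hs (Nat.zero_le _) (by omega)
  have hbig : ∀ {j : ℕ}, j ≤ 3 * K → F ρ τ J < F ρ τ j → J < j := by
    intro j hj hlt
    by_contra hc
    push Not at hc
    exact absurd (FIB_mono hs hc (by omega)) (not_le.2 hlt)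
  -- the far points
  obtain ⟨U, hU⟩ : ∃ U, U = S.filter (fun w => F ρ τ J < dist w s) := ⟨_, rfl⟩
  have hUc : S.card ≤ U.card + (3 * J + C + 1) := by
    have e1 := Finset.card_filter_add_card_filter_not (s := S) (fun w => F ρ τ J < dist w s)
    have e2 : (S.filter (fun w => ¬ F ρ τ J < dist w s)).card ≤ 3 * J + C + 1 := by
      refine le_trans (Finset.card_le_card ?_) (near_card h hs he hJK b s)
      intro w hw
      rw [Finset.mem_filter] at hw ⊢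
      exact ⟨hSc w hw.1, not_lt.1 hw.2⟩
    rw [← hU] at e1
    omega
  have hUS : U ⊆ S := by rw [hU]; exact Finset.filter_subset _ _
  have hl1 : 1 ≤ l := by omega
  have hcount : (4 * C + 2) * (2 * (K / l) + 2) < U.card := by
    have e1 : l * (K / l) ≤ K := Nat.mul_div_le K l
    obtain ⟨Q, hQ⟩ : ∃ Q, Q = K / l := ⟨_, rfl⟩
    rw [← hQ] at e1 ⊢
    rw [hl] at e1
    have e2 : 20 * ((4 * C + 2) * (2 * Q + 2)) ≤ K + 160 * C + 80 := by nlinarith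
    omega
  obtain ⟨w1, hw1, w2, hw2, w3, hw3, h12, h23, a, b', c, ha, hb', hac, hbc, hcl, hd12, hd23,
    hd13⟩ := triple h hs (by omega) he (b := b) (U := U) (fun x hx => hSc x (hUS hx)) (p := s)
      (fun x hx => hSK x (hUS hx)) hl1 hcount
  have hw1S := hUS hw1
  have hw2S := hUS hw2
  have hw3S := hUS hw3
  have hne12 : w1 ≠ w2 := fun hh => absurd h12 (by rw [hh]; exact lt_irrefl _)
  have hne23 : w2 ≠ w3 := fun hh => absurd h23 (by rw [hh]; exact lt_irrefl _)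
  have hne13 : w1 ≠ w3 := fun hh => absurd (h12.trans h23) (by rw [hh]; exact lt_irrefl _)
  obtain ⟨hw1A, j1, hj1, hj1K, hj1F⟩ := hSn w1 hw1S
  obtain ⟨hw2A, j2, hj2, hj2K, hj2F⟩ := hSn w2 hw2S
  obtain ⟨hw3A, j3, hj3, hj3K, hj3F⟩ := hSn w3 hw3S
  have hfar1 : F ρ τ J < F ρ τ j1 := by
    rw [hU, Finset.mem_filter] at hw1
    rw [← hj1F]
    exact hw1.2
  obtain ⟨o, ho1, ho2, ho3, hos⟩ := hT a b' c j1 j2 j3 ha hb' hac hbc hcl
    (hbig (by omega) hfar1) (by omega) hj2 (by omega) hj3 (by omega) w1 w2 w3 s hd12 hd23 hd13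
    (by rw [dist_comm]; exact hj1F) (by rw [dist_comm]; exact hj2F) (by rw [dist_comm]; exact hj3F)
  refine ⟨b, o, hos, ?_⟩
  rw [← hS]
  -- the exceptional points
  obtain ⟨B0, hB0⟩ : ∃ B0, B0 = (ch V α b).filter (fun w => dist w w1 ≤ F ρ τ J) := ⟨_, rfl⟩
  obtain ⟨B1, hB1⟩ : ∃ B1, B1 = (ch V α b).filter (fun y => dist w1 y ∈ exc A ρ τ (3 * K)) :=
    ⟨_, rfl⟩
  obtain ⟨B2, hB2⟩ : ∃ B2, B2 = (ch V α b).filter (fun y => dist w2 y ∈ exc A ρ τ (3 * K)) :=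
    ⟨_, rfl⟩
  obtain ⟨B3, hB3⟩ : ∃ B3, B3 = (ch V α b).filter (fun y => dist w3 y ∈ exc A ρ τ (3 * K)) :=
    ⟨_, rfl⟩
  have c0 : B0.card ≤ 3 * J + C + 1 := by rw [hB0]; exact near_card h hs he hJK b w1
  have c1 : B1.card ≤ 2 * C := by rw [hB1]; exact exc_nbr h he (hSc w1 hw1S)
  have c2 : B2.card ≤ 2 * C := by rw [hB2]; exact exc_nbr h he (hSc w2 hw2S)
  have c3 : B3.card ≤ 2 * C := by rw [hB3]; exact exc_nbr h he (hSc w3 hw3S)
  have htri := hs.tri K le_rfl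
  have hdz : ∀ z ∈ S, ∀ w ∈ S, dist z w ≤ F ρ τ (3 * K) := by
    intro z hz w hw
    have e1 := hSK z hz
    have e2 := hSK w hw
    calc dist z w ≤ dist z s + dist s w := dist_triangle _ _ _
      _ = dist z s + dist w s := by rw [dist_comm s w]
      _ ≤ 2 * F ρ τ K := by linarith
      _ ≤ _ := htri
  have hgood : ∀ z ∈ S, z ∉ B0 → z ∉ B1 → z ∉ B2 → z ∉ B3 → z ≠ w2 → z ≠ w3 →
      dist z o = ρ := by
    intro z hz hz0 hz1 hz2 hz3 hzw2 hzw3
    have hzc := hSc z hz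
    have hzA := (hSn z hz).1
    have f0 : F ρ τ J < dist z w1 := by
      by_contra hc
      push Not at hc
      exact hz0 (by rw [hB0, Finset.mem_filter]; exact ⟨hzc, hc⟩)
    have hzw1 : z ≠ w1 := by
      intro hh
      rw [hh, dist_self] at f0
      linarith
    have f1 : dist z w1 ∉ exc A ρ τ (3 * K) := by
      intro hc
      exact hz1 (by rw [hB1, Finset.mem_filter, dist_comm w1 z]; exact ⟨hzc, hc⟩)
    have f2 : dist z w2 ∉ exc A ρ τ (3 * K) := by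
      intro hc
      exact hz2 (by rw [hB2, Finset.mem_filter, dist_comm w2 z]; exact ⟨hzc, hc⟩)
    have f3 : dist z w3 ∉ exc A ρ τ (3 * K) := by
      intro hc
      exact hz3 (by rw [hB3, Finset.mem_filter, dist_comm w3 z]; exact ⟨hzc, hc⟩)
    obtain ⟨m1, hm1, hm1K, hm1F⟩ := typ_of hzA hw1A hzw1 (hdz z hz w1 hw1S) f1
    obtain ⟨m2, hm2, hm2K, hm2F⟩ := typ_of hzA hw2A hzw2 (hdz z hz w2 hw2S) f2
    obtain ⟨m3, hm3, hm3K, hm3F⟩ := typ_of hzA hw3A hzw3 (hdz z hz w3 hw3S) f3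
    rw [hm1F] at f0
    obtain ⟨o', ho1', ho2', ho3', hoz'⟩ := hT a b' c m1 m2 m3 ha hb' hac hbc hcl
      (hbig hm1K f0) hm1K hm2 hm2K hm3 hm3K w1 w2 w3 z hd12 hd23 hd13 hm1F hm2F hm3F
    have hoo : o = o' := circ_unique hne12 hne23 hne13 ho1 ho2 ho3 ho1' ho2' ho3'
    rw [hoo]
    exact hoz'
  have hcov : S ⊆ S.filter (fun w => dist w o = ρ) ∪ (B0 ∪ (B1 ∪ (B2 ∪ (B3 ∪ {w2, w3})))) := by
    intro z hz
    by_cases hg : dist z o = ρ
    · exact Finset.mem_union_left _ (Finset.mem_filter.2 ⟨hz, hg⟩)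
    · apply Finset.mem_union_right
      by_contra hc
      simp only [Finset.mem_union, Finset.mem_insert, Finset.mem_singleton, not_or] at hc
      obtain ⟨k0, k1, k2, k3, k4, k5⟩ := hc
      exact hg (hgood z hz k0 k1 k2 k3 k4 k5)
  have hcard := Finset.card_le_card hcov
  have u1 := Finset.card_union_le (S.filter (fun w => dist w o = ρ))
    (B0 ∪ (B1 ∪ (B2 ∪ (B3 ∪ {w2, w3}))))
  have u2 := Finset.card_union_le B0 (B1 ∪ (B2 ∪ (B3 ∪ {w2, w3})))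
  have u3 := Finset.card_union_le B1 (B2 ∪ (B3 ∪ {w2, w3}))
  have u4 := Finset.card_union_le B2 (B3 ∪ {w2, w3})
  have u5 := Finset.card_union_le B3 {w2, w3}
  have u6 : ({w2, w3} : Finset ℂ).card ≤ 2 := Finset.card_le_two
  omega

end Pool.Agent.H83.CP
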