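import Pool.Agent.H83.CP.DB
import Pool.Agent.H83.CP.EN

/-!
# ISA: one isolated point opposite to a chain

`z` is any point, `Y` the points of the chain `ch a` within `r` of `z`, `N` those within `(M / 2) r`.
If `Y = ∅` the second alternative is clear. Enumerate `ch a` increasingly in `α` (`enum`): `c 0, ..., c (n - 1)`. Let `i0` be the first and `l` the last
index with `c i ∈ Y`. Let `m ≥ l` be the first index such that `m + 1 = n` or `r < dist (c m) (c (m + 1))`.
* `c i ∈ N` for `i0 ≤ i ≤ l`: `dist (c i0) (c i) ≤ dist (c i0) (c l) ≤ 2 r` (`ch_mono4`), so `dist (c i) z ≤ 3 r ≤ (M / 2) r`.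
* for `l ≤ i ≤ m`: `dist (c i) z ≤ (i - l + 1) r`; so `c i ∈ N` as long as `i - l + 1 ≤ M / 2`. If `M / 2 ≤ m - l + 1` (integer part) then `N` has at least
  `M / 2` elements `c l, ..., c (l + M / 2 - 1)` and `M ≤ 4 (M / 2)`: first alternative.
* otherwise all `c i`, `i0 ≤ i ≤ m`, are in `N`. For `0 ≤ i ≤ m - i0` the point `x = c (m - i)` has at most `i` forward partners: a partner is `c j` with
  `j > m - i` and distance `≤ r`; `j > m` is impossible, since `dist (c (m - i)) (c j) ≥ dist (c m) (c (m + 1)) > r` (`ch_mono4`). So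
  `df (c (m - i)) ≥ h - i`, `h = (hi A r).card`, and with `q = min (Y.card) h ≤ m - i0 + 1` (`Y.card ≤ l - i0 + 1`) `tri_sum` gives
  `q h ≤ 2 ∑_{i < q} (h - i) ≤ 2 ∑_{x ∈ N} df x`.
-/

set_option autoImplicit false

open Real

namespace Pool.Agent.H83.CP

theorem ISA_stop (c : ℕ → ℂ) (r : ℝ) {l n : ℕ} (hl : l < n) :
    ∃ m, l ≤ m ∧ m < n ∧ (∀ i, l ≤ i → i < m → dist (c i) (c (i + 1)) ≤ r) ∧
      (m + 1 < n → r < dist (c m) (c (m + 1))) := by
  classical
  have hex : ∃ m, l ≤ m ∧ (m + 1 = n ∨ r < dist (c m) (c (m + 1))) :=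
    ⟨n - 1, by omega, Or.inl (by omega)⟩
  obtain ⟨h1, h2⟩ := Nat.find_spec hex
  obtain ⟨m, hm⟩ : ∃ m, m = Nat.find hex := ⟨_, rfl⟩
  rw [← hm] at h1 h2
  have hle : m ≤ n - 1 := by
    rw [hm]
    exact Nat.find_min' hex ⟨by omega, Or.inl (by omega)⟩
  refine ⟨m, h1, by omega, ?_, ?_⟩
  · intro i hi him
    rw [hm] at him
    have h3 := Nat.find_min hex him
    by_contra hcon
    push Not at hcon
    exact h3 ⟨hi, Or.inr hcon⟩
  · intro hmn
    rcases h2 with h2 | h2
    · omega
    · exact h2

theorem isoA {A V : Finset ℂ} {α : ℂ → ℝ} (h : Nrm V α) (hVA : V ⊆ A) {r : ℝ} (hr : 0 < r)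
    (a : ℕ) (z : ℂ) {M : ℕ} (hM : 16 ≤ M) :
    M ≤ 4 * ((ch V α a).filter (fun x => dist x z ≤ (M : ℝ) / 2 * r)).card ∨
    min ((ch V α a).filter (fun x => dist x z ≤ r)).card (hi A r).card * (hi A r).card ≤
      2 * ∑ x ∈ (ch V α a).filter (fun x => dist x z ≤ (M : ℝ) / 2 * r), df A V α r x := by
  classical
  have hM' : (16 : ℝ) ≤ M := by exact_mod_cast hM
  obtain ⟨n, hn⟩ : ∃ n, n = (ch V α a).card := ⟨_, rfl⟩
  have hV : ∀ x ∈ ch V α a, x ∈ V := fun x hx => (Finset.mem_filter.1 hx).1
  have hsec : ∀ x ∈ ch V α a, sec α x = a := fun x hx => (Finset.mem_filter.1 hx).2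
  obtain ⟨c, hc1, hc2, hc3⟩ := enum (ch V α a) α
    (fun x hx y hy he => ch_inj h (hV x hx) (hV y hy) he)
  rw [← hn] at hc1 hc2 hc3
  have hmono : ∀ i j, i ≤ j → j < n → α (c i) ≤ α (c j) := by
    intro i j hij hj
    rcases Nat.eq_or_lt_of_le hij with he | hlt
    · rw [he]
    · exact (hc2 i j hlt hj).le
  have hcinj : ∀ i j, i < n → j < n → c i = c j → i = j := by
    intro i j hi hj he
    rcases Nat.lt_trichotomy i j with h1 | h1 | h1
    · have := hc2 i j h1 hj
      rw [he] at this
      exact absurd this (lt_irrefl _)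
    · exact h1
    · have := hc2 j i h1 hi
      rw [he] at this
      exact absurd this (lt_irrefl _)
  have hm4 : ∀ i j k l, i ≤ j → j ≤ k → k ≤ l → l < n → dist (c j) (c k) ≤ dist (c i) (c l) :=
    fun i j k l h1 h2 h3 h4 => ch_mono4 h (hc1 i (by omega)) (hc1 j (by omega))
      (hc1 k (by omega)) (hc1 l h4) (hmono i j h1 (by omega)) (hmono j k h2 (by omega))
      (hmono k l h3 h4)
  obtain ⟨N, hN⟩ : ∃ N, N = (ch V α a).filter (fun x => dist x z ≤ (M : ℝ) / 2 * r) := ⟨_, rfl⟩
  obtain ⟨Y, hY⟩ : ∃ Y, Y = (ch V α a).filter (fun x => dist x z ≤ r) := ⟨_, rfl⟩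
  rw [← hN, ← hY]
  have hmemN : ∀ i, i < n → dist (c i) z ≤ (M : ℝ) / 2 * r → c i ∈ N := by
    intro i hi hd
    rw [hN, Finset.mem_filter]
    exact ⟨hc1 i hi, hd⟩
  obtain ⟨idx, hidx⟩ : ∃ idx, idx = (Finset.range n).filter (fun i => dist (c i) z ≤ r) := ⟨_, rfl⟩
  have hmidx : ∀ i, i ∈ idx ↔ i < n ∧ dist (c i) z ≤ r := by
    intro i
    rw [hidx, Finset.mem_filter, Finset.mem_range]
  have hYidx : Y.card ≤ idx.card := by
    have h1 : Y ⊆ idx.image c := by
      intro x hx
      rw [hY, Finset.mem_filter] at hx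
      obtain ⟨i, hi, rfl⟩ := hc3 x hx.1
      exact Finset.mem_image_of_mem c ((hmidx i).2 ⟨hi, hx.2⟩)
    exact (Finset.card_le_card h1).trans Finset.card_image_le
  rcases idx.eq_empty_or_nonempty with he | hne
  · right
    rw [he, Finset.card_empty] at hYidx
    have : Y.card = 0 := by omega
    rw [this]
    simp
  obtain ⟨i0, hi0⟩ : ∃ i0, i0 = idx.min' hne := ⟨_, rfl⟩
  obtain ⟨l, hl⟩ : ∃ l, l = idx.max' hne := ⟨_, rfl⟩
  have hi0m := (hmidx i0).1 (by rw [hi0]; exact idx.min'_mem hne)
  have hlm := (hmidx l).1 (by rw [hl]; exact idx.max'_mem hne)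
  have hi0l : i0 ≤ l := by
    rw [hi0, hl]
    exact Finset.min'_le_max' idx hne
  have hidxc : idx.card ≤ l + 1 - i0 := by
    have h1 : idx ⊆ Finset.Icc i0 l := by
      intro i hi
      rw [Finset.mem_Icc, hi0, hl]
      exact ⟨Finset.min'_le _ _ hi, Finset.le_max' _ _ hi⟩
    have := Finset.card_le_card h1
    rwa [Nat.card_Icc] at this
  obtain ⟨m, hlm', hmn, hm1, hm2⟩ := ISA_stop c r hlm.1
  -- points between `i0` and `l`
  have hN1 : ∀ i, i0 ≤ i → i ≤ l → c i ∈ N := by
    intro i h1 h2
    refine hmemN i (by omega) ?_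
    have e1 := hm4 i0 i0 i l le_rfl h1 h2 hlm.1
    have e2 : dist (c i0) (c l) ≤ dist (c i0) z + dist (c l) z := dist_triangle_right _ _ _
    have e3 : dist (c i) z ≤ dist (c i0) (c i) + dist (c i0) z := by
      rw [dist_comm (c i0) (c i)]
      exact dist_triangle _ _ _
    have e4 : 3 * r ≤ (M : ℝ) / 2 * r := mul_le_mul_of_nonneg_right (by linarith) hr.le
    linarith [hi0m.2, hlm.2]
  -- points between `l` and `m`
  have hstep : ∀ s, l + s ≤ m → dist (c l) (c (l + s)) ≤ s * r := by
    intro s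
    induction s with
    | zero => intro _; simp
    | succ s ih =>
      intro hs
      have e1 := ih (by omega)
      have e2 := hm1 (l + s) (by omega) (by omega)
      have e3 := dist_triangle (c l) (c (l + s)) (c (l + s + 1))
      rw [show l + (s + 1) = l + s + 1 by ring]
      push_cast
      linarith
  have hdz : ∀ s, l + s ≤ m → dist (c (l + s)) z ≤ (s + 1) * r := by
    intro s hs
    have e1 := hstep s hs
    have e2 : dist (c (l + s)) z ≤ dist (c l) (c (l + s)) + dist (c l) z := by
      rw [dist_comm (c l) (c (l + s))]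
      exact dist_triangle _ _ _
    linarith [hlm.2]
  have hMr : ((M / 2 : ℕ) : ℝ) * r ≤ (M : ℝ) / 2 * r := by
    refine mul_le_mul_of_nonneg_right ?_ hr.le
    exact_mod_cast Nat.cast_div_le
  rcases Nat.lt_or_ge (m - l + 1) (M / 2) with hcase | hcase
  · -- all points between `i0` and `m` are in `N`
    right
    have hN2 : ∀ i, i0 ≤ i → i ≤ m → c i ∈ N := by
      intro i h1 h2
      rcases Nat.lt_or_ge l i with h3 | h3
      · obtain ⟨s, rfl⟩ := Nat.exists_eq_add_of_le h3.le
        refine hmemN _ (by omega) ((hdz s h2).trans (le_trans ?_ hMr))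
        refine mul_le_mul_of_nonneg_right ?_ hr.le
        have : s + 1 ≤ M / 2 := by omega
        exact_mod_cast this
      · exact hN1 i h1 h3
    have hfw : ∀ i, i ≤ m - i0 → (fw A V α r (c (m - i))).card ≤ i := by
      intro i hii
      have h1 : fw A V α r (c (m - i)) ⊆ (Finset.Ioc (m - i) m).image c := by
        intro y hy
        rw [fw, Finset.mem_filter] at hy
        obtain ⟨hyV, hys, hya, hyd⟩ := hy
        have hych : y ∈ ch V α a := by
          rw [ch, Finset.mem_filter]
          exact ⟨hyV, hys.trans (hsec _ (hc1 (m - i) (by omega)))⟩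
        obtain ⟨j, hj, rfl⟩ := hc3 y hych
        rw [hi, Finset.mem_filter] at hyd
        have hj1 : m - i < j := by
          by_contra hcon
          push Not at hcon
          exact absurd hya (not_lt.2 (hmono j (m - i) hcon (by omega)))
        have hj2 : j ≤ m := by
          by_contra hcon
          push Not at hcon
          have e1 := hm4 (m - i) m (m + 1) j (by omega) (by omega) (by omega) hj
          have e2 := hm2 (by omega)
          linarith [hyd.2.1]
        exact Finset.mem_image_of_mem c (Finset.mem_Ioc.2 ⟨hj1, hj2⟩)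
      refine (Finset.card_le_card h1).trans (Finset.card_image_le.trans ?_)
      rw [Nat.card_Ioc]
      omega
    obtain ⟨q, hq⟩ : ∃ q, q = min Y.card (hi A r).card := ⟨_, rfl⟩
    have hq1 : q ≤ (hi A r).card := by rw [hq]; exact min_le_right _ _
    have hq2 : q ≤ m - i0 + 1 := by
      have : q ≤ Y.card := by rw [hq]; exact min_le_left _ _
      omega
    rw [← hq]
    have h1 := tri_sum (hi A r).card q hq1
    have h2 : ∑ i ∈ Finset.range q, ((hi A r).card - i) ≤
        ∑ i ∈ Finset.range q, df A V α r (c (m - i)) := by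
      refine Finset.sum_le_sum fun i hi => ?_
      rw [Finset.mem_range] at hi
      have h3 := hfw i (by omega)
      rw [df]
      omega
    have h3 : ∑ i ∈ Finset.range q, df A V α r (c (m - i)) =
        ∑ x ∈ (Finset.range q).image (fun i => c (m - i)), df A V α r x := by
      rw [Finset.sum_image]
      intro i hi j hj he
      have hi' := Finset.mem_range.1 hi
      have hj' := Finset.mem_range.1 hj
      have := hcinj (m - i) (m - j) (by omega) (by omega) he
      omega
    have h4 : ∑ x ∈ (Finset.range q).image (fun i => c (m - i)), df A V α r x ≤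
        ∑ x ∈ N, df A V α r x := by
      refine Finset.sum_le_sum_of_subset ?_
      intro x hx
      obtain ⟨i, hi, rfl⟩ := Finset.mem_image.1 hx
      have hi' := Finset.mem_range.1 hi
      exact hN2 (m - i) (by omega) (by omega)
    omega
  · -- many points in `N`
    left
    have h1 : (Finset.range (M / 2)).image (fun s => c (l + s)) ⊆ N := by
      intro x hx
      obtain ⟨s, hs, rfl⟩ := Finset.mem_image.1 hx
      have hs' := Finset.mem_range.1 hs
      refine hmemN _ (by omega) ((hdz s (by omega)).trans (le_trans ?_ hMr))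
      refine mul_le_mul_of_nonneg_right ?_ hr.le
      have : s + 1 ≤ M / 2 := by omega
      exact_mod_cast this
    have h2 : ((Finset.range (M / 2)).image (fun s => c (l + s))).card = M / 2 := by
      rw [Finset.card_image_of_injOn, Finset.card_range]
      intro i hi j hj he
      have hi' := Finset.mem_range.1 hi
      have hj' := Finset.mem_range.1 hj
      have := hcinj (l + i) (l + j) (by omega) (by omega) he
      omega
    have h3 := Finset.card_le_card h1
    rw [h2] at h3
    omega

end Pool.Agent.H83.CP
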