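import Pool.Agent.H83.CP.DC

/-!
# MU: the multiplicity inequality

`H = hi A r`, `h = H.card`, `n = A.card`. `∑_{d ∈ H} mul A d ≥ h (2 n + 1)`. The left side is the number of `p ∈ A.offDiag` with `dist p.1 p.2 ∈ H`. These pairs are
(1) `p.1, p.2 ∈ V` in the same sector: `α p.1 ≠ α p.2` (`ch_inj`), so `p.2 ∈ fw p.1` or `p.1 ∈ fw p.2`: at most `2 ∑_{x ∈ V} (fw x).card`;
`(fw x).card ≤ h` because `y ↦ dist x y` is injective on `fw x` (`ch_mono`) with values in `H`; so `(fw x).card = h - df x`;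
(2) `p.1, p.2 ∈ V` in different sectors: the cross pairs (`H`-distances are `≤ r`);
(3) `p.1 ∉ V` or `p.2 ∉ V`: at most `2 t (B k 1 + t)` (`disc_A` with `L = 1`).
So `h (2 n + 1) ≤ 2 (h V.card - ∑ df) + cross + 2 t (B k 1 + t)`, and `V.card ≤ n`.
-/

set_option autoImplicit false

open Real

noncomputable section

namespace Pool.Agent.H83.CP

/-- ordered cross pairs at distance `≤ r` -/
def cross (V : Finset ℂ) (α : ℂ → ℝ) (r : ℝ) : Finset (ℂ × ℂ) :=
  (V ×ˢ V).filter (fun p => sec α p.1 ≠ sec α p.2 ∧ dist p.1 p.2 ≤ r)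

open Classical in
theorem MU_prod (S T : Finset ℂ) (R : ℂ → ℂ → Prop) :
    ((S ×ˢ T).filter (fun p => R p.1 p.2)).card = ∑ x ∈ S, (T.filter (fun y => R x y)).card := by
  rw [Finset.card_filter, Finset.sum_product]
  exact Finset.sum_congr rfl fun x _ => (Finset.card_filter _ _).symm

open Classical in
theorem MU_prod' (S T : Finset ℂ) (R : ℂ → ℂ → Prop) :
    ((T ×ˢ S).filter (fun p => R p.2 p.1)).card = ∑ x ∈ S, (T.filter (fun y => R x y)).card := by
  rw [Finset.card_filter, Finset.sum_product_right]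
  exact Finset.sum_congr rfl fun x _ => (Finset.card_filter _ _).symm

theorem MU_hi {A : Finset ℂ} {r d : ℝ} (h : d ∈ hi A r) : d ≤ r ∧ 2 * A.card < mul A d :=
  (Finset.mem_filter.1 h).2

theorem MU_fw_card {A V : Finset ℂ} {α : ℂ → ℝ} (h : Nrm V α) (r : ℝ) {x : ℂ} (hx : x ∈ V) :
    (fw A V α r x).card ≤ (hi A r).card := by
  refine Finset.card_le_card_of_injOn (fun y => dist x y) ?_ ?_
  · intro y hy
    exact (Finset.mem_filter.1 (Finset.mem_coe.1 hy)).2.2.2
  · intro y hy z hz hyz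
    obtain ⟨hyV, hys, hyl, _⟩ := Finset.mem_filter.1 (Finset.mem_coe.1 hy)
    obtain ⟨hzV, hzs, hzl, _⟩ := Finset.mem_filter.1 (Finset.mem_coe.1 hz)
    have hx' : x ∈ ch V α (sec α x) := Finset.mem_filter.2 ⟨hx, rfl⟩
    have hy' : y ∈ ch V α (sec α x) := Finset.mem_filter.2 ⟨hyV, hys⟩
    have hz' : z ∈ ch V α (sec α x) := Finset.mem_filter.2 ⟨hzV, hzs⟩
    have hyz' : dist x y = dist x z := hyz
    rcases lt_trichotomy (α y) (α z) with h1 | h1 | h1
    · exact absurd hyz' (ch_mono h hx' hy' hz' hyl h1).1.ne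
    · exact ch_inj h hyV hzV h1
    · exact absurd hyz'.symm (ch_mono h hx' hz' hy' hzl h1).1.ne

theorem MU_sum {A V : Finset ℂ} {α : ℂ → ℝ} (h : Nrm V α) (r : ℝ) :
    ∑ x ∈ V, df A V α r x + ∑ x ∈ V, (fw A V α r x).card = V.card * (hi A r).card := by
  rw [← Finset.sum_add_distrib, Finset.sum_congr rfl
    (g := fun _ => (hi A r).card) (fun x hx => ?_), Finset.sum_const, smul_eq_mul]
  have h1 := MU_fw_card (A := A) h r hx
  rw [df]
  omega

open Classical in
theorem MU_low (A : Finset ℂ) (r : ℝ) :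
    (hi A r).card * (2 * A.card + 1) ≤
      (A.offDiag.filter (fun p => dist p.1 p.2 ∈ hi A r)).card := by
  have hmaps : Set.MapsTo (fun p : ℂ × ℂ => dist p.1 p.2)
      (↑(A.offDiag.filter (fun p => dist p.1 p.2 ∈ hi A r)) : Set (ℂ × ℂ)) ↑(hi A r) :=
    fun p hp => (Finset.mem_filter.1 (Finset.mem_coe.1 hp)).2
  rw [Finset.card_eq_sum_card_fiberwise hmaps]
  rw [← smul_eq_mul]
  refine Finset.card_nsmul_le_sum _ _ _ fun d hd => ?_
  have h1 := (MU_hi hd).2
  have h2 : mul A d ≤ ((A.offDiag.filter (fun p => dist p.1 p.2 ∈ hi A r)).filter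
      (fun p => dist p.1 p.2 = d)).card := by
    rw [mul]
    refine Finset.card_le_card fun p hp => ?_
    obtain ⟨h3, h4⟩ := Finset.mem_filter.1 hp
    refine Finset.mem_filter.2 ⟨Finset.mem_filter.2 ⟨h3, ?_⟩, h4⟩
    rw [h4]
    exact hd
  omega

open Classical in
theorem MU_cover {A V : Finset ℂ} {α : ℂ → ℝ} (h : Nrm V α) (r : ℝ) :
    A.offDiag.filter (fun p => dist p.1 p.2 ∈ hi A r) ⊆
      (((V ×ˢ V).filter (fun p => p.2 ∈ fw A V α r p.1) ∪
        (V ×ˢ V).filter (fun p => p.1 ∈ fw A V α r p.2)) ∪ cross V α r) ∪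
      (((A \ V) ×ˢ A).filter (fun p => dist p.2 p.1 ≤ ((1 : ℕ) : ℝ) * r) ∪
        (A ×ˢ (A \ V)).filter (fun p => dist p.1 p.2 ≤ ((1 : ℕ) : ℝ) * r)) := by
  rintro ⟨x, y⟩ hp
  obtain ⟨h1, h2⟩ := Finset.mem_filter.1 hp
  obtain ⟨hx, hy, hne⟩ := Finset.mem_offDiag.1 h1
  have hx : x ∈ A := hx
  have hy : y ∈ A := hy
  have hne : x ≠ y := hne
  have h2 : dist x y ∈ hi A r := h2
  have hr : dist x y ≤ r := (MU_hi h2).1
  rw [Finset.mem_union, Finset.mem_union, Finset.mem_union, Finset.mem_union]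
  by_cases hxV : x ∈ V
  · by_cases hyV : y ∈ V
    · left
      by_cases hs : sec α x = sec α y
      · left
        rcases lt_trichotomy (α x) (α y) with h3 | h3 | h3
        · left
          exact Finset.mem_filter.2 ⟨Finset.mem_product.2 ⟨hxV, hyV⟩,
            Finset.mem_filter.2 ⟨hyV, hs.symm, h3, h2⟩⟩
        · exact absurd (ch_inj h hxV hyV h3) hne
        · right
          refine Finset.mem_filter.2 ⟨Finset.mem_product.2 ⟨hxV, hyV⟩,
            Finset.mem_filter.2 ⟨hxV, hs, h3, ?_⟩⟩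
          show dist y x ∈ hi A r
          rw [dist_comm]
          exact h2
      · right
        exact Finset.mem_filter.2 ⟨Finset.mem_product.2 ⟨hxV, hyV⟩, hs, hr⟩
    · right; right
      refine Finset.mem_filter.2 ⟨Finset.mem_product.2 ⟨hx, Finset.mem_sdiff.2 ⟨hy, hyV⟩⟩, ?_⟩
      show dist x y ≤ ((1 : ℕ) : ℝ) * r
      rw [Nat.cast_one, one_mul]
      exact hr
  · right; left
    refine Finset.mem_filter.2 ⟨Finset.mem_product.2 ⟨Finset.mem_sdiff.2 ⟨hx, hxV⟩, hy⟩, ?_⟩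
    show dist y x ≤ ((1 : ℕ) : ℝ) * r
    rw [Nat.cast_one, one_mul, dist_comm]
    exact hr

open Classical in
theorem MU_fwV {A V : Finset ℂ} {α : ℂ → ℝ} (r : ℝ) (x : ℂ) :
    V.filter (fun y => y ∈ fw A V α r x) = fw A V α r x := by
  rw [Finset.filter_mem_eq_inter]
  exact Finset.inter_eq_right.2 (Finset.filter_subset _ _)

theorem mu_ineq {A V : Finset ℂ} {α : ℂ → ℝ} {C t : ℕ} (h : Cfg A V α C t) {r : ℝ} (hr : 0 < r) :
    (hi A r).card + 2 * ∑ x ∈ V, df A V α r x ≤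
      (cross V α r).card + 2 * (t * (B (dle A r).card 1 + t)) := by
  classical
  have h1 := MU_low A r
  have h2 := Finset.card_le_card (MU_cover (A := A) h.nrm r)
  have h3 := MU_sum (A := A) h.nrm r
  have e1 : ((V ×ˢ V).filter (fun p => p.2 ∈ fw A V α r p.1)).card =
      ∑ x ∈ V, (fw A V α r x).card := by
    refine Eq.trans (b := ∑ x ∈ V, (V.filter (fun y => y ∈ fw A V α r x)).card) ?_
      (Finset.sum_congr rfl fun x _ => ?_)
    · convert! MU_prod V V (fun x y => y ∈ fw A V α r x)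
    · congr 1
      convert! MU_fwV (A := A) (α := α) r x
  have e2 : ((V ×ˢ V).filter (fun p => p.1 ∈ fw A V α r p.2)).card =
      ∑ x ∈ V, (fw A V α r x).card := by
    refine Eq.trans (b := ∑ x ∈ V, (V.filter (fun y => y ∈ fw A V α r x)).card) ?_
      (Finset.sum_congr rfl fun x _ => ?_)
    · convert! MU_prod' V V (fun x y => y ∈ fw A V α r x)
    · congr 1
      convert! MU_fwV (A := A) (α := α) r x
  have hdisc : ∑ x ∈ A \ V, (A.filter (fun y => dist y x ≤ ((1 : ℕ) : ℝ) * r)).card ≤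
      t * (B (dle A r).card 1 + t) := by
    refine (Finset.sum_le_card_nsmul _ _ (B (dle A r).card 1 + t) fun x _ => ?_).trans ?_
    · convert! disc_A h hr 1 x
    · rw [smul_eq_mul]
      exact Nat.mul_le_mul_right _ h.ext
  have e3 : (((A \ V) ×ˢ A).filter (fun p => dist p.2 p.1 ≤ ((1 : ℕ) : ℝ) * r)).card =
      ∑ x ∈ A \ V, (A.filter (fun y => dist y x ≤ ((1 : ℕ) : ℝ) * r)).card :=
    MU_prod (A \ V) A (fun x y => dist y x ≤ ((1 : ℕ) : ℝ) * r)
  have e4 : ((A ×ˢ (A \ V)).filter (fun p => dist p.1 p.2 ≤ ((1 : ℕ) : ℝ) * r)).card =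
      ∑ x ∈ A \ V, (A.filter (fun y => dist y x ≤ ((1 : ℕ) : ℝ) * r)).card :=
    MU_prod' (A \ V) A (fun x y => dist y x ≤ ((1 : ℕ) : ℝ) * r)
  have h4 := h2.trans (Finset.card_union_le _ _)
  have h5 := h4.trans (Nat.add_le_add (Finset.card_union_le _ _) (Finset.card_union_le _ _))
  have h6 := Finset.card_union_le ((V ×ˢ V).filter (fun p => p.2 ∈ fw A V α r p.1))
    ((V ×ˢ V).filter (fun p => p.1 ∈ fw A V α r p.2))
  rw [e3, e4] at h5
  rw [e1, e2] at h6
  have h7 : V.card * (hi A r).card ≤ A.card * (hi A r).card :=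
    Nat.mul_le_mul_right _ (Finset.card_le_card h.sub)
  have h8 : (hi A r).card * (2 * A.card + 1) = 2 * (A.card * (hi A r).card) + (hi A r).card := by
    ring
  rw [h8] at h1
  omega

end Pool.Agent.H83.CP
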