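import Pool.Agent.H83.CP.Defs

/-!
# NO: existence of the normals

If `V` has at most one point, `α = 0`. Otherwise for `x ∈ V` the set `convexHull ℝ (V \ {x})` is convex and closed (compact: `Set.Finite.isCompact_convexHull`), `x` is not in it, so by
`geometric_hahn_banach_point_closed` there is a continuous linear `f` with `f x < u < f y` for all `y ∈ V \ {x}`. `f z = p re z + q im z` (`p = f 1`, `q = f I`); `(p, q) ≠ 0` (as `V` has another point).
`-(p, q) = R (cos α, sin α)` with `R > 0` and `α ∈ [0, 2 π)` (`Complex.arg`, or `toIcoMod`). Then `pr α (x - y) = (f y - f x) / R > 0`. Choose `α` on `V` (`0` elsewhere).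
-/

set_option autoImplicit false

open Real

namespace Pool.Agent.H83.CP

theorem NO_arg {c : ℂ} (hc : c ≠ 0) :
    ∃ θ : ℝ, 0 ≤ θ ∧ θ < 2 * π ∧ cos θ = c.re / ‖c‖ ∧ sin θ = c.im / ‖c‖ := by
  have h1 := Complex.cos_arg hc
  have h2 := Complex.sin_arg c
  have h3 := Complex.neg_pi_lt_arg c
  have h4 := Complex.arg_le_pi c
  have h5 := Real.pi_pos
  rcases le_or_gt 0 (Complex.arg c) with h | h
  · exact ⟨Complex.arg c, h, by linarith, h1, h2⟩
  · refine ⟨Complex.arg c + 2 * π, by linarith, by linarith, ?_, ?_⟩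
    · rw [Real.cos_add_two_pi, h1]
    · rw [Real.sin_add_two_pi, h2]

theorem NO_fun (f : ℂ →L[ℝ] ℝ) (z : ℂ) : f z = z.re * f 1 + z.im * f Complex.I := by
  have h1 : z = z.re • (1 : ℂ) + z.im • Complex.I := by
    simp
  calc f z = f (z.re • (1 : ℂ) + z.im • Complex.I) := by rw [← h1]
    _ = z.re * f 1 + z.im * f Complex.I := by
      rw [map_add, map_smul, map_smul, smul_eq_mul, smul_eq_mul]

theorem NO_one (V : Finset ℂ) {x : ℂ} (hx : x ∉ convexHull ℝ ((V : Set ℂ) \ {x})) :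
    ∃ θ : ℝ, (0 ≤ θ ∧ θ < 2 * π) ∧ ∀ y ∈ V, y ≠ x → 0 < pr θ (x - y) := by
  by_cases hne : ∃ y ∈ V, y ≠ x
  · obtain ⟨y₀, hy₀, hy₀x⟩ := hne
    have hfin : ((V : Set ℂ) \ {x}).Finite := V.finite_toSet.subset Set.sdiff_subset
    obtain ⟨f, u, h1, h2⟩ := geometric_hahn_banach_point_closed
      (convex_convexHull ℝ ((V : Set ℂ) \ {x})) (hfin.isClosed_convexHull ℝ) hx
    have h3 : ∀ y ∈ V, y ≠ x → f x < f y := by
      intro y hy hyx
      exact h1.trans (h2 y (subset_convexHull ℝ _ ⟨hy, hyx⟩))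
    have hc : (⟨-(f 1), -(f Complex.I)⟩ : ℂ) ≠ 0 := by
      intro h
      have e1 : f 1 = 0 := by
        have := congrArg Complex.re h
        simpa using this
      have e2 : f Complex.I = 0 := by
        have := congrArg Complex.im h
        simpa using this
      have h4 := h3 y₀ hy₀ hy₀x
      rw [NO_fun f x, NO_fun f y₀, e1, e2] at h4
      simp at h4
    obtain ⟨θ, t1, t2, t3, t4⟩ := NO_arg hc
    refine ⟨θ, ⟨t1, t2⟩, fun y hy hyx => ?_⟩
    have hpos : 0 < ‖(⟨-(f 1), -(f Complex.I)⟩ : ℂ)‖ := norm_pos_iff.2 hc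
    have e : pr θ (x - y) = (f y - f x) / ‖(⟨-(f 1), -(f Complex.I)⟩ : ℂ)‖ := by
      rw [pr, t3, t4, NO_fun f x, NO_fun f y, Complex.sub_re, Complex.sub_im]
      show (x.re - y.re) * (-(f 1) / _) + (x.im - y.im) * (-(f Complex.I) / _) = _
      field_simp
      ring
    rw [e]
    exact div_pos (sub_pos.2 (h3 y hy hyx)) hpos
  · refine ⟨0, ⟨le_rfl, by positivity⟩, fun y hy hyx => ?_⟩
    exact absurd ⟨y, hy, hyx⟩ hne

theorem normals (V : Finset ℂ) (hV : ∀ x ∈ V, x ∉ convexHull ℝ ((V : Set ℂ) \ {x})) :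
    ∃ α : ℂ → ℝ, Nrm V α := by
  choose! α h1 h2 using fun x (hx : x ∈ V) => NO_one V (hV x hx)
  exact ⟨α, ⟨h1, h2⟩⟩

end Pool.Agent.H83.CP
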