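import Pool.Agent.H83.CP.STB
import Pool.Agent.H83.CP.FI
import Pool.Agent.H83.CP.NO

/-!
# REC: the theorem for complex numbers

Given `M, t` let `C = M`; `K, τ0` from `FI C t`, `N` from `STB C t (3 K) τ0`. If `(low A).card < M` then `normals` and the two theorems give a contradiction.
-/

set_option autoImplicit false

open Real

namespace Pool.Agent.H83.CP

theorem main_C (M t : ℕ) : ∃ N : ℕ, ∀ A V : Finset ℂ, V ⊆ A → (A \ V).card ≤ t →
    (∀ x ∈ V, x ∉ convexHull ℝ ((V : Set ℂ) \ {x})) → N ≤ A.card → M ≤ (low A).card := by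
  obtain ⟨K, τ0, hτ0, hFI⟩ := FI M t
  obtain ⟨N, hN⟩ := STB M t (3 * K) τ0 hτ0
  refine ⟨N, ?_⟩
  intro A V hVA ht hV hA
  by_contra hcon
  push Not at hcon
  obtain ⟨α, hα⟩ := normals V hV
  have hcfg : Cfg A V α M t := ⟨hVA, hα, ht, hcon.le⟩
  obtain ⟨ρ, τ, h1, h2, h3, h4, h5⟩ := hN A V α hcfg hA
  exact hFI A V α hcfg ρ τ h1 h2 h3 h4 h5

end Pool.Agent.H83.CP
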