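import Pool.Agent.H83.CP.REC

/-!
# REE: the theorem for the Euclidean plane

Transfer `main_C` with the map `e x = ⟨x 0, x 1⟩` (a linear isometry onto `ℂ`, e.g. `Complex.orthonormalBasisOneI.repr.symm`), which preserves distances, cardinalities and convex hulls
(`LinearMap.image_convexHull`): `A' = A.image e`, `V' = V.image e`. The set of distances of `A'` is that of `A`, and the multiplicities are the same.
-/

set_option autoImplicit false

open Real

namespace Pool.Agent.H83.CP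

open Classical in
theorem main_E (M t : ℕ) : ∃ N : ℕ, ∀ A V : Finset (EuclideanSpace ℝ (Fin 2)), V ⊆ A →
    (A \ V).card ≤ t →
    (∀ x ∈ V, x ∉ convexHull ℝ ((V : Set (EuclideanSpace ℝ (Fin 2))) \ {x})) → N ≤ A.card →
    M ≤ ((A.offDiag.image (fun p => dist p.1 p.2)).filter
      (fun d => (A.offDiag.filter (fun p => dist p.1 p.2 = d)).card ≤ 2 * A.card)).card := by
  obtain ⟨N, hN⟩ := main_C M t
  refine ⟨N, fun A V hVA ht hV hA => ?_⟩
  let e : EuclideanSpace ℝ (Fin 2) ≃ₗᵢ[ℝ] ℂ := Complex.orthonormalBasisOneI.repr.symm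
  let ι : EuclideanSpace ℝ (Fin 2) ↪ ℂ := ⟨e, e.injective⟩
  have hι : ∀ x, ι x = e x := fun x => rfl
  have hd : ∀ x y, dist (ι x) (ι y) = dist x y := fun x y => e.dist_map x y
  have h1 : V.map ι ⊆ A.map ι := Finset.map_subset_map.2 hVA
  have h2 : (A.map ι \ V.map ι).card ≤ t := by
    refine le_trans ?_ ht
    rw [← Finset.card_map (s := A \ V) ι]
    apply Finset.card_le_card
    intro z hz
    obtain ⟨hz1, hz2⟩ := Finset.mem_sdiff.1 hz
    obtain ⟨x, hx, rfl⟩ := Finset.mem_map.1 hz1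
    refine Finset.mem_map.2 ⟨x, Finset.mem_sdiff.2 ⟨hx, fun hxV => ?_⟩, rfl⟩
    exact hz2 (Finset.mem_map_of_mem ι hxV)
  have h3 : ∀ x ∈ V.map ι, x ∉ convexHull ℝ (((V.map ι : Finset ℂ) : Set ℂ) \ {x}) := by
    intro z hz hconv
    obtain ⟨x, hx, rfl⟩ := Finset.mem_map.1 hz
    have e1 : ((V.map ι : Finset ℂ) : Set ℂ) \ {ι x}
        = e.toLinearEquiv.toLinearMap '' ((V : Set (EuclideanSpace ℝ (Fin 2))) \ {x}) := by
      ext w
      constructor
      · rintro ⟨hw1, hw2⟩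
        obtain ⟨y, hy, rfl⟩ := Finset.mem_map.1 (Finset.mem_coe.1 hw1)
        refine ⟨y, ⟨Finset.mem_coe.2 hy, ?_⟩, rfl⟩
        rintro rfl
        exact hw2 rfl
      · rintro ⟨y, ⟨hy1, hy2⟩, rfl⟩
        refine ⟨Finset.mem_coe.2 (Finset.mem_map_of_mem ι (Finset.mem_coe.1 hy1)), ?_⟩
        intro h
        exact hy2 (e.injective h)
    rw [e1, ← LinearMap.image_convexHull] at hconv
    obtain ⟨y, hy, hyx⟩ := hconv
    have h4 : y = x := e.injective hyx
    rw [h4] at hy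
    exact hV x hx hy
  have h4 : N ≤ (A.map ι).card := by rw [Finset.card_map]; exact hA
  refine (hN (A.map ι) (V.map ι) h1 h2 h3 h4).trans ?_
  apply Finset.card_le_card
  intro d hd'
  obtain ⟨hd1, hd2⟩ := Finset.mem_filter.1 hd'
  refine Finset.mem_filter.2 ⟨?_, ?_⟩
  · obtain ⟨⟨p, q⟩, hpq, rfl⟩ := Finset.mem_image.1 hd1
    obtain ⟨hp, hq, hne⟩ := Finset.mem_offDiag.1 hpq
    obtain ⟨x, hx, hxp⟩ := Finset.mem_map.1 hp
    obtain ⟨y, hy, hyq⟩ := Finset.mem_map.1 hq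
    refine Finset.mem_image.2 ⟨(x, y), Finset.mem_offDiag.2 ⟨hx, hy, ?_⟩, ?_⟩
    · intro (h : x = y)
      exact hne (hxp.symm.trans ((congrArg ι h).trans hyq))
    · show dist x y = dist p q
      rw [← hd x y, hxp, hyq]
  · rw [Finset.card_map] at hd2
    refine le_trans ?_ hd2
    unfold mul
    refine Finset.card_le_card_of_injOn (fun p => (ι p.1, ι p.2)) ?_ ?_
    · rintro ⟨x, y⟩ hxy
      obtain ⟨hxy1, hxy2⟩ := Finset.mem_filter.1 (Finset.mem_coe.1 hxy)
      obtain ⟨hx, hy, hne⟩ := Finset.mem_offDiag.1 hxy1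
      refine Finset.mem_coe.2 (Finset.mem_filter.2 ⟨Finset.mem_offDiag.2
        ⟨Finset.mem_map_of_mem ι hx, Finset.mem_map_of_mem ι hy, ?_⟩, ?_⟩)
      · intro h
        exact hne (ι.injective h)
      · show dist (ι x) (ι y) = d
        rw [hd]
        exact hxy2
    · rintro ⟨x, y⟩ _ ⟨x', y'⟩ _ h
      have h5 := Prod.ext_iff.1 h
      exact Prod.ext (ι.injective h5.1) (ι.injective h5.2)

end Pool.Agent.H83.CP
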