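import Pool.Agent.H83.CP.DEA

/-!
# RG: rigidity

For `i + 3 p + 3 < L` and `m < m'` with `m, m', m' - m ∈ [p, 3 p + 2]`: `z = (c (i+m') - c i) / (c (i+m) - c i)` has `‖z‖ = f m' / f m`,
`‖z - 1‖ = f (m' - m) / f m`, `im z > 0` (`hor`); same for `i + 1`. So `z` is the same for `i` and `i + 1` (`DEA_eq`).
Put `ζ i := (c (i+1+p) - c (i+1)) / (c (i+p) - c i)`. Then
(★) `c (i+1+m) - c (i+1) = ζ i * (c (i+m) - c i)` for `m = p`, for `m ∈ [2p, 3p+2]` (pairs `(p, m)`), and for `m = p + 1` (pair `(p + 1, 2 p + 1)`, and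
(★) for `m = 2 p + 1`). Subtracting (★) for `m = p` from `m = 2 p`: `ζ (i + p) = ζ i`; subtracting (★) for `p + 1` from `2 p + 1`: `ζ (i + p + 1) = ζ i`.
So `ζ j = ζ (j + 1)` for `p ≤ j`, `j + 2 p + 3 < L`; `ζ j = ζ` constant. (★) for `m = p`, `p + 1`: `e j := c (j+1) - ζ c j` satisfies `e (i + p) = e i = e (i + p + 1)` for
`i ≥ p`, so `e` is constant from `2 p` on. `‖ζ‖ = 1` because both distances are `f p ≠ 0`.
-/

set_option autoImplicit false

open Real

namespace Pool.Agent.H83.CP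

private theorem RG_ne {c : ℕ → ℂ} {L : ℕ}
    (hor : ∀ i j l, i < j → j < l → l < L → 0 < crs (c j - c i) (c l - c i))
    {i j : ℕ} (h1 : i < j) (h2 : j + 1 < L) : c j - c i ≠ 0 := by
  intro h0
  have h := hor i j (j + 1) h1 (Nat.lt_succ_self j) h2
  rw [h0] at h
  simp [crs] at h

private theorem RG_z {c : ℕ → ℂ} {L p : ℕ} (f : ℕ → ℝ) (hp : 1 ≤ p)
    (hd : ∀ i m, i + m < L → p ≤ m → m ≤ 3 * p + 2 → dist (c i) (c (i + m)) = f m)
    (hor : ∀ i j l, i < j → j < l → l < L → 0 < crs (c j - c i) (c l - c i))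
    {i m n : ℕ} (h1 : p ≤ m) (h2 : p ≤ n) (h3 : m + n ≤ 3 * p + 2) (hi : i + 1 + (m + n) < L) :
    (c (i + 1 + (m + n)) - c (i + 1)) * (c (i + m) - c i) =
      (c (i + (m + n)) - c i) * (c (i + 1 + m) - c (i + 1)) := by
  have hne : ∀ k, k + (m + n) < L → c (k + m) - c k ≠ 0 := fun k hk =>
    RG_ne hor (by omega) (by omega)
  have hdm : ∀ k l, k + l < L → p ≤ l → l ≤ 3 * p + 2 → ‖c (k + l) - c k‖ = f l := by
    intro k l h4 h5 h6
    rw [← dist_eq_norm, dist_comm]
    exact hd k l h4 h5 h6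
  have hZ : ∀ k, k + (m + n) < L → 0 < ((c (k + (m + n)) - c k) / (c (k + m) - c k)).im ∧
      ‖(c (k + (m + n)) - c k) / (c (k + m) - c k)‖ = f (m + n) / f m ∧
      ‖(c (k + (m + n)) - c k) / (c (k + m) - c k) - 1‖ = f n / f m := by
    intro k hk
    have h0 := hne k hk
    refine ⟨?_, ?_, ?_⟩
    · rw [Complex.div_im]
      have h4 := hor k (k + m) (k + (m + n)) (by omega) (by omega) hk
      have h5 : 0 < Complex.normSq (c (k + m) - c k) := Complex.normSq_pos.2 h0
      unfold crs at h4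
      rw [← sub_div]
      apply div_pos _ h5
      linarith
    · rw [norm_div, hdm k _ hk (by omega) h3, hdm k m (by omega) h1 (by omega)]
    · have e : (c (k + (m + n)) - c k) / (c (k + m) - c k) - 1 =
          (c (k + m + n) - c (k + m)) / (c (k + m) - c k) := by
        rw [div_sub_one h0]
        congr 1
        rw [add_assoc k m n]
        ring
      rw [e, norm_div, hdm (k + m) n (by omega) h2 (by omega), hdm k m (by omega) h1 (by omega)]
  obtain ⟨a1, a2, a3⟩ := hZ i (by omega)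
  obtain ⟨b1, b2, b3⟩ := hZ (i + 1) hi
  have h4 := DEA_eq b1 a1 (by rw [a2, b2]) (by rw [a3, b3])
  rw [div_eq_div_iff (hne (i + 1) hi) (hne i (by omega))] at h4
  exact h4

theorem rigid {c : ℕ → ℂ} {L p : ℕ} (hp : 1 ≤ p) (f : ℕ → ℝ)
    (hd : ∀ i m, i + m < L → p ≤ m → m ≤ 3 * p + 2 → dist (c i) (c (i + m)) = f m)
    (hor : ∀ i j l, i < j → j < l → l < L → 0 < crs (c j - c i) (c l - c i))
    (hL : 5 * p + 6 ≤ L) :
    ∃ ζ e : ℂ, ‖ζ‖ = 1 ∧ ∀ i, 2 * p ≤ i → i + 3 * p + 4 ≤ L → c (i + 1) = ζ * c i + e := by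
  have hne : ∀ i j, i < j → j + 1 < L → c j - c i ≠ 0 := fun i j h1 h2 => RG_ne hor h1 h2
  obtain ⟨ζ, hζ⟩ : ∃ ζ : ℕ → ℂ, ζ = fun i => (c (i + 1 + p) - c (i + 1)) / (c (i + p) - c i) :=
    ⟨_, rfl⟩
  -- the relation for the length `p`
  have sp : ∀ i, i + p + 1 < L → c (i + 1 + p) - c (i + 1) = ζ i * (c (i + p) - c i) := by
    intro i hi
    rw [hζ]
    simp only
    rw [div_mul_cancel₀ _ (hne i (i + p) (by omega) hi)]
  have sm : ∀ i n, p ≤ n → p + n ≤ 3 * p + 2 → i + 3 * p + 3 < L →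
      c (i + 1 + (p + n)) - c (i + 1) = ζ i * (c (i + (p + n)) - c i) := by
    intro i n h1 h2 h3
    have h4 := RG_z f hp hd hor (i := i) (m := p) (n := n) le_rfl h1 h2 (by omega)
    rw [sp i (by omega)] at h4
    apply mul_right_cancel₀ (hne i (i + p) (by omega) (by omega))
    rw [h4]
    ring
  have s1 : ∀ i, i + 3 * p + 3 < L →
      c (i + 1 + (p + 1)) - c (i + 1) = ζ i * (c (i + (p + 1)) - c i) := by
    intro i h3
    have h4 := RG_z f hp hd hor (i := i) (m := p + 1) (n := p) (by omega) le_rfl (by omega)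
      (by omega)
    have h5 := sm i (p + 1) (by omega) (by omega) h3
    rw [show p + 1 + p = p + (p + 1) by omega, h5] at h4
    apply mul_left_cancel₀ (hne i (i + (p + (p + 1))) (by omega) (by omega))
    rw [← h4]
    ring
  -- `ζ` is constant
  have z1 : ∀ i, i + 3 * p + 3 < L → ζ (i + p) = ζ i := by
    intro i h3
    have h4 := sp (i + p) (by omega)
    have h5 := sp i (by omega)
    have h6 := sm i p le_rfl (by omega) h3
    apply mul_right_cancel₀ (hne (i + p) (i + p + p) (by omega) (by omega))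
    rw [← h4, show i + p + 1 + p = i + 1 + (p + p) by ring, show i + p + 1 = i + 1 + p by ring,
      show i + p + p = i + (p + p) by ring]
    linear_combination h6 - h5
  have z2 : ∀ i, i + 3 * p + 3 < L → ζ (i + p + 1) = ζ i := by
    intro i h3
    have h4 := sp (i + p + 1) (by omega)
    have h5 := s1 i h3
    have h6 := sm i (p + 1) (by omega) (by omega) h3
    apply mul_right_cancel₀ (hne (i + p + 1) (i + p + 1 + p) (by omega) (by omega))
    rw [← h4, show i + p + 1 + 1 + p = i + 1 + (p + (p + 1)) by ring,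
      show i + p + 1 + 1 = i + 1 + (p + 1) by ring,
      show i + p + 1 + p = i + (p + (p + 1)) by ring, show i + p + 1 = i + (p + 1) by ring]
    linear_combination h6 - h5
  have z3 : ∀ k, p + k + 2 * p + 3 ≤ L → ζ (p + k) = ζ p := by
    intro k
    induction k with
    | zero => intro _; rfl
    | succ k ih =>
      intro hk
      rw [← ih (by omega)]
      have h4 := z1 k (by omega)
      have h5 := z2 k (by omega)
      rw [show p + (k + 1) = k + p + 1 by ring, show p + k = k + p by ring, h4, h5]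
  have hζn : ‖ζ p‖ = 1 := by
    have h4 := sp p (by omega)
    have h5 := congrArg norm h4
    rw [norm_mul] at h5
    have h6 := hd (p + 1) p (by omega) le_rfl (by omega)
    have h7 := hd p p (by omega) le_rfl (by omega)
    rw [dist_comm, dist_eq_norm] at h6 h7
    rw [h6, h7] at h5
    have h8 : f p ≠ 0 := by
      rw [← h7, norm_ne_zero_iff]
      exact hne p (p + p) (by omega) (by omega)
    have h9 : (‖ζ p‖ - 1) * f p = 0 := by linarith
    rcases mul_eq_zero.1 h9 with h | h
    · linarith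
    · exact absurd h h8
  -- the translation part
  have e1 : ∀ i, p ≤ i → i + 3 * p + 3 < L →
      c (i + p + 1) - ζ p * c (i + p) = c (i + 1) - ζ p * c i ∧
      c (i + p + 1 + 1) - ζ p * c (i + p + 1) = c (i + 1) - ζ p * c i := by
    intro i hpi h3
    obtain ⟨k, rfl⟩ := Nat.exists_eq_add_of_le hpi
    have h4 := sp (p + k) (by omega)
    have h5 := s1 (p + k) h3
    rw [z3 k (by omega)] at h4 h5
    constructor
    · rw [show p + k + p + 1 = p + k + 1 + p by ring]
      linear_combination h4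
    · rw [show p + k + p + 1 + 1 = p + k + 1 + (p + 1) by ring,
        show p + k + p + 1 = p + k + (p + 1) by ring]
      linear_combination h5
  have e2 : ∀ k, 2 * p + k + 2 * p + 3 ≤ L →
      c (2 * p + k + 1) - ζ p * c (2 * p + k) = c (2 * p + 1) - ζ p * c (2 * p) := by
    intro k
    induction k with
    | zero => intro _; rfl
    | succ k ih =>
      intro hk
      rw [← ih (by omega)]
      obtain ⟨h4, h5⟩ := e1 (p + k) (by omega) (by omega)
      rw [show 2 * p + (k + 1) + 1 = p + k + p + 1 + 1 by ring,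
        show 2 * p + (k + 1) = p + k + p + 1 by ring, h5, ← h4,
        show p + k + p + 1 = 2 * p + k + 1 by ring, show p + k + p = 2 * p + k by ring]
  refine ⟨ζ p, c (2 * p + 1) - ζ p * c (2 * p), hζn, fun i h1 h2 => ?_⟩
  obtain ⟨k, rfl⟩ := Nat.exists_eq_add_of_le h1
  rw [← e2 k (by omega)]
  ring

end Pool.Agent.H83.CP
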