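import Pool.Agent.H83.CP.EN

/-!
# RN: existence of a long run without deficiency

`V.card ≥ A.card - t ≥ 8 (D + 1) L` with `D = ∑_{x ∈ V} df x`; some sector `a < 8` has `N = (ch V α a).card ≥ (D + 1) L` (`sec_lt`). Enumerate `ch V α a` (`enum`)
as `c 0, ..., c (N - 1)`. The bad indices (`df (c i) ≠ 0`) are at most `D` in number; they meet at most `D` of the `D + 1` disjoint blocks
`[q L, (q + 1) L)`, `q ≤ D` (the map `i ↦ i / L`). For a free `q` take `c' i := c (q L + i)`. `cons`: `x ∈ ch` is `c j` for some `j < N`; `α (c i) < α (c j)` gives `i < j`,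
so `i + 1 ≤ j`.
-/

set_option autoImplicit false

open Real

namespace Pool.Agent.H83.CP

/-- a free block -/
theorem RN_block {D L : ℕ} (hL : 1 ≤ L) (bad : Finset ℕ) (hbad : bad.card ≤ D) :
    ∃ q, q < D + 1 ∧ ∀ i < L, q * L + i ∉ bad := by
  have h1 : (bad.image (fun i => i / L)).card < (Finset.range (D + 1)).card := by
    rw [Finset.card_range]
    exact Nat.lt_succ_of_le (Finset.card_image_le.trans hbad)
  obtain ⟨q, hq, hq2⟩ := Finset.exists_mem_notMem_of_card_lt_card h1
  refine ⟨q, Finset.mem_range.1 hq, fun i hi hb => hq2 ?_⟩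
  rw [Finset.mem_image]
  refine ⟨q * L + i, hb, ?_⟩
  rw [Nat.mul_comm, Nat.mul_add_div (by omega), Nat.div_eq_of_lt hi, Nat.add_zero]

theorem run_exists {A V : Finset ℂ} {α : ℂ → ℝ} {C t : ℕ} (h : Cfg A V α C t) {r : ℝ} {L : ℕ}
    (hL : 1 ≤ L) (hn : 8 * ((∑ x ∈ V, df A V α r x + 1) * L) + t ≤ A.card) :
    ∃ (a : ℕ) (c : ℕ → ℂ), a < 8 ∧ Run A V α r a L c := by
  obtain ⟨D, hD⟩ : ∃ D, D = ∑ x ∈ V, df A V α r x := ⟨_, rfl⟩
  rw [← hD] at hn
  have h1 : (A \ V).card + V.card = A.card := Finset.card_sdiff_add_card_eq_card h.sub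
  have h2 := h.ext
  have h3 : 8 * ((D + 1) * L) ≤ V.card := by omega
  have h4 : ∃ a ∈ Finset.range 8, (D + 1) * L ≤ (V.filter (fun x => sec α x = a)).card := by
    apply Finset.exists_le_card_fiber_of_mul_le_card_of_maps_to
    · intro x hx
      exact Finset.mem_range.2 (sec_lt h.nrm hx)
    · exact ⟨0, Finset.mem_range.2 (by norm_num)⟩
    · rw [Finset.card_range]; exact h3
  obtain ⟨a, ha, hN⟩ := h4
  have hN' : (D + 1) * L ≤ (ch V α a).card := hN
  obtain ⟨c, hc1, hc2, hc3⟩ := enum (ch V α a) α (fun x hx y hy he =>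
    ch_inj h.nrm (Finset.mem_filter.1 hx).1 (Finset.mem_filter.1 hy).1 he)
  have hcinj : ∀ i < (ch V α a).card, ∀ j < (ch V α a).card, c i = c j → i = j := by
    intro i hi j hj hij
    rcases lt_trichotomy i j with hlt | heq | hlt
    · have := hc2 i j hlt hj
      rw [hij] at this
      exact absurd this (lt_irrefl _)
    · exact heq
    · have := hc2 j i hlt hi
      rw [hij] at this
      exact absurd this (lt_irrefl _)
  have hbad : ((Finset.range ((D + 1) * L)).filter (fun i => df A V α r (c i) ≠ 0)).card ≤ D := by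
    have e1 : ((Finset.range ((D + 1) * L)).filter (fun i => df A V α r (c i) ≠ 0)).card ≤
        ∑ i ∈ (Finset.range ((D + 1) * L)).filter (fun i => df A V α r (c i) ≠ 0),
          df A V α r (c i) := by
      rw [Finset.card_eq_sum_ones]
      refine Finset.sum_le_sum fun i hi => ?_
      have := (Finset.mem_filter.1 hi).2
      omega
    refine e1.trans ?_
    have e2 : ∑ i ∈ (Finset.range ((D + 1) * L)).filter (fun i => df A V α r (c i) ≠ 0),
          df A V α r (c i) =
        ∑ x ∈ ((Finset.range ((D + 1) * L)).filter (fun i => df A V α r (c i) ≠ 0)).image c,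
          df A V α r x := by
      rw [Finset.sum_image]
      intro i hi j hj hij
      have hi1 := Finset.mem_range.1 (Finset.mem_filter.1 (Finset.mem_coe.1 hi)).1
      have hj1 := Finset.mem_range.1 (Finset.mem_filter.1 (Finset.mem_coe.1 hj)).1
      exact hcinj i (by omega) j (by omega) hij
    rw [e2]
    refine le_trans ?_ hD.ge
    apply Finset.sum_le_sum_of_subset
    intro x hx
    obtain ⟨i, hi, rfl⟩ := Finset.mem_image.1 hx
    have hi1 := Finset.mem_range.1 (Finset.mem_filter.1 hi).1
    exact (Finset.mem_filter.1 (hc1 i (by omega))).1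
  obtain ⟨q, hq1, hq2⟩ := RN_block hL _ hbad
  have hqL : ∀ i < L, q * L + i < (D + 1) * L := by
    intro i hi
    have : (q + 1) * L ≤ (D + 1) * L := Nat.mul_le_mul_right _ hq1
    rw [Nat.add_mul, Nat.one_mul] at this
    omega
  refine ⟨a, fun i => c (q * L + i), Finset.mem_range.1 ha, ?_, ?_, ?_, ?_⟩
  · intro i hi
    have := hqL i hi
    exact hc1 _ (by omega)
  · intro i j hij hj
    have := hqL j hj
    exact hc2 _ _ (by omega) (by omega)
  · intro x hx i hi hlt
    obtain ⟨j, hj, rfl⟩ := hc3 x hx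
    have h5 : q * L + i < j := by
      by_contra hcon
      rcases Nat.lt_or_eq_of_le (Nat.le_of_not_lt hcon) with h6 | h6
      · have h7 := hqL i (by omega)
        have h8 := hc2 j (q * L + i) h6 (by omega)
        exact absurd hlt (not_lt.2 h8.le)
      · subst h6
        exact absurd hlt (lt_irrefl _)
    rcases Nat.lt_or_eq_of_le (Nat.succ_le_of_lt h5) with h6 | h6
    · exact (hc2 (q * L + (i + 1)) j h6 hj).le
    · have : q * L + (i + 1) = j := h6
      simp only [this]
      exact le_rfl
  · intro i hi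
    by_contra hcon
    apply hq2 i hi
    rw [Finset.mem_filter, Finset.mem_range]
    exact ⟨hqL i hi, hcon⟩

end Pool.Agent.H83.CP
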