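import Mathlib

/-!
# WS: the window argument (combinatorial)

`D` a finite set of reals with `H ⊆ D`, `(D \ H).card ≤ C`; `d i m` a double sequence for `i + m < L`.
Ranks: `rk x := (D.filter (· ≤ x)).card`; on `D` it is a strictly increasing bijection onto `[1, D.card]`; write `δ j` for the element of rank `j`.
Windows `[w q, 3 w q + 2]`, `q = 0..C`, with `w 0 = C + 1`, `w (q + 1) = 3 w q + 3`, are disjoint and contained in `[1, D.card]`
(`D.card ≥ 3 w C + 2`); the ranks of `D \ H` are at most `C` in number, so some window `[j0, j1]`, `j0 = w q`, `j1 = 3 j0 + 2`, has only ranks of `H`.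
For `i` with `i + D.card < L`: `ρ m := rk (d i m)`. For `j ∈ [j0, j1]` there is (hypothesis `h3`) `m` with `d i m = δ j`; it is unique
(`h1`), call it `m_i(j)`. `m_i(j + 1) = m_i(j) + 1` for `j0 ≤ j < j1`: `m_i(j) < m_i(j+1)` by monotonicity, and if there was `m` strictly between, `d i m`
would be in `D` (`h4`, as `d i m ≤ δ (j+1) ∈ H`) with rank strictly between `j` and `j + 1`. So `m_i(j) = j - s_i`, `s_i = j0 - m_i(j0)`.
`m_i(j0) ≤ j0`: the numbers `d i 1 < ... < d i (m_i(j0))` are elements of `D` `≤ δ j0`. `m_i(j0) ≥ j0 - C`: the elements of `H` that are `≤ δ j0` are at least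
`j0 - C` in number and all of the form `d i m`, `1 ≤ m ≤ m_i(j0)`. So `0 ≤ s_i ≤ C < j0`.
`s_{i+1} ≤ s_i`: take `j = j0 + 1`, `m = m_i(j) = j - s_i ≥ 2`: `d (i+1) (m-1) < d i m = δ j` (`h2`). If `s_{i+1} > s_i`: `m - 1 = j - s_i - 1 ≥ j - s_{i+1} = m_{i+1}(j)`, so
`d (i+1) (m-1) ≥ δ j`, contradiction.
So `s` is antitone on `[0, (C + 1) L')` with values in `[0, C]`; one of the blocks `[q L', (q + 1) L')`, `q ≤ C`, has constant `s` (otherwise `s` drops in each block). With
`p = j0 - s` (`1 ≤ p ≤ D.card`) and `f m = δ (m + s)`: `m ∈ [p, 3 p + 2]` gives `m + s ∈ [j0, j1]` (`3 (j0 - s) + 2 + s ≤ 3 j0 + 2`).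
-/

set_option autoImplicit false

namespace Pool.Agent.H83.CP

/-- starting points of the windows -/
def ws (C : ℕ) : ℕ → ℕ
  | 0 => C + 1
  | q + 1 => 3 * ws C q + 3

private theorem WS_mono (C : ℕ) {q q' : ℕ} (h : q ≤ q') : ws C q ≤ ws C q' := by
  induction q', h using Nat.le_induction with
  | base => exact le_rfl
  | succ n _ ih =>
    refine ih.trans ?_
    change ws C n ≤ 3 * ws C n + 3
    omega

private theorem WS_ge (C q : ℕ) : C + 1 ≤ ws C q := WS_mono C (Nat.zero_le q)

/-- enumeration of a finite set of reals -/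
private theorem WS_enum (D : Finset ℝ) : ∃ δ : ℕ → ℝ, (∀ j, 1 ≤ j → j ≤ D.card → δ j ∈ D) ∧
    (∀ j j', 1 ≤ j → j < j' → j' ≤ D.card → δ j < δ j') ∧
    (∀ x ∈ D, ∃ j, 1 ≤ j ∧ j ≤ D.card ∧ δ j = x) := by
  set e := D.orderEmbOfFin rfl with he
  refine ⟨fun j => if h : j - 1 < D.card then e ⟨j - 1, h⟩ else 0, ?_, ?_, ?_⟩
  · intro j h1 h2
    have h : j - 1 < D.card := by omega
    simp only [h, dif_pos]
    exact D.orderEmbOfFin_mem rfl _
  · intro j j' h1 h2 h3
    have h : j - 1 < D.card := by omega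
    have h' : j' - 1 < D.card := by omega
    simp only [h, h', dif_pos]
    apply e.strictMono
    rw [Fin.lt_def]
    change j - 1 < j' - 1
    omega
  · intro x hx
    have h1 : x ∈ Set.range e := by
      rw [he, Finset.range_orderEmbOfFin]
      exact hx
    obtain ⟨k, hk⟩ := h1
    have hk2 := k.isLt
    refine ⟨(k : ℕ) + 1, by omega, by omega, ?_⟩
    have h : (k : ℕ) + 1 - 1 < D.card := by omega
    simp only [h, dif_pos]
    rw [← hk]
    congr 1

/-- a window without exceptional ranks -/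
private theorem WS_win (C : ℕ) (D H : Finset ℝ) (hC : (D \ H).card ≤ C)
    (hD : 3 * ws C C + 2 ≤ D.card) (δ : ℕ → ℝ) (d1 : ∀ j, 1 ≤ j → j ≤ D.card → δ j ∈ D)
    (d2 : ∀ j j', 1 ≤ j → j < j' → j' ≤ D.card → δ j < δ j') :
    ∃ j0, C + 1 ≤ j0 ∧ 3 * j0 + 2 ≤ D.card ∧ ∀ j, j0 ≤ j → j ≤ 3 * j0 + 2 → δ j ∈ H := by
  classical
  by_contra hcon
  push Not at hcon
  have h1 : ∀ q, ∃ j, q ≤ C → ws C q ≤ j ∧ j ≤ 3 * ws C q + 2 ∧ δ j ∉ H := by
    intro q
    by_cases hq : q ≤ C
    · have h2 := WS_mono C hq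
      obtain ⟨j, hj1, hj2, hj3⟩ := hcon (ws C q) (WS_ge C q) (by omega)
      exact ⟨j, fun _ => ⟨hj1, hj2, hj3⟩⟩
    · exact ⟨0, fun h => absurd h hq⟩
  choose J hJ using h1
  have hJN : ∀ q, q ≤ C → 1 ≤ J q ∧ J q ≤ D.card := by
    intro q hq
    obtain ⟨a, b, _⟩ := hJ q hq
    have h2 := WS_mono C hq
    have h3 := WS_ge C q
    omega
  have hJlt : ∀ q q', q < q' → q' ≤ C → J q < J q' := by
    intro q q' h hq'
    obtain ⟨_, b, _⟩ := hJ q (by omega)
    obtain ⟨a', _, _⟩ := hJ q' hq'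
    have h2 : ws C (q + 1) ≤ ws C q' := WS_mono C h
    have h3 : ws C (q + 1) = 3 * ws C q + 3 := rfl
    omega
  have hcard : (Finset.range (C + 1)).card ≤ (D \ H).card := by
    refine Finset.card_le_card_of_injOn (fun q => δ (J q)) ?_ ?_
    · intro q hq
      have hq' : q ≤ C := by
        have := Finset.mem_range.mp hq
        omega
      rw [Finset.mem_coe, Finset.mem_sdiff]
      exact ⟨d1 _ (hJN q hq').1 (hJN q hq').2, (hJ q hq').2.2⟩
    · intro q hq q' hq' he
      have hq1 : q ≤ C := by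
        have := Finset.mem_range.mp hq
        omega
      have hq2 : q' ≤ C := by
        have := Finset.mem_range.mp hq'
        omega
      have he' : δ (J q) = δ (J q') := he
      rcases lt_trichotomy q q' with h | h | h
      · have := d2 _ _ (hJN q hq1).1 (hJlt q q' h hq2) (hJN q' hq2).2
        rw [he'] at this
        exact absurd this (lt_irrefl _)
      · exact h
      · have := d2 _ _ (hJN q' hq2).1 (hJlt q' q h hq1) (hJN q hq1).2
        rw [he'] at this
        exact absurd this (lt_irrefl _)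
  rw [Finset.card_range] at hcard
  omega

/-- an antitone sequence with values in `[0, C]` is constant on one of `C + 1` blocks -/
private theorem WS_block (C L' : ℕ) (hL' : 1 ≤ L') (s : ℕ → ℕ) (hs : ∀ i, i < (C + 1) * L' → s i ≤ C)
    (hanti : ∀ i, i + 1 < (C + 1) * L' → s (i + 1) ≤ s i) :
    ∃ q, q ≤ C ∧ ∀ i, q * L' ≤ i → i < (q + 1) * L' → s i = s (q * L') := by
  by_contra hcon
  push Not at hcon
  have hanti2 : ∀ i j, i ≤ j → j < (C + 1) * L' → s j ≤ s i := by
    intro i j hij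
    induction j, hij using Nat.le_induction with
    | base => intro _; exact le_rfl
    | succ n _ ih =>
      intro h
      exact (hanti n h).trans (ih (by omega))
  have hP : ∀ q, q ≤ C → s (q * L') + q ≤ C := by
    intro q
    induction q with
    | zero =>
      intro _
      rw [Nat.zero_mul, Nat.add_zero]
      refine hs 0 ?_
      positivity
    | succ q ih =>
      intro hq
      have h1 := ih (by omega)
      obtain ⟨i, hi1, hi2, hi3⟩ := hcon q (by omega)
      have hb : (q + 1) * L' < (C + 1) * L' := Nat.mul_lt_mul_of_pos_right (by omega) (by omega)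
      have h2 := hanti2 (q * L') i hi1 (by omega)
      have h3 := hanti2 i ((q + 1) * L') hi2.le hb
      omega
  have h1 := hP C le_rfl
  obtain ⟨i, hi1, hi2, hi3⟩ := hcon C le_rfl
  have h2 := hanti2 (C * L') i hi1 hi2
  omega

theorem window (C L L' : ℕ) (D H : Finset ℝ) (hHD : H ⊆ D) (hC : (D \ H).card ≤ C)
    (hD : 3 * ws C C + 2 ≤ D.card) (hL : (C + 1) * L' + D.card + 1 ≤ L) (hL' : 1 ≤ L')
    (d : ℕ → ℕ → ℝ)
    (h1 : ∀ i m m', 1 ≤ m → m < m' → i + m' < L → d i m < d i m')
    (h2 : ∀ i m, 2 ≤ m → i + m < L → d (i + 1) (m - 1) < d i m)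
    (h3 : ∀ x ∈ H, ∀ i, i + D.card < L → ∃ m, 1 ≤ m ∧ m ≤ D.card ∧ d i m = x)
    (h4 : ∀ i m, ∀ x ∈ H, 1 ≤ m → i + m < L → d i m ≤ x → d i m ∈ D) :
    ∃ (p : ℕ) (f : ℕ → ℝ) (i0 : ℕ), 1 ≤ p ∧ p ≤ D.card ∧ i0 + L' ≤ L ∧
      ∀ i m, i0 ≤ i → i + m < i0 + L' → p ≤ m → m ≤ 3 * p + 2 → d i m = f m := by
  classical
  obtain ⟨δ, d1, d2, d3⟩ := WS_enum D
  obtain ⟨j0, hj0, hj1, hwin⟩ := WS_win C D H hC hD δ d1 d2
  set N := D.card with hN
  -- comparison of ranks
  have dle : ∀ j j', 1 ≤ j → j ≤ N → 1 ≤ j' → j' ≤ N → δ j ≤ δ j' → j ≤ j' := by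
    intro j j' a1 a2 b1 b2 h
    by_contra hcon
    push Not at hcon
    exact absurd (d2 j' j b1 hcon a2) (not_lt.mpr h)
  have dlt : ∀ j j', 1 ≤ j → j ≤ N → 1 ≤ j' → j' ≤ N → δ j < δ j' → j < j' := by
    intro j j' a1 a2 b1 b2 h
    by_contra hcon
    push Not at hcon
    rcases Nat.lt_or_eq_of_le hcon with h' | h'
    · exact absurd (d2 j' j b1 h' a2) (not_lt.mpr h.le)
    · rw [h'] at h
      exact lt_irrefl _ h
  -- comparison of indices
  have mle : ∀ i m m', i + N < L → 1 ≤ m → m ≤ N → 1 ≤ m' → m' ≤ N → d i m ≤ d i m' → m ≤ m' := by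
    intro i m m' hi a1 a2 b1 b2 h
    by_contra hcon
    push Not at hcon
    exact absurd (h1 i m' m b1 hcon (by omega)) (not_lt.mpr h)
  have mlt : ∀ i m m', i + N < L → 1 ≤ m → m ≤ N → 1 ≤ m' → m' ≤ N → d i m < d i m' → m < m' := by
    intro i m m' hi a1 a2 b1 b2 h
    by_contra hcon
    push Not at hcon
    rcases Nat.lt_or_eq_of_le hcon with h' | h'
    · exact absurd (h1 i m' m b1 h' (by omega)) (not_lt.mpr h.le)
    · rw [h'] at h
      exact lt_irrefl _ h
  have hM0 : ∀ i j, ∃ m, i + N < L → j0 ≤ j → j ≤ 3 * j0 + 2 → 1 ≤ m ∧ m ≤ N ∧ d i m = δ j := by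
    intro i j
    by_cases h : i + N < L ∧ j0 ≤ j ∧ j ≤ 3 * j0 + 2
    · obtain ⟨m, hm⟩ := h3 (δ j) (hwin j h.2.1 h.2.2) i h.1
      exact ⟨m, fun _ _ _ => hm⟩
    · exact ⟨0, fun a b c => absurd ⟨a, b, c⟩ h⟩
  choose M hM using hM0
  -- consecutive
  have hstep : ∀ i j, i + N < L → j0 ≤ j → j + 1 ≤ 3 * j0 + 2 → M i (j + 1) = M i j + 1 := by
    intro i j hi hj hj'
    obtain ⟨a1, a2, a3⟩ := hM i j hi hj (by omega)
    obtain ⟨b1, b2, b3⟩ := hM i (j + 1) hi (by omega) hj'
    have hlt : δ j < δ (j + 1) := d2 j (j + 1) (by omega) (by omega) (by omega)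
    have h5 : M i j < M i (j + 1) := mlt i _ _ hi a1 a2 b1 b2 (by rw [a3, b3]; exact hlt)
    by_contra hcon
    have h6 : M i j + 1 < M i (j + 1) := by omega
    have e1 := h1 i (M i j) (M i j + 1) a1 (by omega) (by omega)
    have e2 := h1 i (M i j + 1) (M i (j + 1)) (by omega) h6 (by omega)
    rw [b3] at e2
    rw [a3] at e1
    have e3 := h4 i (M i j + 1) (δ (j + 1)) (hwin (j + 1) (by omega) hj') (by omega) (by omega) e2.le
    obtain ⟨j'', c1, c2, c3⟩ := d3 _ e3
    rw [← c3] at e1 e2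
    have f1 := dlt j j'' (by omega) (by omega) c1 c2 e1
    have f2 := dlt j'' (j + 1) c1 c2 (by omega) (by omega) e2
    omega
  have hlin : ∀ i, i + N < L → ∀ k, j0 + k ≤ 3 * j0 + 2 → M i (j0 + k) = M i j0 + k := by
    intro i hi k
    induction k with
    | zero => intro _; rfl
    | succ k ih =>
      intro hk
      have h5 := hstep i (j0 + k) hi (by omega) (by omega)
      have h6 := ih (by omega)
      have e : j0 + (k + 1) = j0 + k + 1 := by omega
      rw [e, h5, h6]
      omega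
  have hj0N : j0 ≤ N := by omega
  -- upper bound
  have hup : ∀ i, i + N < L → M i j0 ≤ j0 := by
    intro i hi
    obtain ⟨a1, a2, a3⟩ := hM i j0 hi le_rfl (by omega)
    have hmem : ∀ m, 1 ≤ m → m ≤ M i j0 → d i m ≤ δ j0 ∧ d i m ∈ D := by
      intro m hm1 hm2
      have h5 : d i m ≤ δ j0 := by
        rcases Nat.lt_or_eq_of_le hm2 with h | h
        · rw [← a3]
          exact (h1 i m _ hm1 h (by omega)).le
        · rw [h, a3]
      exact ⟨h5, h4 i m (δ j0) (hwin j0 le_rfl (by omega)) hm1 (by omega) h5⟩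
    have hr0 : ∀ m, ∃ j, 1 ≤ m → m ≤ M i j0 → 1 ≤ j ∧ j ≤ N ∧ δ j = d i m := by
      intro m
      by_cases h : 1 ≤ m ∧ m ≤ M i j0
      · obtain ⟨j, hj⟩ := d3 _ (hmem m h.1 h.2).2
        exact ⟨j, fun _ _ => hj⟩
      · exact ⟨0, fun a b => absurd ⟨a, b⟩ h⟩
    choose r hr using hr0
    have hcard : (Finset.Icc 1 (M i j0)).card ≤ (Finset.Icc 1 j0).card := by
      refine Finset.card_le_card_of_injOn r ?_ ?_
      · intro m hm
        rw [Finset.mem_coe, Finset.mem_Icc] at hm
        obtain ⟨c1, c2, c3⟩ := hr m hm.1 hm.2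
        rw [Finset.mem_coe, Finset.mem_Icc]
        refine ⟨c1, dle _ _ c1 c2 (by omega) hj0N ?_⟩
        rw [c3]
        exact (hmem m hm.1 hm.2).1
      · intro m hm m' hm' he
        rw [Finset.mem_coe, Finset.mem_Icc] at hm hm'
        obtain ⟨_, _, c3⟩ := hr m hm.1 hm.2
        obtain ⟨_, _, c3'⟩ := hr m' hm'.1 hm'.2
        rw [he, c3'] at c3
        rcases lt_trichotomy m m' with h | h | h
        · have := h1 i m m' hm.1 h (by omega)
          rw [c3] at this
          exact absurd this (lt_irrefl _)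
        · exact h
        · have := h1 i m' m hm'.1 h (by omega)
          rw [c3] at this
          exact absurd this (lt_irrefl _)
    rw [Nat.card_Icc, Nat.card_Icc] at hcard
    omega
  -- lower bound
  have hlo : ∀ i, i + N < L → j0 ≤ M i j0 + C := by
    intro i hi
    obtain ⟨a1, a2, a3⟩ := hM i j0 hi le_rfl (by omega)
    have hsplit := Finset.card_filter_add_card_filter_not (s := Finset.Icc 1 j0) (fun j => δ j ∈ H)
    have hA : ((Finset.Icc 1 j0).filter (fun j => δ j ∈ H)).card ≤ M i j0 := by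
      have hr0 : ∀ j, ∃ m, 1 ≤ j → j ≤ j0 → δ j ∈ H → 1 ≤ m ∧ m ≤ N ∧ d i m = δ j := by
        intro j
        by_cases h : δ j ∈ H
        · obtain ⟨m, hm⟩ := h3 (δ j) h i hi
          exact ⟨m, fun _ _ _ => hm⟩
        · exact ⟨0, fun _ _ c => absurd c h⟩
      choose r hr using hr0
      have hcard : ((Finset.Icc 1 j0).filter (fun j => δ j ∈ H)).card ≤ (Finset.Icc 1 (M i j0)).card := by
        refine Finset.card_le_card_of_injOn r ?_ ?_
        · intro j hj
          rw [Finset.mem_coe, Finset.mem_filter, Finset.mem_Icc] at hj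
          obtain ⟨c1, c2, c3⟩ := hr j hj.1.1 hj.1.2 hj.2
          rw [Finset.mem_coe, Finset.mem_Icc]
          refine ⟨c1, mle i _ _ hi c1 c2 a1 a2 ?_⟩
          rw [c3, a3]
          rcases Nat.lt_or_eq_of_le hj.1.2 with h | h
          · exact (d2 j j0 hj.1.1 h hj0N).le
          · rw [h]
        · intro j hj j' hj' he
          rw [Finset.mem_coe, Finset.mem_filter, Finset.mem_Icc] at hj hj'
          obtain ⟨_, _, c3⟩ := hr j hj.1.1 hj.1.2 hj.2
          obtain ⟨_, _, c3'⟩ := hr j' hj'.1.1 hj'.1.2 hj'.2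
          rw [he, c3'] at c3
          rcases lt_trichotomy j j' with h | h | h
          · have := d2 j j' hj.1.1 h (by omega)
            rw [c3] at this
            exact absurd this (lt_irrefl _)
          · exact h
          · have := d2 j' j hj'.1.1 h (by omega)
            rw [c3] at this
            exact absurd this (lt_irrefl _)
      rw [Nat.card_Icc] at hcard
      omega
    have hB : ((Finset.Icc 1 j0).filter (fun j => ¬ δ j ∈ H)).card ≤ C := by
      refine le_trans ?_ hC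
      refine Finset.card_le_card_of_injOn δ ?_ ?_
      · intro j hj
        rw [Finset.mem_coe, Finset.mem_filter, Finset.mem_Icc] at hj
        rw [Finset.mem_coe, Finset.mem_sdiff]
        exact ⟨d1 j hj.1.1 (by omega), hj.2⟩
      · intro j hj j' hj' he
        rw [Finset.mem_coe, Finset.mem_filter, Finset.mem_Icc] at hj hj'
        rcases lt_trichotomy j j' with h | h | h
        · have := d2 j j' hj.1.1 h (by omega)
          rw [he] at this
          exact absurd this (lt_irrefl _)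
        · exact h
        · have := d2 j' j hj'.1.1 h (by omega)
          rw [he] at this
          exact absurd this (lt_irrefl _)
    rw [Nat.card_Icc] at hsplit
    omega
  -- monotonicity in i
  have hmon : ∀ i, i + 1 + N < L → M i j0 ≤ M (i + 1) j0 := by
    intro i hi
    by_contra hcon
    push Not at hcon
    obtain ⟨a1, a2, a3⟩ := hM i (j0 + 1) (by omega) (by omega) (by omega)
    obtain ⟨b1, b2, b3⟩ := hM (i + 1) (j0 + 1) hi (by omega) (by omega)
    obtain ⟨c1, c2, c3⟩ := hM (i + 1) j0 hi (by omega) (by omega)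
    have e1 := hstep i j0 (by omega) le_rfl (by omega)
    have e2 := hstep (i + 1) j0 hi le_rfl (by omega)
    have h5 := h2 i (M i (j0 + 1)) (by omega) (by omega)
    rw [a3, ← b3] at h5
    have h6 := mlt (i + 1) _ _ hi (by omega) (by omega) b1 b2 h5
    omega
  -- blocks
  obtain ⟨q, hq, hblock⟩ := WS_block C L' hL' (fun i => j0 - M i j0)
    (fun i hi => by
      have h5 := hlo i (by omega)
      change j0 - M i j0 ≤ C
      omega)
    (fun i hi => by
      have h5 := hmon i (by omega)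
      change j0 - M (i + 1) j0 ≤ j0 - M i j0
      omega)
  have hqL : (q + 1) * L' ≤ (C + 1) * L' := Nat.mul_le_mul_right L' (by omega)
  have hq1 : (q + 1) * L' = q * L' + L' := by ring
  have hi0 : q * L' + N < L := by omega
  have hu0 := hup (q * L') hi0
  have hl0 := hlo (q * L') hi0
  obtain ⟨g1, g2, g3⟩ := hM (q * L') j0 hi0 le_rfl (by omega)
  refine ⟨M (q * L') j0, fun m => δ (m + (j0 - M (q * L') j0)), q * L', g1, g2, by omega, ?_⟩
  intro i m hi1 hi2 hm1 hm2
  have hiN : i + N < L := by omega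
  have h5 : j0 - M i j0 = j0 - M (q * L') j0 := hblock i hi1 (by omega)
  have h6 := hup i hiN
  have h7 : M i j0 = M (q * L') j0 := by omega
  obtain ⟨k, hk⟩ : ∃ k, m = M (q * L') j0 + k := ⟨m - M (q * L') j0, by omega⟩
  have h8 := hlin i hiN k (by omega)
  obtain ⟨f1, f2, f3⟩ := hM i (j0 + k) hiN (by omega) (by omega)
  have e1 : m + (j0 - M (q * L') j0) = j0 + k := by omega
  have e2 : M i (j0 + k) = m := by omega
  change d i m = δ (m + (j0 - M (q * L') j0))
  rw [e1, ← f3, e2]

end Pool.Agent.H83.CP
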