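import Pool.Agent.H83.CP.RN
import Pool.Agent.H83.CP.WS
import Pool.Agent.H83.CP.RG
import Pool.Agent.H83.CP.CI
import Pool.Agent.H83.CP.DB

/-!
# STA: from a long run to the circle

From a long run. Write `k = (dle A r).card`, `c 0, ..., c (L-1)` the run.
`d i m := dist (c i) (c (i + m))` satisfies the hypotheses of `window` with `D = dle A r`, `H = hi A r`: `h1, h2`: `ch_mono`; `h4` clear; `h3`: `df (c i) = 0` means
`(fw (c i)).card ≥ (hi A r).card`; `y ↦ dist (c i) y` is injective on `fw (c i)` with values in `hi A r`, hence surjective: `x = dist (c i) y`, `y` in the chain after `c i`; by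
`cons` the points of the chain between `c i` and `c (i + k + 1)` (if it exists, else `c (L-1)`) are `c (i+1), ...`; `ch_gap`/`ch_mono4`: `dist (c i) (c (i + k + 1)) > r` (otherwise
`c (i+1), ..., c (i+k+1)` would give `k + 1` distances `≤ r`) - but `i + k + 1 < L` may fail, then use `i + k < L`: if `y` is after `c (i + k)` then the `k` distances to
`c (i+1), ..., c (i+k)` and `dist (c i) y` are `k + 1` distances `≤ r`, contradiction; so `y = c (i + m)`, `1 ≤ m ≤ k`.
Then `rigid` for the block of length `L'`, then `circle` for the points `c (i0 + 2 p + i)`, `i ≤ n := L' - 5 p - 4`. Since `p ≤ k`, `n ≥ n0` when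
`L' ≥ n0 + 5 k + 4`. All high distances are `F m`, `m ≤ k`: `h3` for `i = i0 + 2 p`.
-/

set_option autoImplicit false

open Real

namespace Pool.Agent.H83.CP

private theorem STA_mono {A V : Finset ℂ} {α : ℂ → ℝ} {r : ℝ} {a L : ℕ} {c : ℕ → ℂ}
    (hR : Run A V α r a L c) {i j : ℕ} (hij : i ≤ j) (hj : j < L) : α (c i) ≤ α (c j) := by
  rcases Nat.eq_or_lt_of_le hij with h | h
  · rw [h]
  · exact (hR.inc i j h hj).le

private theorem STA_V {V : Finset ℂ} {α : ℂ → ℝ} {a : ℕ} {x : ℂ} (hx : x ∈ ch V α a) :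
    x ∈ V ∧ sec α x = a := by
  unfold ch at hx
  exact Finset.mem_filter.1 hx

private theorem STA_dst {A : Finset ℂ} {x y : ℂ} (hx : x ∈ A) (hy : y ∈ A) (hne : x ≠ y) :
    dist x y ∈ dst A := by
  unfold dst
  exact Finset.mem_image.2 ⟨(x, y), Finset.mem_offDiag.2 ⟨hx, hy, hne⟩, rfl⟩

private theorem STA_hi {A : Finset ℂ} {r x : ℝ} (hx : x ∈ hi A r) :
    x ∈ dst A ∧ x ≤ r ∧ 2 * A.card < mul A x := by
  unfold hi at hx
  exact Finset.mem_filter.1 hx

private theorem STA_h3 {A V : Finset ℂ} {α : ℂ → ℝ} {C t : ℕ} (h : Cfg A V α C t) {r : ℝ}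
    {a L : ℕ} {c : ℕ → ℂ} (hR : Run A V α r a L c) {x : ℝ} (hx : x ∈ hi A r) {i : ℕ}
    (hi' : i + (dle A r).card < L) :
    ∃ m, 1 ≤ m ∧ m ≤ (dle A r).card ∧ dist (c i) (c (i + m)) = x := by
  have hN := h.nrm
  have hci : c i ∈ ch V α a := hR.mem i (by omega)
  obtain ⟨hciV, hcis⟩ := STA_V hci
  have hfw : ∀ y ∈ fw A V α r (c i), y ∈ ch V α a ∧ α (c i) < α y ∧ dist (c i) y ∈ hi A r := by
    intro y hy
    unfold fw at hy
    obtain ⟨hyV, hys, hya, hyd⟩ := Finset.mem_filter.1 hy
    refine ⟨?_, hya, hyd⟩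
    unfold ch
    exact Finset.mem_filter.2 ⟨hyV, hys.trans hcis⟩
  have hinj : Set.InjOn (fun y => dist (c i) y) (fw A V α r (c i) : Set ℂ) := by
    intro y hy y' hy' he
    obtain ⟨y1, y2, -⟩ := hfw y hy
    obtain ⟨y1', y2', -⟩ := hfw y' hy'
    have he' : dist (c i) y = dist (c i) y' := he
    rcases lt_trichotomy (α y) (α y') with h1 | h1 | h1
    · exact absurd he' (ch_mono hN hci y1 y1' y2 h1).1.ne
    · exact ch_inj hN (STA_V y1).1 (STA_V y1').1 h1
    · exact absurd he'.symm (ch_mono hN hci y1' y1 y2' h1).1.ne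
  have hsub : (fw A V α r (c i)).image (fun y => dist (c i) y) ⊆ hi A r := by
    intro z hz
    obtain ⟨y, hy, rfl⟩ := Finset.mem_image.1 hz
    exact (hfw y hy).2.2
  have hcard : (hi A r).card ≤ ((fw A V α r (c i)).image (fun y => dist (c i) y)).card := by
    rw [Finset.card_image_of_injOn hinj]
    have h0 := hR.df0 i (by omega)
    unfold df at h0
    omega
  have himg := Finset.eq_of_subset_of_card_le hsub hcard
  rw [← himg] at hx
  obtain ⟨y, hy, hyx⟩ := Finset.mem_image.1 hx
  obtain ⟨hych, hya, hyhi⟩ := hfw y hy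
  have hyx' : dist (c i) y = x := hyx
  by_cases hlt : α y ≤ α (c (i + (dle A r).card))
  · have hex : ∃ m, α y ≤ α (c (i + m)) := ⟨_, hlt⟩
    classical
    obtain ⟨m, hm, hmin⟩ : ∃ m, α y ≤ α (c (i + m)) ∧ ∀ m' < m, ¬ α y ≤ α (c (i + m')) :=
      ⟨Nat.find hex, Nat.find_spec hex, fun m' hm' => Nat.find_min hex hm'⟩
    have hmk : m ≤ (dle A r).card := by
      by_contra hc
      exact hmin _ (by omega) hlt
    have hm0 : m ≠ 0 := by
      rintro rfl
      rw [add_zero] at hm
      exact absurd hya (not_lt.2 hm)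
    have h1 : α (c (i + (m - 1))) < α y := not_le.1 (hmin (m - 1) (by omega))
    have h2 := hR.cons y hych (i + (m - 1)) (by omega) h1
    have h3 : i + (m - 1) + 1 = i + m := by omega
    rw [h3] at h2
    have h4 : y = c (i + m) :=
      ch_inj hN (STA_V hych).1 (STA_V (hR.mem (i + m) (by omega))).1 (le_antisymm hm h2)
    exact ⟨m, by omega, hmk, by rw [← h4]; exact hyx'⟩
  · exfalso
    rw [not_le] at hlt
    have hg := ch_gap hN h.sub hci hych
    have hle : (dle A (dist (c i) y)).card ≤ (dle A r).card := by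
      apply Finset.card_le_card
      intro z hz
      unfold dle at hz ⊢
      rw [Finset.mem_filter] at hz ⊢
      exact ⟨hz.1, hz.2.trans (STA_hi hyhi).2.1⟩
    generalize (dle A r).card = k at *
    have hnot : y ∉ (Finset.Icc 1 k).image (fun m => c (i + m)) := by
      intro hy'
      obtain ⟨m, hm, hmy⟩ := Finset.mem_image.1 hy'
      rw [Finset.mem_Icc] at hm
      have := STA_mono hR (i := i + m) (j := i + k) (by omega) hi'
      have hmy' : c (i + m) = y := hmy
      rw [hmy'] at this
      linarith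
    have hinj2 : Set.InjOn (fun m => c (i + m)) (Finset.Icc 1 k : Set ℕ) := by
      intro m hm m' hm' he
      have he' : c (i + m) = c (i + m') := he
      rw [Finset.coe_Icc, Set.mem_Icc] at hm hm'
      rcases Nat.lt_trichotomy m m' with h1 | h1 | h1
      · have := hR.inc (i + m) (i + m') (by omega) (by omega)
        rw [he'] at this
        exact absurd this (lt_irrefl _)
      · exact h1
      · have := hR.inc (i + m') (i + m) (by omega) (by omega)
        rw [he'] at this
        exact absurd this (lt_irrefl _)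
    have hsub2 : insert y ((Finset.Icc 1 k).image (fun m => c (i + m))) ⊆
        (ch V α a).filter (fun z => α (c i) < α z ∧ α z ≤ α y) := by
      intro z hz
      rw [Finset.mem_filter]
      rcases Finset.mem_insert.1 hz with h1 | h1
      · rw [h1]
        exact ⟨hych, hya, le_rfl⟩
      · obtain ⟨m, hm, hmy⟩ := Finset.mem_image.1 h1
        rw [Finset.mem_Icc] at hm
        rw [← hmy]
        refine ⟨hR.mem _ (by omega), hR.inc _ _ (by omega) (by omega), ?_⟩
        exact (STA_mono hR (i := i + m) (j := i + k) (by omega) hi').trans hlt.le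
    have h5 := Finset.card_le_card hsub2
    rw [Finset.card_insert_of_notMem hnot, Finset.card_image_of_injOn hinj2, Nat.card_Icc] at h5
    omega

theorem STA {A V : Finset ℂ} {α : ℂ → ℝ} {C t : ℕ} (h : Cfg A V α C t) {r : ℝ} {a L n0 : ℕ}
    {c : ℕ → ℂ} (hR : Run A V α r a L c) (hk : 3 * ws C C + 2 ≤ (dle A r).card)
    (hn0 : 3 + (dle A r).card ≤ n0)
    (hL : (C + 1) * (n0 + 5 * (dle A r).card + 6) + (dle A r).card + 1 ≤ L) :
    ∃ ρ τ : ℝ, 0 < ρ ∧ 0 < τ ∧ ((n0 : ℝ) - 1) * τ < π / 4 ∧
      (∀ x ∈ hi A r, ∃ m, 1 ≤ m ∧ m ≤ (dle A r).card ∧ x = F ρ τ m) ∧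
      (∀ m, 1 ≤ m → m ≤ n0 → F ρ τ m ∈ dst A) := by
  have hN := h.nrm
  have hA : ∀ i < L, c i ∈ A := fun i hi' => h.sub (STA_V (hR.mem i hi')).1
  have hne : ∀ i j, i < j → j < L → c i ≠ c j := by
    intro i j hij hj he
    have := hR.inc i j hij hj
    rw [he] at this
    exact absurd this (lt_irrefl _)
  obtain ⟨p, f, i0, hp1, hpk, hi0, hf⟩ := window C L (n0 + 5 * (dle A r).card + 6) (dle A r)
    (hi A r) (by
      intro x hx
      unfold dle
      exact Finset.mem_filter.2 ⟨(STA_hi hx).1, (STA_hi hx).2.1⟩) (by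
      refine (Finset.card_le_card ?_).trans h.lowc
      intro x hx
      rw [Finset.mem_sdiff] at hx
      obtain ⟨hx1, hx2⟩ := hx
      unfold dle at hx1
      rw [Finset.mem_filter] at hx1
      unfold low
      rw [Finset.mem_filter]
      refine ⟨hx1.1, ?_⟩
      by_contra hc
      apply hx2
      unfold hi
      exact Finset.mem_filter.2 ⟨hx1.1, hx1.2, not_le.1 hc⟩) hk hL (by omega)
    (fun i m => dist (c i) (c (i + m))) (by
      intro i m m' hm hmm him
      exact (ch_mono hN (hR.mem i (by omega)) (hR.mem (i + m) (by omega))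
        (hR.mem (i + m') him) (hR.inc _ _ (by omega) (by omega))
        (hR.inc _ _ (by omega) him)).1) (by
      intro i m hm him
      have e1 : i + 1 + (m - 1) = i + m := by omega
      show dist (c (i + 1)) (c (i + 1 + (m - 1))) < dist (c i) (c (i + m))
      rw [e1]
      exact (ch_mono hN (hR.mem i (by omega)) (hR.mem (i + 1) (by omega))
        (hR.mem (i + m) him) (hR.inc _ _ (by omega) (by omega))
        (hR.inc _ _ (by omega) him)).2) (by
      intro x hx i hi'
      exact STA_h3 h hR hx hi') (by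
      intro i m x hx hm him hd
      unfold dle
      exact Finset.mem_filter.2 ⟨STA_dst (hA i (by omega)) (hA _ him)
        (hne _ _ (by omega) him), hd.trans (STA_hi hx).2.1⟩)
  obtain ⟨ζ, e, hζ, hrec⟩ := rigid (c := fun i => c (i0 + i)) (L := n0 + 5 * (dle A r).card + 6)
    hp1 f (by
      intro i m him hm1 hm2
      have := hf (i0 + i) m (by omega) (by omega) hm1 hm2
      show dist (c (i0 + i)) (c (i0 + (i + m))) = f m
      rw [← add_assoc]
      exact this) (by
      intro i j l hij hjl hl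
      refine ch_orient hN (STA_V (hR.mem (i0 + i) (by omega))).1
        (STA_V (hR.mem (i0 + j) (by omega))).1 (STA_V (hR.mem (i0 + l) (by omega))).1
        (hR.inc _ _ (by omega) (by omega)) (Or.inl (hR.inc _ _ (by omega) (by omega))))
      (by omega)
  obtain ⟨ρ, τ, hρ, hτ, hnτ, hF⟩ := circle (n := n0) hN (by omega)
    (c := fun i => c (i0 + 2 * p + i)) (a := a)
    (fun i hi' => hR.mem _ (by omega)) (fun i j hij hj => hR.inc _ _ (by omega) (by omega))
    (e := e) hζ (by
      intro i hi'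
      have := hrec (2 * p + i) (by omega) (by omega)
      have e1 : i0 + (2 * p + i + 1) = i0 + 2 * p + (i + 1) := by omega
      have e2 : i0 + (2 * p + i) = i0 + 2 * p + i := by omega
      have h3 : c (i0 + (2 * p + i + 1)) = ζ * c (i0 + (2 * p + i)) + e := this
      rw [e1, e2] at h3
      exact h3)
  refine ⟨ρ, τ, hρ, hτ, hnτ, ?_, ?_⟩
  · intro x hx
    obtain ⟨m, hm1, hmk, hmx⟩ := STA_h3 h hR hx (i := i0 + 2 * p) (by omega)
    refine ⟨m, hm1, hmk, ?_⟩
    have h4 := hF 0 m (by omega)
    rw [← hmx, ← h4]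
    simp only [add_zero, zero_add]
  · intro m hm1 hm2
    have h4 := hF 0 m (by omega)
    rw [← h4]
    exact STA_dst (hA _ (by omega)) (hA _ (by omega)) (hne _ _ (by omega) (by omega))

end Pool.Agent.H83.CP
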