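import Pool.Agent.H83.CP.CRC
import Pool.Agent.H83.CP.STA

/-!
# STB: the structure theorem

The structure theorem. Choose `k` with `k ≥ C + 448`, `k ≥ C + K`, `3 (k + 1) ≤ 7 (k - C)`, `k ≥ 3 ws C C + 2`; then `n0 ≥ 3 + k` with
`(n0 - 1) τ0 ≥ π / 4`, `n0 ≥ K`; `L`; `M ≥ 16` with `8 * 384 (k + 1) L * 2 ≤ M`; `N` large. For `A.card ≥ N`: `(dst A).card ≥ k` (a sector with at least
`(A.card - t) / 8` points gives by `ch_gap` many distances), let `r` be the `k`-th smallest distance: `(dle A r).card = k`. `(hi A r).card ≥ k - C` (`hi_card`).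
`Df_bound`, `run_exists`, `STA`. Exceptional distances: if `d ∈ dle A (F ρ τ K)`, `d ≠ F m` for all `1 ≤ m ≤ K`: `F K ≤ r` (the high distances `≤ r` are at least `k - C ≥ K` values
`F m`, so one of them has `m ≥ K`, and `F` is increasing up to `n0`), so `d ≤ r`; `d` is not high (otherwise `d = F m`, `m ≤ k ≤ n0`, `F m ≤ F K` gives `m ≤ K`), so `d ∈ low A`.
-/

set_option autoImplicit false

open Real

namespace Pool.Agent.H83.CP

private lemma STB_kth (D : Finset ℝ) : ∀ k : ℕ, 1 ≤ k → k ≤ D.card →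
    ∃ r ∈ D, (D.filter (fun d => d ≤ r)).card = k := by
  induction D using Finset.induction_on_max with
  | empty =>
    intro k h1 h2
    simp only [Finset.card_empty] at h2
    omega
  | insert a s ha ih =>
    intro k h1 h2
    have hnot : a ∉ s := fun h => lt_irrefl a (ha a h)
    rw [Finset.card_insert_of_notMem hnot] at h2
    rcases Nat.lt_or_ge s.card k with hk | hk
    · refine ⟨a, Finset.mem_insert_self _ _, ?_⟩
      have h3 : (insert a s).filter (fun d => d ≤ a) = insert a s := by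
        apply Finset.filter_true_of_mem
        intro x hx
        rw [Finset.mem_insert] at hx
        rcases hx with rfl | hx
        · exact le_rfl
        · exact (ha x hx).le
      rw [h3, Finset.card_insert_of_notMem hnot]
      omega
    · obtain ⟨r, hr, hc⟩ := ih k h1 hk
      refine ⟨r, Finset.mem_insert_of_mem hr, ?_⟩
      rw [Finset.filter_insert, if_neg (not_le.mpr (ha r hr))]
      exact hc

private lemma STB_dst_pos {A : Finset ℂ} {d : ℝ} (hd : d ∈ dst A) : 0 < d := by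
  unfold dst at hd
  rw [Finset.mem_image] at hd
  obtain ⟨p, hp, rfl⟩ := hd
  rw [Finset.mem_offDiag] at hp
  exact dist_pos.mpr hp.2.2

private lemma STB_sector {A V : Finset ℂ} {α : ℂ → ℝ} {C t : ℕ} (h : Cfg A V α C t) {k : ℕ}
    (hA : 8 * (k + 1) + t ≤ A.card) : k ≤ (dst A).card := by
  have hV : A.card ≤ V.card + t := by
    have h1 := Finset.card_sdiff_add_card_eq_card h.sub
    have h2 := h.ext
    omega
  have h8 : ∃ a ∈ Finset.range 8, k + 1 ≤ (ch V α a).card := by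
    by_contra hcon
    push Not at hcon
    have h3 : V.card = ∑ a ∈ Finset.range 8, (ch V α a).card := by
      apply Finset.card_eq_sum_card_fiberwise
      intro x hx
      exact Finset.mem_coe.mpr (Finset.mem_range.mpr (sec_lt h.nrm (Finset.mem_coe.mp hx)))
    have h4 : ∑ a ∈ Finset.range 8, (ch V α a).card ≤ ∑ a ∈ Finset.range 8, k := by
      apply Finset.sum_le_sum
      intro a ha
      have := hcon a ha
      omega
    rw [Finset.sum_const, Finset.card_range, smul_eq_mul] at h4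
    omega
  obtain ⟨a, -, ha⟩ := h8
  have h5 := ch_small h.nrm h.sub (a := a) (S := ch V α a) (Finset.Subset.refl _)
    (r := ∑ p ∈ (ch V α a) ×ˢ (ch V α a), dist p.1 p.2) (by
      intro x hx y hy
      exact Finset.single_le_sum (f := fun p : ℂ × ℂ => dist p.1 p.2) (fun _ _ => dist_nonneg)
        (Finset.mem_product.mpr ⟨hx, hy⟩ : (x, y) ∈ (ch V α a) ×ˢ (ch V α a)))
  have h6 : (dle A (∑ p ∈ (ch V α a) ×ˢ (ch V α a), dist p.1 p.2)).card ≤ (dst A).card :=
    Finset.card_le_card (Finset.filter_subset _ _)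
  omega

private lemma STB_mono {ρ τ : ℝ} (hρ : 0 < ρ) (hτ : 0 < τ) {n0 : ℕ} (hn0 : 2 ≤ n0)
    (hs : ((n0 : ℝ) - 1) * τ < π / 4) {m n : ℕ} (hmn : m < n) (hn : n ≤ n0) : F ρ τ m < F ρ τ n := by
  unfold F
  have h2 : (2 : ℝ) ≤ n0 := by exact_mod_cast hn0
  have hn' : (n : ℝ) ≤ n0 := by exact_mod_cast hn
  have hmn' : (m : ℝ) < n := by exact_mod_cast hmn
  have hm0 : (0 : ℝ) ≤ m := Nat.cast_nonneg m
  have hpi := Real.pi_pos
  have h3 : (n : ℝ) * τ / 2 < π / 4 := by
    have h4 : (n : ℝ) * τ ≤ (n0 : ℝ) * τ := mul_le_mul_of_nonneg_right hn' hτ.le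
    have h5 : (n0 : ℝ) * τ / 2 ≤ ((n0 : ℝ) - 1) * τ := by nlinarith
    linarith
  have h6 : (m : ℝ) * τ / 2 < (n : ℝ) * τ / 2 := by
    have := mul_lt_mul_of_pos_right hmn' hτ
    linarith
  have h7 : 0 ≤ (m : ℝ) * τ / 2 := by positivity
  have h8 : sin ((m : ℝ) * τ / 2) < sin ((n : ℝ) * τ / 2) := by
    apply Real.sin_lt_sin_of_lt_of_le_pi_div_two
    · linarith
    · linarith
    · exact h6
  exact mul_lt_mul_of_pos_left h8 (by linarith)

private lemma STB_arith {M Df K1 k L n t : ℕ} (hM : M = 16 + 6144 * (k + 1) * L)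
    (h1 : M * Df ≤ K1 * M + 384 * (k + 1) * n) (hn : 16 * L * (K1 + 1) + 2 * t ≤ n) :
    8 * ((Df + 1) * L) + t ≤ n := by
  have hM0 : 0 < 2 * M := by omega
  apply Nat.le_of_mul_le_mul_left _ hM0
  have e1 : 2 * M * (8 * ((Df + 1) * L) + t) = 16 * L * (M * Df) + 16 * L * M + 2 * M * t := by ring
  have e2 : 16 * L * (M * Df) ≤ 16 * L * (K1 * M + 384 * (k + 1) * n) := Nat.mul_le_mul_left _ h1
  have e3 : 16 * L * (K1 * M + 384 * (k + 1) * n) + 16 * L * M + 2 * M * t
      = M * (16 * L * (K1 + 1) + 2 * t) + 6144 * (k + 1) * L * n := by ring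
  have e4 : M * (16 * L * (K1 + 1) + 2 * t) ≤ M * n := Nat.mul_le_mul_left _ hn
  have e5 : 6144 * (k + 1) * L * n ≤ M * n := by
    apply Nat.mul_le_mul_right
    omega
  calc 2 * M * (8 * ((Df + 1) * L) + t) = 16 * L * (M * Df) + 16 * L * M + 2 * M * t := e1
    _ ≤ 16 * L * (K1 * M + 384 * (k + 1) * n) + 16 * L * M + 2 * M * t := by omega
    _ = M * (16 * L * (K1 + 1) + 2 * t) + 6144 * (k + 1) * L * n := e3
    _ ≤ M * n + M * n := add_le_add e4 e5
    _ = 2 * M * n := by ring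

theorem STB (C t K : ℕ) (τ0 : ℝ) (hτ0 : 0 < τ0) : ∃ N : ℕ, ∀ (A V : Finset ℂ) (α : ℂ → ℝ),
    Cfg A V α C t → N ≤ A.card → ∃ ρ τ : ℝ, 0 < ρ ∧ 0 < τ ∧ τ < τ0 ∧
      (∀ m, 1 ≤ m → m ≤ K → F ρ τ m ∈ dst A) ∧
      (exc A ρ τ K).card ≤ C := by
  set k : ℕ := 448 + 8 * C + K + (3 * ws C C + 2) + 10 with hk
  set n0 : ℕ := 3 + k + ⌈π / (4 * τ0)⌉₊ with hn0
  set L : ℕ := (C + 1) * (n0 + 5 * k + 6) + k + 1 with hL
  set M : ℕ := 16 + 6144 * (k + 1) * L with hM
  set K1 : ℕ := 56 * c0 C t k M + 2 * (t * (B k 1 + t)) with hK1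
  refine ⟨8 * (k + 1) + t + (16 * L * (K1 + 1) + 2 * t), ?_⟩
  intro A V α h hN
  have hdst : k ≤ (dst A).card := STB_sector h (by omega)
  obtain ⟨r, hrD, hrk⟩ := STB_kth (dst A) k (by omega) hdst
  have hr0 : 0 < r := STB_dst_pos hrD
  have hdle : (dle A r).card = k := hrk
  obtain ⟨hh1, hh2, hh3⟩ := hi_card h r
  rw [hdle] at hh1
  have hDf := Df_bound h hr0 (M := M) (by omega) (by rw [hdle]; omega) (by omega)
  rw [hdle, ← hK1] at hDf
  have hrun := STB_arith (t := t) hM hDf (by omega)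
  obtain ⟨a, c, -, hR⟩ := run_exists h (L := L) (by omega) hrun
  obtain ⟨ρ, τ, hρ, hτ, hsmall, hhi, hF⟩ := STA h (n0 := n0) hR (by rw [hdle]; omega) (by rw [hdle]; omega)
    (by rw [hdle])
  refine ⟨ρ, τ, hρ, hτ, ?_, ?_, ?_⟩
  · by_contra hcon
    have hcon' : τ0 ≤ τ := not_lt.mp hcon
    have h1 : π / (4 * τ0) ≤ (⌈π / (4 * τ0)⌉₊ : ℝ) := Nat.le_ceil _
    have h2 : (⌈π / (4 * τ0)⌉₊ : ℝ) ≤ (n0 : ℝ) - 1 := by
      have : ⌈π / (4 * τ0)⌉₊ + 1 ≤ n0 := by omega
      have h3 : ((⌈π / (4 * τ0)⌉₊ + 1 : ℕ) : ℝ) ≤ (n0 : ℝ) := by exact_mod_cast this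
      push_cast at h3
      linarith
    have h4 : π / 4 = π / (4 * τ0) * τ0 := by field_simp
    have h5 : π / (4 * τ0) * τ0 ≤ ((n0 : ℝ) - 1) * τ := by
      apply mul_le_mul (h1.trans h2) hcon' hτ0.le
      have hpi := Real.pi_pos
      exact (by positivity : (0 : ℝ) ≤ π / (4 * τ0)).trans (h1.trans h2)
    linarith
  · intro m hm1 hm2
    exact hF m hm1 (by omega)
  · refine le_trans (Finset.card_le_card ?_) h.lowc
    intro d hd
    unfold exc at hd
    rw [Finset.mem_sdiff] at hd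
    obtain ⟨hd1, hd2⟩ := hd
    unfold dle at hd1
    rw [Finset.mem_filter] at hd1
    unfold low
    rw [Finset.mem_filter]
    refine ⟨hd1.1, ?_⟩
    by_contra hmul
    have hmul' : 2 * A.card < mul A d := not_le.mp hmul
    have hmono : ∀ m n : ℕ, m < n → n ≤ n0 → F ρ τ m < F ρ τ n := fun m n h1 h2 =>
      STB_mono hρ hτ (by omega) hsmall h1 h2
    have hFK : F ρ τ K ≤ r := by
      rcases Nat.eq_zero_or_pos K with hK0 | hK0
      · rw [hK0]
        unfold F
        simp only [Nat.cast_zero, zero_mul, zero_div, Real.sin_zero, mul_zero]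
        exact hr0.le
      · by_contra hlt
        have hsub : hi A r ⊆ (Finset.Ico 1 K).image (F ρ τ) := by
          intro x hx
          obtain ⟨m, hm1, hm2, rfl⟩ := hhi x hx
          rw [Finset.mem_image]
          refine ⟨m, ?_, rfl⟩
          rw [Finset.mem_Ico]
          refine ⟨hm1, ?_⟩
          by_contra hmK
          apply hlt
          have hxr : F ρ τ m ≤ r := by
            unfold hi at hx
            exact (Finset.mem_filter.mp hx).2.1
          rcases Nat.lt_or_ge K m with h1 | h1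
          · exact (hmono K m h1 (by rw [hdle] at hm2; omega)).le.trans hxr
          · have : m = K := by omega
            rw [← this]
            exact hxr
        have h1 := Finset.card_le_card hsub
        have h2 : ((Finset.Ico 1 K).image (F ρ τ)).card ≤ (Finset.Ico 1 K).card := Finset.card_image_le
        rw [Nat.card_Ico] at h2
        omega
    have hdhi : d ∈ hi A r := by
      unfold hi
      rw [Finset.mem_filter]
      exact ⟨hd1.1, hd1.2.trans hFK, hmul'⟩
    obtain ⟨m, hm1, hm2, hm3⟩ := hhi d hdhi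
    apply hd2
    rw [Finset.mem_image]
    refine ⟨m, ?_, hm3.symm⟩
    rw [Finset.mem_Icc]
    refine ⟨hm1, ?_⟩
    by_contra hmK
    have h1 := hmono K m (by omega) (by rw [hdle] at hm2; omega)
    rw [← hm3] at h1
    linarith [hd1.2]

end Pool.Agent.H83.CP
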