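import Pool.Agent.H83.CP.DB
import Pool.Agent.H83.CP.SN

/-!
# TRA: bounded exceptional sets in a chain

`near_card`: the points of the chain within `F J` of `z` have mutual distances `≤ 2 F J ≤ F (3 J)`; `ch_small` with `r = F (3 J)`; `dle A (F (3 J)) ⊆ image of F on [1, 3 J] ∪ exc A (3 K)`
(`d ≤ F (3 J) ≤ F (3 K)`; if `d = F m`, `m ≤ 3 K`, then `m ≤ 3 J` by monotonicity), so at most `3 J + C` distances.
`exc_nbr`: `y ↦ dist w y` is injective on the `y` in the chain with `α y > α w`, and on those with `α y < α w` (`ch_mono`), with values in `exc`; `dist w w = 0` is not in `exc`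
(`dst` has only positive numbers).
`typ_of`: `dist x y ∈ dle A (F K)`, not in `exc`, so in the image.
-/

set_option autoImplicit false

open Real

namespace Pool.Agent.H83.CP

/-- the facts of `small_sine` -/
structure Sm (ρ τ : ℝ) (K : ℕ) : Prop where
  ρ0 : 0 < ρ
  τ0 : 0 < τ
  mono : ∀ m n : ℕ, m < n → n ≤ 3 * K → F ρ τ m < F ρ τ n
  up : ∀ m : ℕ, m ≤ 3 * K → F ρ τ m ≤ m * F ρ τ 1
  lo : ∀ m : ℕ, m ≤ 3 * K → m * F ρ τ 1 ≤ 2 * F ρ τ m
  tri : ∀ m : ℕ, m ≤ K → 2 * F ρ τ m ≤ F ρ τ (3 * m)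
  lt : F ρ τ (3 * K) < ρ

theorem near_card {A V : Finset ℂ} {α : ℂ → ℝ} {C t : ℕ} (h : Cfg A V α C t) {ρ τ : ℝ} {K : ℕ}
    (hs : Sm ρ τ K) (he : (exc A ρ τ (3 * K)).card ≤ C) {J : ℕ} (hJ : J ≤ K) (b : ℕ) (z : ℂ) :
    ((ch V α b).filter (fun w => dist w z ≤ F ρ τ J)).card ≤ 3 * J + C + 1 := by
  classical
  have h1 := ch_small (A := A) h.nrm h.sub (a := b)
    (S := (ch V α b).filter (fun w => dist w z ≤ F ρ τ J)) (Finset.filter_subset _ _)
    (r := F ρ τ (3 * J)) (by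
      intro x hx y hy
      have hx' := (Finset.mem_filter.1 hx).2
      have hy' := (Finset.mem_filter.1 hy).2
      have h2 := dist_triangle_right x y z
      have h3 := hs.tri J hJ
      linarith)
  have h2 : dle A (F ρ τ (3 * J)) ⊆ (Finset.Icc 1 (3 * J)).image (F ρ τ) ∪ exc A ρ τ (3 * K) := by
    intro d hd
    have hd1 := (Finset.mem_filter.1 hd).1
    have hd2 := (Finset.mem_filter.1 hd).2
    have hle : F ρ τ (3 * J) ≤ F ρ τ (3 * K) := by
      rcases Nat.eq_or_lt_of_le (Nat.mul_le_mul_left 3 hJ) with h3 | h3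
      · rw [h3]
      · exact (hs.mono _ _ h3 le_rfl).le
    by_cases h3 : d ∈ (Finset.Icc 1 (3 * K)).image (F ρ τ)
    · obtain ⟨m, hm, rfl⟩ := Finset.mem_image.1 h3
      rw [Finset.mem_Icc] at hm
      apply Finset.mem_union_left
      refine Finset.mem_image.2 ⟨m, Finset.mem_Icc.2 ⟨hm.1, ?_⟩, rfl⟩
      by_contra hcon
      have := hs.mono (3 * J) m (not_le.1 hcon) hm.2
      linarith
    · apply Finset.mem_union_right
      exact Finset.mem_sdiff.2 ⟨Finset.mem_filter.2 ⟨hd1, hd2.trans hle⟩, h3⟩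
  have h3 := (Finset.card_le_card h2).trans (Finset.card_union_le _ _)
  have h4 : ((Finset.Icc 1 (3 * J)).image (F ρ τ)).card ≤ 3 * J := by
    refine Finset.card_image_le.trans ?_
    rw [Nat.card_Icc]
    omega
  omega

theorem exc_nbr {A V : Finset ℂ} {α : ℂ → ℝ} {C t : ℕ} (h : Cfg A V α C t) {ρ τ : ℝ} {K : ℕ}
    (he : (exc A ρ τ (3 * K)).card ≤ C) {b : ℕ} {w : ℂ} (hw : w ∈ ch V α b) :
    ((ch V α b).filter (fun y => dist w y ∈ exc A ρ τ (3 * K))).card ≤ 2 * C := by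
  classical
  set S1 := (ch V α b).filter (fun y => α w < α y ∧ dist w y ∈ exc A ρ τ (3 * K)) with hS1
  set S2 := (ch V α b).filter (fun y => α y < α w ∧ dist w y ∈ exc A ρ τ (3 * K)) with hS2
  have hsub : (ch V α b).filter (fun y => dist w y ∈ exc A ρ τ (3 * K)) ⊆ S1 ∪ S2 := by
    intro y hy
    obtain ⟨hy1, hy2⟩ := Finset.mem_filter.1 hy
    rcases lt_trichotomy (α w) (α y) with h1 | h1 | h1
    · exact Finset.mem_union_left _ (Finset.mem_filter.2 ⟨hy1, h1, hy2⟩)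
    · exfalso
      have h2 := ch_inj h.nrm (DB_mem hw) (DB_mem hy1) h1
      rw [← h2, dist_self] at hy2
      have h3 := (Finset.mem_filter.1 (Finset.mem_sdiff.1 hy2).1).1
      unfold dst at h3
      obtain ⟨p, hp, hp2⟩ := Finset.mem_image.1 h3
      exact (Finset.mem_offDiag.1 hp).2.2 (dist_eq_zero.1 hp2)
    · exact Finset.mem_union_right _ (Finset.mem_filter.2 ⟨hy1, h1, hy2⟩)
  have c1 : S1.card ≤ C := by
    refine le_trans (Finset.card_le_card_of_injOn (fun y => dist w y) ?_ ?_) he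
    · intro y hy
      exact (Finset.mem_filter.1 (Finset.mem_coe.1 hy)).2.2
    · intro y hy z hz hyz
      obtain ⟨a1, a2, -⟩ := Finset.mem_filter.1 (Finset.mem_coe.1 hy)
      obtain ⟨b1, b2, -⟩ := Finset.mem_filter.1 (Finset.mem_coe.1 hz)
      exact DB_inj h.nrm hw a1 b1 a2 b2 hyz
  have c2 : S2.card ≤ C := by
    refine le_trans (Finset.card_le_card_of_injOn (fun y => dist w y) ?_ ?_) he
    · intro y hy
      exact (Finset.mem_filter.1 (Finset.mem_coe.1 hy)).2.2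
    · intro y hy z hz hyz
      obtain ⟨a1, a2, -⟩ := Finset.mem_filter.1 (Finset.mem_coe.1 hy)
      obtain ⟨b1, b2, -⟩ := Finset.mem_filter.1 (Finset.mem_coe.1 hz)
      have hyz' : dist w y = dist w z := hyz
      rcases lt_trichotomy (α y) (α z) with h3 | h3 | h3
      · have h4 := (ch_mono h.nrm a1 b1 hw h3 b2).2
        rw [dist_comm z w, dist_comm y w] at h4
        linarith
      · exact ch_inj h.nrm (DB_mem a1) (DB_mem b1) h3
      · have h4 := (ch_mono h.nrm b1 a1 hw h3 a2).2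
        rw [dist_comm z w, dist_comm y w] at h4
        linarith
  have h3 := (Finset.card_le_card hsub).trans (Finset.card_union_le _ _)
  omega

theorem typ_of {A : Finset ℂ} {ρ τ : ℝ} {K : ℕ} {x y : ℂ} (hx : x ∈ A) (hy : y ∈ A) (hxy : x ≠ y)
    (h1 : dist x y ≤ F ρ τ K) (h2 : dist x y ∉ exc A ρ τ K) :
    ∃ m, 1 ≤ m ∧ m ≤ K ∧ dist x y = F ρ τ m := by
  have h3 : dist x y ∈ dle A (F ρ τ K) := by
    unfold dle dst
    rw [Finset.mem_filter, Finset.mem_image]
    exact ⟨⟨(x, y), Finset.mem_offDiag.2 ⟨hx, hy, hxy⟩, rfl⟩, h1⟩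
  by_contra hcon
  apply h2
  unfold exc
  rw [Finset.mem_sdiff]
  refine ⟨h3, fun h4 => hcon ?_⟩
  obtain ⟨m, hm, hm2⟩ := Finset.mem_image.1 h4
  rw [Finset.mem_Icc] at hm
  exact ⟨m, hm.1, hm.2, hm2.symm⟩

end Pool.Agent.H83.CP
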