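import Pool.Agent.H83.CP.TRA

/-!
# TRB: many points of a chain in a short window

`u := F ρ τ 1 > 0`, `θ := b π / 4`, cells `⌊ax θ (x - p) / (l u)⌋`; `|ax θ (x - p)| ≤ F K ≤ K u` (`ax_abs`), so the cell number is between `- K / l - 1` and `K / l`: at most
`2 (K / l) + 2` cells; one of them has at least `q` points (`Finset.exists_lt_card_fiber_of_mul_lt_card_of_maps_to`); two points of it have distance `≤ 2 l u` (`ch_ax`).
-/

set_option autoImplicit false

open Real

namespace Pool.Agent.H83.CP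

theorem cell {A V : Finset ℂ} {α : ℂ → ℝ} {C t : ℕ} (h : Cfg A V α C t) {ρ τ : ℝ} {K : ℕ}
    (hs : Sm ρ τ K) (hK : 1 ≤ K) {b : ℕ} {U : Finset ℂ} (hU : U ⊆ ch V α b) {p : ℂ}
    (hp : ∀ x ∈ U, dist x p ≤ F ρ τ K) {l q : ℕ} (hl : 1 ≤ l) (hq : 1 ≤ q)
    (hc : (q - 1) * (2 * (K / l) + 2) < U.card) :
    ∃ U' ⊆ U, q ≤ U'.card ∧ ∀ x ∈ U', ∀ y ∈ U', dist x y ≤ 2 * ((l : ℝ) * F ρ τ 1) := by
  classical
  have hpi := Real.pi_pos
  have hu : 0 < F ρ τ 1 := by
    have h1 := hs.mono 0 1 (by norm_num) (by omega)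
    have h2 : F ρ τ 0 = 0 := by
      unfold F
      simp
    linarith
  set u := F ρ τ 1 with hud
  have hK' : F ρ τ K ≤ K * u := hs.up K (by omega)
  set θ : ℝ := (b : ℝ) * (π / 4) with hθ
  have hθ2 : θ ≤ ((b : ℝ) + 1) * (π / 4) := by
    rw [hθ]
    nlinarith
  have hl0 : (0 : ℝ) < l := by exact_mod_cast hl
  have hlu : 0 < (l : ℝ) * u := mul_pos hl0 hu
  set M : ℕ := K / l with hM
  have hKM : (K : ℝ) < (M + 1) * l := by
    have h1 : K < (M + 1) * l := by
      rw [hM]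
      have := Nat.lt_div_mul_add (a := K) (b := l) (by omega)
      rw [add_mul, one_mul]
      exact this
    exact_mod_cast h1
  set f : ℂ → ℤ := fun x => ⌊ax θ (x - p) / ((l : ℝ) * u)⌋ with hf
  have hmaps : ∀ x ∈ U, f x ∈ Finset.Icc (-((M : ℤ) + 1)) (M : ℤ) := by
    intro x hx
    have h1 : |ax θ (x - p)| ≤ K * u := by
      refine (ax_abs θ (x - p)).trans ?_
      rw [← dist_eq_norm]
      exact (hp x hx).trans hK'
    have h2 := abs_le.1 h1
    have h3 : (K : ℝ) * u < (M + 1) * (l * u) := by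
      rw [← mul_assoc]
      exact mul_lt_mul_of_pos_right hKM hu
    rw [Finset.mem_Icc]
    constructor
    · rw [hf, Int.le_floor, le_div_iff₀ hlu]
      push_cast
      nlinarith
    · rw [← Int.lt_add_one_iff, hf, Int.floor_lt, div_lt_iff₀ hlu]
      push_cast
      linarith
  have hcard : (Finset.Icc (-((M : ℤ) + 1)) (M : ℤ)).card = 2 * M + 2 := by
    rw [Int.card_Icc]
    omega
  obtain ⟨y, _, hy⟩ := Finset.exists_lt_card_fiber_of_mul_lt_card_of_maps_to (n := q - 1) hmaps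
    (by
      rw [hcard, mul_comm]
      exact hc)
  refine ⟨U.filter (fun x => f x = y), Finset.filter_subset _ _, by omega, ?_⟩
  have key : ∀ x ∈ U.filter (fun x => f x = y), ∀ z ∈ U.filter (fun x => f x = y),
      α x ≤ α z → dist x z ≤ 2 * ((l : ℝ) * u) := by
    intro x hx z hz hxz
    obtain ⟨hxU, hxf⟩ := Finset.mem_filter.1 hx
    obtain ⟨hzU, hzf⟩ := Finset.mem_filter.1 hz
    have h1 := ch_ax h.nrm (hU hxU) (hU hzU) hxz (θ := θ) le_rfl hθ2
    have h2 : ax θ (z - x) = ax θ (z - p) - ax θ (x - p) := by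
      rw [ax_sub, ax_sub, ax_sub]
      ring
    have h3 : ax θ (z - p) / ((l : ℝ) * u) - ax θ (x - p) / ((l : ℝ) * u) < 1 := by
      have h4 := Int.lt_floor_add_one (ax θ (z - p) / ((l : ℝ) * u))
      have h5 := Int.floor_le (ax θ (x - p) / ((l : ℝ) * u))
      have h6 : ⌊ax θ (z - p) / ((l : ℝ) * u)⌋ = ⌊ax θ (x - p) / ((l : ℝ) * u)⌋ :=
        hzf.trans hxf.symm
      rw [h6] at h4
      linarith
    rw [← sub_div, div_lt_iff₀ hlu, one_mul, ← h2] at h3
    linarith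
  intro x hx z hz
  rcases le_total (α x) (α z) with hxz | hxz
  · exact key x hx z hz hxz
  · rw [dist_comm]
    exact key z hz x hx hxz

end Pool.Agent.H83.CP
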